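import Mathlib

/-! Zero-range process on the integer line (graphical construction) and the infection it carries. -/

open MeasureTheory ProbabilityTheory Set Filter Topology
open scoped NNReal ENNReal

namespace Pool.Agent.Lib.MP_dd0771_pr

/-- Sample points. At each site `x` there is one cell `(x, none)` for the initial number of
particles and one cell `(x, some (c, n))` for each clock `c` and each time window `(n, n+1]`;
`c = none` is the healing clock, `c = some (k, e)` the jump clock of level `k` and direction `e`.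
A cell holds a count and a sequence of positions. -/
abbrev Omega : Type := ℤ × Option (Option (ℕ × Bool) × ℕ) → ℕ × (ℕ → ℝ)

/-- Law of a cell: the count has law `m`, the positions are independent uniform on `(0, 1]`. -/
noncomputable def cell (m : Measure ℕ) : Measure (ℕ × (ℕ → ℝ)) :=
  m.prod (Measure.infinitePi fun _ : ℕ => (volume : Measure ℝ).restrict (Ioc 0 1))

/-- Rate of a clock: `δ` for healing, `(g (k+1) - g k) / 2` for level `k` and either direction. -/
noncomputable def rate (g : ℕ → ℝ) (δ : ℝ≥0∞) : Option (ℕ × Bool) → ℝ≥0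
  | none => δ.toNNReal
  | some p => Real.toNNReal ((g (p.1 + 1) - g p.1) / 2)

/-- Law of the count of a cell: `ν` for the initial cell, Poisson for the cells of the clocks. -/
noncomputable def countLaw (ν : Measure ℕ) (g : ℕ → ℝ) (δ : ℝ≥0∞) :
    Option (Option (ℕ × Bool) × ℕ) → Measure ℕ
  | none => ν
  | some q => poissonMeasure (rate g δ q.1)

/-- All cells are independent. -/
noncomputable def law (ν : Measure ℕ) (g : ℕ → ℝ) (δ : ℝ≥0∞) : Measure Omega :=
  Measure.infinitePi fun i => cell (countLaw ν g δ i.2)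

/-- The points of clock `c` at site `x`: in each window `(n, n+1]` a Poisson number of independent
uniform points, that is a Poisson process of rate `rate g δ c`. -/
def pts (ω : Omega) (x : ℤ) (c : Option (ℕ × Bool)) : Set ℝ :=
  {t | ∃ n j : ℕ, j < (ω (x, some (c, n))).1 ∧ t = n + (ω (x, some (c, n))).2 j}

/-- The neighbour of `x` in direction `e`. -/
def nb (x : ℤ) (e : Bool) : ℤ := if e then x + 1 else x - 1

/-- One particle goes from `x` to `y`; it is removed if `y` is outside `A`. -/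
def move (A : Finset ℤ) (ξ : ℤ → ℕ) (x y : ℤ) : ℤ → ℕ :=
  fun z => ξ z - (if z = x then 1 else 0) + (if z = y ∧ y ∈ A then 1 else 0)

/-- What happens at time `t` to the configuration `ξ`: a ring of clock `(k, e)` at `x` moves a
particle from `x` in direction `e` exactly if `x` holds more than `k` particles. -/
def Step (A : Finset ℤ) (ω : Omega) (t : ℝ) (ξ ξ' : ℤ → ℕ) : Prop :=
  ((∀ x k e, t ∈ pts ω x (some (k, e)) → ξ x ≤ k) ∧ ξ' = ξ) ∨
    ∃ x k e, t ∈ pts ω x (some (k, e)) ∧ k < ξ x ∧ ξ' = move A ξ x (nb x e)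

/-- `ζ` is the finite system in `A`: it starts from the initial particles in `A`, is cadlag, and
changes only according to `Step`; particles leaving `A` are removed. -/
def IsEvol (A : Finset ℤ) (ω : Omega) (ζ : ℝ → ℤ → ℕ) : Prop :=
  (∀ x, ζ 0 x = if x ∈ A then (ω (x, none)).1 else 0) ∧
  (∀ t, 0 ≤ t → ∀ᶠ u in 𝓝[>] t, ζ u = ζ t) ∧
  ∀ t, 0 < t → ∃ ξ, (∀ᶠ u in 𝓝[<] t, ζ u = ξ) ∧ Step A ω t ξ (ζ t)

/-- The zero-range process: the increasing limit of the finite systems. -/
noncomputable def eta (ω : Omega) (t : ℝ) (x : ℤ) : ℕ∞ :=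
  ⨆ (A : Finset ℤ) (ζ : ℝ → ℤ → ℕ) (_ : IsEvol A ω ζ), (ζ t x : ℕ∞)

/-- A particle jumps from `x` to `y` at time `t`. -/
def Jump (ω : Omega) (t : ℝ) (x y : ℤ) : Prop :=
  ∃ k e, t ∈ pts ω x (some (k, e)) ∧ y = nb x e ∧ ∀ᶠ u in 𝓝[<] t, (k : ℕ∞) < eta ω u x

/-- Healing marks at `x`; every time is a mark if `δ = ∞`. -/
def marks (δ : ℝ≥0∞) (ω : Omega) (x : ℤ) : Set ℝ := if δ = ⊤ then univ else pts ω x none

/-- `γ` restricted to `[0, t]` is a genealogical path: cadlag, it jumps only with a particle, it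
sits on occupied sites, and it meets no mark while the site holds a single particle. -/
def IsPath (δ : ℝ≥0∞) (ω : Omega) (t : ℝ) (γ : ℝ → ℤ) : Prop :=
  (∀ u ∈ Ico 0 t, ∀ᶠ v in 𝓝[>] u, γ v = γ u) ∧
  (∀ u ∈ Ioc 0 t, ∃ z, (∀ᶠ v in 𝓝[<] u, γ v = z) ∧ (γ u ≠ z → Jump ω u z (γ u))) ∧
  ∀ u ∈ Icc 0 t, 1 ≤ eta ω u (γ u) ∧ (eta ω u (γ u) = 1 → u ∉ marks δ ω (γ u))

/-- Site `y` is infected at time `t`. -/
def Infected (δ : ℝ≥0∞) (ω : Omega) (t : ℝ) (y : ℤ) : Prop :=
  ∃ γ, IsPath δ ω t γ ∧ γ 0 = 0 ∧ γ t = y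

/-- The infection survives. -/
def Survives (δ : ℝ≥0∞) (ω : Omega) : Prop := ∀ t, 0 ≤ t → ∃ y, Infected δ ω t y

/-- The origin is infected at an unbounded set of times. -/
def LocalSurvival (δ : ℝ≥0∞) (ω : Omega) : Prop := ¬ BddAbove {t | 0 ≤ t ∧ Infected δ ω t 0}

open Classical in
/-- The construction is well posed at `ω`: each finite system exists and is unique, and the limit
process is finite, starts from the initial counts, is cadlag at each site and changes at `x` exactly
by the jumps into and out of `x`. -/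
def WellPosed (ω : Omega) : Prop :=
  (∀ A, ∃ ζ, IsEvol A ω ζ ∧ ∀ ζ', IsEvol A ω ζ' → ∀ t, 0 ≤ t → ζ' t = ζ t) ∧
  ∃ η : ℝ → ℤ → ℕ, (∀ t, 0 ≤ t → ∀ x, eta ω t x = η t x) ∧ (∀ x, η 0 x = (ω (x, none)).1) ∧
    (∀ t, 0 ≤ t → ∀ x, ∀ᶠ u in 𝓝[>] t, η u x = η t x) ∧
    ∀ t, 0 < t → ∀ x, ∃ m : ℕ, (∀ᶠ u in 𝓝[<] t, η u x = m) ∧
      η t x + (if ∃ y, Jump ω t x y then 1 else 0) = m + (if ∃ y, Jump ω t y x then 1 else 0)

end Pool.Agent.Lib.MP_dd0771_pr
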