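import Pool.Agent.Lib.MP_dd0771_pr.Evol

open MeasureTheory ProbabilityTheory Set Filter Topology
open scoped NNReal ENNReal

namespace Pool.Agent.Lib.MP_dd0771_pr

/-- Index of a cell. -/
abbrev Idx : Type := ℤ × Option (Option (ℕ × Bool) × ℕ)
/-- Labels of rings: site, level, direction, window, number. -/
abbrev Lab : Type := ℤ × ℕ × Bool × ℕ × ℕ
/-- The cell of a label. -/
def idx (l : Lab) : Idx := (l.1, some (some (l.2.1, l.2.2.1), l.2.2.2.1))
/-- The time of a label. -/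
def tm (ω : Omega) (l : Lab) : ℝ := l.2.2.2.1 + (ω (idx l)).2 l.2.2.2.2
/-- The label matters for the system in `A`. -/
def Rel0 (A : Finset ℤ) (ω : Omega) (l : Lab) : Prop :=
  l.1 ∈ A ∧ l.2.1 < mass A ω ∧ l.2.2.2.2 < (ω (idx l)).1
/-- The label matters for the system in `A` up to time `t`. -/
def Rel (A : Finset ℤ) (ω : Omega) (t : ℝ) (l : Lab) : Prop :=
  Rel0 A ω l ∧ (l.2.2.2.1 : ℝ) < t ∧ tm ω l ≤ t
/-- Increasing enumeration of the relevant labels. -/
def Enum (A : Finset ℤ) (ω : Omega) (t : ℝ) (L : List Lab) : Prop :=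
  L.Pairwise (fun a b => tm ω a < tm ω b) ∧ ∀ l, l ∈ L ↔ Rel A ω t l
/-- Effect of a ring. -/
def app (A : Finset ℤ) (ξ : ℤ → ℕ) (l : Lab) : ℤ → ℕ :=
  if l.2.1 < ξ l.1 then move A ξ l.1 (nb l.1 l.2.2.1) else ξ
/-- Initial configuration in `A`. -/
def init (A : Finset ℤ) (ω : Omega) : ℤ → ℕ := fun x => if x ∈ A then (ω (x, none)).1 else 0
/-- Effect of a list of rings. -/
def run (A : Finset ℤ) (ω : Omega) (L : List Lab) : ℤ → ℕ := L.foldl (app A) (init A ω)
/-- Positions are in `(0,1]` and the ring times are distinct. -/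
def Good (ω : Omega) : Prop := (∀ i j, (ω i).2 j ∈ Ioc (0 : ℝ) 1) ∧ Function.Injective (tm ω)

variable {ω : Omega} {A : Finset ℤ}

lemma mem_pts_iff {x : ℤ} {k : ℕ} {e : Bool} {t : ℝ} : t ∈ pts ω x (some (k, e)) ↔
    ∃ n j, j < (ω (idx (x, k, e, n, j))).1 ∧ t = tm ω (x, k, e, n, j) := Iff.rfl

lemma Good.noTie (h : Good ω) : NoTie ω := by
  intro x k e x' k' e' t h1 h2
  obtain ⟨n, j, -, h1⟩ := mem_pts_iff.1 h1
  obtain ⟨n', j', -, h2⟩ := mem_pts_iff.1 h2
  have := h.2 (h1.symm.trans h2)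
  simp only [Prod.mk.injEq] at this
  exact ⟨this.1, this.2.1, this.2.2.1⟩

lemma Good.lt_tm (h : Good ω) (l : Lab) : (l.2.2.2.1 : ℝ) < tm ω l := by
  have := (h.1 (idx l) l.2.2.2.2).1
  simp only [tm]; linarith

lemma Good.tm_le (h : Good ω) (l : Lab) : tm ω l ≤ l.2.2.2.1 + 1 := by
  have := (h.1 (idx l) l.2.2.2.2).2
  simp only [tm]; linarith

lemma Good.rel_iff (h : Good ω) {t : ℝ} {l : Lab} : Rel A ω t l ↔ Rel0 A ω l ∧ tm ω l ≤ t :=
  ⟨fun h1 => ⟨h1.1, h1.2.2⟩, fun h1 => ⟨h1.1, (h.lt_tm l).trans_le h1.2, h1.2⟩⟩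

lemma Good.pts_finite (h : Good ω) (x : ℤ) (c : Option (ℕ × Bool)) (t : ℝ) :
    (pts ω x c ∩ Iic t).Finite := by
  have h1 : (⋃ n ∈ Finset.range ⌈t⌉₊, (fun j : ℕ => (n : ℝ) + (ω (x, some (c, n))).2 j) ''
      {j | j < (ω (x, some (c, n))).1}).Finite :=
    Set.Finite.biUnion (Finset.finite_toSet _) fun n _ => (Set.finite_lt_nat _).image _
  refine h1.subset ?_
  rintro u ⟨⟨n, j, h2, rfl⟩, h3⟩
  have h4 := (h.1 (x, some (c, n)) j).1
  simp only [mem_iUnion]
  refine ⟨n, ?_, j, h2, rfl⟩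
  rw [Finset.mem_range, Nat.lt_ceil]
  have : (n : ℝ) + (ω (x, some (c, n))).2 j ≤ t := h3
  linarith

lemma Good.rings_finite (h : Good ω) (x : ℤ) (H : ℕ) (t : ℝ) : (rings ω x H ∩ Iic t).Finite := by
  have h1 : (⋃ k ∈ Finset.range H, ⋃ e : Bool, pts ω x (some (k, e)) ∩ Iic t).Finite :=
    Set.Finite.biUnion (Finset.finite_toSet _) fun k _ =>
      Set.finite_iUnion fun e => h.pts_finite x _ t
  refine h1.subset ?_
  rintro u ⟨⟨k, hk, e, h2⟩, h3⟩
  simp only [mem_iUnion]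
  exact ⟨k, Finset.mem_range.2 hk, e, h2, h3⟩

lemma rel_finite (A : Finset ℤ) (ω : Omega) (t : ℝ) : {l | Rel A ω t l}.Finite := by
  have h1 : (⋃ q ∈ A ×ˢ Finset.range (mass A ω) ×ˢ (Finset.univ : Finset Bool) ×ˢ
      Finset.range ⌈t⌉₊, (fun j : ℕ => ((q.1, q.2.1, q.2.2.1, q.2.2.2, j) : Lab)) ''
      {j | j < (ω (q.1, some (some (q.2.1, q.2.2.1), q.2.2.2))).1}).Finite :=
    Set.Finite.biUnion (Finset.finite_toSet _) fun n _ => (Set.finite_lt_nat _).image _
  refine h1.subset ?_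
  rintro ⟨x, k, e, n, j⟩ ⟨⟨h2, h3, h4⟩, h5, -⟩
  simp only [mem_iUnion]
  refine ⟨(x, k, e, n), ?_, j, h4, rfl⟩
  simp only [Finset.mem_product, Finset.mem_range, Finset.mem_univ, true_and]
  exact ⟨h2, h3, Nat.lt_ceil.2 h5⟩

lemma Good.exists_enum (h : Good ω) (A : Finset ℤ) (t : ℝ) : ∃ L, Enum A ω t L := by
  classical
  have key : ∀ s : Finset Lab, ∃ L : List Lab, L.Pairwise (fun a b => tm ω a < tm ω b) ∧
      ∀ l, l ∈ L ↔ l ∈ s := by
    intro s
    induction s using Finset.induction_on_max_value (tm ω) with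
    | empty => exact ⟨[], by simp⟩
    | insert a s ha hmax ih =>
      obtain ⟨L, h1, h2⟩ := ih
      refine ⟨L ++ [a], ?_, fun l => by simp [h2, or_comm]⟩
      rw [List.pairwise_append]
      refine ⟨h1, by simp, fun b hb c hc => ?_⟩
      rw [List.mem_singleton.1 hc]
      have hb' := (h2 b).1 hb
      exact lt_of_le_of_ne (hmax b hb') fun h3 => ha (h.2 h3 ▸ hb')
  obtain ⟨L, h1, h2⟩ := key (rel_finite A ω t).toFinset
  exact ⟨L, h1, fun l => by rw [h2]; simp⟩

lemma list_unique {L L' : List Lab} (h1 : L.Pairwise (fun a b => tm ω a < tm ω b))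
    (h2 : L'.Pairwise (fun a b => tm ω a < tm ω b)) (h3 : ∀ l, l ∈ L ↔ l ∈ L') : L = L' := by
  have n1 : L.Nodup := h1.imp fun h h' => by rw [h'] at h; exact lt_irrefl _ h
  have n2 : L'.Nodup := h2.imp fun h h' => by rw [h'] at h; exact lt_irrefl _ h
  exact ((List.perm_ext_iff_of_nodup n1 n2).2 h3).eq_of_pairwise
    (fun a b _ _ h4 h5 => absurd h4 (not_lt.2 h5.le)) h1 h2

lemma run_inv (A : Finset ℤ) (ω : Omega) (L : List Lab) :
    (∀ x, x ∉ A → run A ω L x = 0) ∧ ∑ z ∈ A, run A ω L z ≤ mass A ω := by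
  induction L using List.reverseRecOn with
  | nil =>
    refine ⟨fun x hx => by simp [run, init, hx], le_of_eq ?_⟩
    exact Finset.sum_congr rfl fun z hz => by simp [run, init, hz]
  | append_singleton L l ih =>
    have h1 : run A ω (L ++ [l]) = app A (run A ω L) l := by simp [run]
    rw [h1, app]
    split_ifs with h2
    · have hx : l.1 ∈ A := by
        by_contra hx
        have := ih.1 _ hx
        omega
      refine ⟨fun z hz => ?_, (sum_move_le hx (by omega) _).trans ih.2⟩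
      have : ¬ (z = nb l.1 l.2.2.1 ∧ nb l.1 l.2.2.1 ∈ A) := fun h => hz (h.1 ▸ h.2)
      simp [move, ih.1 z hz, this]
    · exact ih

lemma Good.isEvol (h : Good ω) {L : ℝ → List Lab} (hL : ∀ t, Enum A ω t (L t)) :
    IsEvol A ω (fun t => run A ω (L t)) := by
  have same : ∀ t u, (∀ l, Rel A ω u l ↔ Rel A ω t l) → L u = L t := fun t u h1 =>
    list_unique (hL u).1 (hL t).1 fun l => by rw [(hL u).2, (hL t).2, h1]
  refine ⟨fun x => ?_, fun t _ => ?_, fun t _ => ?_⟩
  · have : L 0 = [] := by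
      rw [List.eq_nil_iff_forall_not_mem]
      intro l hl
      exact absurd ((hL 0).2 l |>.1 hl).2.1 (not_lt.2 (Nat.cast_nonneg _))
    simp [this, run, init]
  · have hf := (rel_finite A ω (t + 1)).image (tm ω)
    filter_upwards [ev_right_notMem hf t, Ioo_mem_nhdsGT (lt_add_one t)] with u h1 h2
    rw [same t u]
    intro l
    rw [h.rel_iff, h.rel_iff]
    refine ⟨fun h3 => ⟨h3.1, ?_⟩, fun h3 => ⟨h3.1, h3.2.trans h2.1.le⟩⟩
    by_contra h4
    exact h1 _ ⟨not_le.1 h4, h3.2⟩ ⟨l, h.rel_iff.2 ⟨h3.1, h3.2.trans h2.2.le⟩, rfl⟩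
  · have hf := (rel_finite A ω t).image (tm ω)
    have h1 : ∀ᶠ u in 𝓝[<] t, ∀ l, Rel A ω u l ↔ Rel0 A ω l ∧ tm ω l < t := by
      filter_upwards [ev_left_notMem hf t, self_mem_nhdsWithin] with u h1 h2 l
      rw [h.rel_iff]
      refine ⟨fun h3 => ⟨h3.1, h3.2.trans_lt h2⟩, fun h3 => ⟨h3.1, ?_⟩⟩
      by_contra h4
      exact h1 _ ⟨(not_le.1 h4).le, h3.2⟩ ⟨l, h.rel_iff.2 ⟨h3.1, h3.2.le⟩, rfl⟩
    obtain ⟨u0, hu0⟩ := h1.exists
    refine ⟨run A ω (L u0), ?_, ?_⟩
    · filter_upwards [h1] with u hu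
      rw [same u0 u fun l => by rw [hu, hu0]]
    by_cases h2 : ∃ l, Rel0 A ω l ∧ tm ω l = t
    · obtain ⟨l0, h2, h3⟩ := h2
      have h4 : L t = L u0 ++ [l0] := by
        refine list_unique (ω := ω) (hL t).1 ?_ fun l => ?_
        · rw [List.pairwise_append]
          refine ⟨(hL u0).1, by simp, fun b hb c hc => ?_⟩
          rw [List.mem_singleton.1 hc, h3]
          exact ((hu0 b).1 (((hL u0).2 b).1 hb)).2
        · rw [List.mem_append, List.mem_singleton, (hL t).2, (hL u0).2, hu0, h.rel_iff]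
          constructor
          · intro h5
            rcases h5.2.eq_or_lt with h6 | h6
            · exact Or.inr (h.2 (h6.trans h3.symm))
            · exact Or.inl ⟨h5.1, h6⟩
          · rintro (h5 | h5)
            · exact ⟨h5.1, h5.2.le⟩
            · rw [h5]; exact ⟨h2, h3.le⟩
      have h5 : run A ω (L t) = app A (run A ω (L u0)) l0 := by simp [h4, run]
      by_cases h6 : l0.2.1 < run A ω (L u0) l0.1
      · refine Or.inr ⟨l0.1, l0.2.1, l0.2.2.1, ?_, h6, by simp only [h5, app, h6, if_true]⟩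
        exact mem_pts_iff.2 ⟨l0.2.2.2.1, l0.2.2.2.2, h2.2.2, h3.symm⟩
      · refine Or.inl ⟨fun x k e h7 => ?_, by simp only [h5, app, h6, if_false]⟩
        obtain ⟨n, j, -, h7⟩ := mem_pts_iff.1 h7
        have h8 := h.2 (h3.trans h7)
        rw [h8] at h6
        exact not_lt.1 h6
    · have h4 : L t = L u0 := by
        refine same u0 t fun l => ?_
        rw [hu0, h.rel_iff]
        exact ⟨fun h5 => ⟨h5.1, lt_of_le_of_ne h5.2 fun h6 => h2 ⟨l, h5.1, h6⟩⟩,
          fun h5 => ⟨h5.1, h5.2.le⟩⟩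
      refine Or.inl ⟨fun x k e h7 => ?_, by simp only [h4]⟩
      obtain ⟨n, j, h6, h7⟩ := mem_pts_iff.1 h7
      have h8 := run_inv A ω (L u0)
      by_cases hx : x ∈ A
      · by_contra h9
        have h10 : run A ω (L u0) x ≤ mass A ω :=
          (Finset.single_le_sum (f := run A ω (L u0)) (fun _ _ => Nat.zero_le _) hx).trans h8.2
        exact h2 ⟨(x, k, e, n, j), ⟨hx, by simp only; omega, h6⟩, h7.symm⟩
      · rw [h8.1 x hx]; exact Nat.zero_le _

lemma Good.exists_evol (h : Good ω) (A : Finset ℤ) : ∃ ζ, IsEvol A ω ζ := by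
  choose L hL using h.exists_enum A
  exact ⟨_, h.isEvol hL⟩

lemma Good.evol_eq (h : Good ω) {ζ : ℝ → ℤ → ℕ} (hζ : IsEvol A ω ζ) {t : ℝ} (ht : 0 ≤ t)
    {L : List Lab} (hL : Enum A ω t L) : ζ t = run A ω L := by
  choose L' hL' using h.exists_enum A
  rw [hζ.unique h.noTie (h.isEvol hL') ht]
  rw [list_unique (hL' t).1 hL.1 fun l => by rw [(hL' t).2, hL.2]]

/-- Measurable version of: the system in `A` has more than `k` particles at `x` at time `t`. -/
def LtA (A : Finset ℤ) (t : ℝ) (x : ℤ) (k : ℕ) : Set Omega :=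
  {ω | ∃ L, Enum A ω t L ∧ k < run A ω L x}

lemma Good.ltA_iff (h : Good ω) {t : ℝ} (ht : 0 ≤ t) {x : ℤ} {k : ℕ} :
    ω ∈ LtA A t x k ↔ ∃ ζ, IsEvol A ω ζ ∧ k < ζ t x := by
  constructor
  · rintro ⟨L, h1, h2⟩
    obtain ⟨ζ, hζ⟩ := h.exists_evol A
    exact ⟨ζ, hζ, by rw [h.evol_eq hζ ht h1]; exact h2⟩
  · rintro ⟨ζ, hζ, h2⟩
    obtain ⟨L, hL⟩ := h.exists_enum A t
    exact ⟨L, hL, by rw [← h.evol_eq hζ ht hL]; exact h2⟩

lemma lt_eta_iff {t : ℝ} {x : ℤ} {k : ℕ} :
    (k : ℕ∞) < eta ω t x ↔ ∃ A ζ, IsEvol A ω ζ ∧ k < ζ t x := by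
  simp only [eta, lt_iSup_iff, Nat.cast_lt, exists_prop]

lemma eta_le_iff {t : ℝ} {x : ℤ} {k : ℕ} :
    eta ω t x ≤ k ↔ ∀ A ζ, IsEvol A ω ζ → ζ t x ≤ k := by
  simp only [eta, iSup_le_iff, Nat.cast_le]

/-- Measurable version of `k < eta`. -/
def LtE (t : ℝ) (x : ℤ) (k : ℕ) : Set Omega := ⋃ A, LtA A t x k

lemma Good.ltE_iff (h : Good ω) {t : ℝ} (ht : 0 ≤ t) {x : ℤ} {k : ℕ} :
    ω ∈ LtE t x k ↔ (k : ℕ∞) < eta ω t x := by
  simp only [LtE, mem_iUnion, h.ltA_iff ht, lt_eta_iff]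

lemma measurable_cnt (i : Idx) : Measurable fun ω : Omega => (ω i).1 :=
  measurable_fst.comp (measurable_pi_apply i)

lemma measurable_pos (i : Idx) (j : ℕ) : Measurable fun ω : Omega => (ω i).2 j :=
  (measurable_pi_apply j).comp (measurable_snd.comp (measurable_pi_apply i))

lemma measurable_tm (l : Lab) : Measurable fun ω : Omega => tm ω l :=
  (measurable_pos _ _).const_add _

lemma measurable_mass (A : Finset ℤ) : Measurable (mass A) :=
  Finset.measurable_sum _ fun _ _ => measurable_cnt _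

lemma measurable_app (A : Finset ℤ) (l : Lab) : Measurable fun ξ : ℤ → ℕ => app A ξ l := by
  refine Measurable.ite ?_ ?_ measurable_id
  · exact measurableSet_lt measurable_const (measurable_pi_apply _)
  · refine measurable_pi_lambda _ fun z => ?_
    exact (measurable_of_countable (fun n : ℕ => n - (if z = l.1 then 1 else 0) +
      (if z = nb l.1 l.2.2.1 ∧ nb l.1 l.2.2.1 ∈ A then 1 else 0))).comp (measurable_pi_apply z)

lemma measurable_run (A : Finset ℤ) (L : List Lab) : Measurable fun ω => run A ω L := by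
  induction L using List.reverseRecOn with
  | nil =>
    refine measurable_pi_lambda _ fun z => ?_
    by_cases hz : z ∈ A
    · simpa [run, init, hz] using measurable_cnt _
    · simp [run, init, hz]
  | append_singleton L l ih =>
    have h1 : (fun ω => run A ω (L ++ [l])) = fun ω => app A (run A ω L) l := by
      ext1 ω; simp [run]
    rw [h1]
    exact (measurable_app A l).comp ih

lemma measurableSet_enum (A : Finset ℤ) (t : ℝ) (L : List Lab) :
    MeasurableSet {ω | Enum A ω t L} := by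
  rw [measurableSet_setOfPred]
  refine Measurable.and ?_ (Measurable.forall fun l => Measurable.iff measurable_const ?_)
  · simp only [List.pairwise_iff_getElem]
    refine Measurable.forall fun i => Measurable.forall fun j => Measurable.forall fun _ =>
      Measurable.forall fun _ => Measurable.forall fun _ => ?_
    exact measurableSet_setOfPred.1 (measurableSet_lt (measurable_tm _) (measurable_tm _))
  · refine Measurable.and (Measurable.and measurable_const (Measurable.and ?_ ?_))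
      (Measurable.and measurable_const ?_)
    · exact measurableSet_setOfPred.1 (measurableSet_lt measurable_const (measurable_mass A))
    · exact measurableSet_setOfPred.1 (measurableSet_lt measurable_const (measurable_cnt _))
    · exact measurableSet_setOfPred.1 (measurableSet_le (measurable_tm _) measurable_const)

lemma measurableSet_ltA (A : Finset ℤ) (t : ℝ) (x : ℤ) (k : ℕ) : MeasurableSet (LtA A t x k) := by
  have : LtA A t x k = ⋃ L : List Lab, {ω | Enum A ω t L} ∩ {ω | k < run A ω L x} := by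
    ext ω; simp [LtA]
  rw [this]
  refine MeasurableSet.iUnion fun L => (measurableSet_enum A t L).inter ?_
  exact measurableSet_lt measurable_const ((measurable_pi_apply x).comp (measurable_run A L))

lemma measurableSet_ltE (t : ℝ) (x : ℤ) (k : ℕ) : MeasurableSet (LtE t x k) :=
  MeasurableSet.iUnion fun A => measurableSet_ltA A t x k

/-- Cells that are used up to time `N`. -/
def Past (N : ℕ) : Set Idx := {i | ∀ c n, i.2 = some (c, n) → n < N}

lemma ltA_dep {A : Finset ℤ} {N : ℕ} {x : ℤ} {k : ℕ} {ω ω' : Omega}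
    (h : ∀ i ∈ Past N, ω i = ω' i) (h1 : ω ∈ LtA A N x k) : ω' ∈ LtA A N x k := by
  obtain ⟨L, ⟨h2, h3⟩, h4⟩ := h1
  have h5 : ∀ y, ω (y, none) = ω' (y, none) := fun y => h _ (by simp [Past])
  have h6 : mass A ω = mass A ω' := Finset.sum_congr rfl fun y _ => by rw [h5]
  have h7 : init A ω = init A ω' := by ext y; simp [init, h5]
  have h8 : ∀ l : Lab, (l.2.2.2.1 : ℝ) < N → ω (idx l) = ω' (idx l) := fun l hl =>
    h _ fun c n h9 => by
      simp only [idx, Option.some.injEq, Prod.mk.injEq] at h9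
      rw [← h9.2]; exact_mod_cast hl
  have h9 : ∀ l, Rel A ω N l ↔ Rel A ω' N l := by
    intro l
    by_cases hl : (l.2.2.2.1 : ℝ) < N
    · simp only [Rel, Rel0, tm, h6, h8 l hl]
    · simp only [Rel, hl, false_and, and_false]
  refine ⟨L, ⟨?_, fun l => by rw [h3, h9]⟩, by simpa only [run, h7] using h4⟩
  refine h2.imp_of_mem fun {a b} ha hb hab => ?_
  simpa only [tm, h8 a ((h3 a).1 ha).2.1, h8 b ((h3 b).1 hb).2.1] using hab

lemma ltE_dep {N : ℕ} {x : ℤ} {k : ℕ} {ω ω' : Omega}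
    (h : ∀ i ∈ Past N, ω i = ω' i) (h1 : ω ∈ LtE N x k) : ω' ∈ LtE N x k := by
  obtain ⟨A, hA⟩ := mem_iUnion.1 h1
  exact mem_iUnion.2 ⟨A, ltA_dep h hA⟩

end Pool.Agent.Lib.MP_dd0771_pr
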