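import Pool.Agent.Lib.MP_dd0771_pr.Path

open MeasureTheory ProbabilityTheory Set Filter Topology
open scoped NNReal ENNReal

namespace Pool.Agent.Lib.MP_dd0771_pr

variable {ω : Omega} {A B : Finset ℤ} {ζ ζ' : ℝ → ℤ → ℕ}

lemma nb_ne (x : ℤ) (e : Bool) : nb x e ≠ x := by
  rcases nb_cases x e with h | h <;> omega

lemma IsEvol.ind (h : IsEvol A ω ζ) {P : ℝ → (ℤ → ℕ) → Prop} {s b : ℝ} (hs : 0 ≤ s)
    (h0 : P s (ζ s)) (hr : ∀ t ∈ Ico s b, ∀ ξ, P t ξ → ∀ᶠ u in 𝓝[>] t, P u ξ)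
    (hl : ∀ t ∈ Ioc s b, ∀ ξ, (∀ᶠ u in 𝓝[<] t, P u ξ ∧ ζ u = ξ ∧ u ∈ Ico s t) →
      Step A ω t ξ (ζ t) → P t (ζ t)) : ∀ t ∈ Icc s b, P t (ζ t) := by
  refine real_ind (P := fun t => P t (ζ t)) h0 (fun t ht hP => ?_) (fun t ht hP => ?_)
  · filter_upwards [hr t ht _ hP, h.2.1 t (hs.trans ht.1)] with u h1 h2
    rw [h2]; exact h1
  · obtain ⟨ξ, h1, h2⟩ := h.2.2 t (hs.trans_lt ht.1)
    refine hl t ht ξ ?_ h2
    filter_upwards [hP, h1] with u h3 h4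
    exact ⟨h4 ▸ h3.1, h4, h3.2⟩

lemma IsEvol.inv (h : IsEvol A ω ζ) {P : (ℤ → ℕ) → Prop} {s b : ℝ} (hs : 0 ≤ s)
    (h0 : P (ζ s))
    (hl : ∀ t ∈ Ioc s b, ∀ ξ, P ξ → (∃ u ∈ Ico s t, ζ u = ξ) → ∀ x k e,
      t ∈ pts ω x (some (k, e)) → k < ξ x → P (move A ξ x (nb x e))) :
    ∀ t ∈ Icc s b, P (ζ t) := by
  refine h.ind (P := fun _ ξ => P ξ) hs h0 (fun t _ ξ hP => Eventually.of_forall fun _ => hP) ?_
  intro t ht ξ h1 h2
  obtain ⟨u, h3, h4, h5⟩ := h1.exists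
  rcases h2 with ⟨-, h2⟩ | ⟨x, k, e, h6, h7, h2⟩
  · rw [h2]; exact h3
  · rw [h2]; exact hl t ht ξ h3 ⟨u, h5, h4⟩ x k e h6 h7

lemma IsEvol.supp (h : IsEvol A ω ζ) {t : ℝ} (ht : 0 ≤ t) : ∀ x, x ∉ A → ζ t x = 0 := by
  refine h.inv (P := fun ξ => ∀ x, x ∉ A → ξ x = 0) le_rfl (fun x hx => by simp [h.1, hx]) ?_
    t ⟨ht, le_rfl⟩
  intro t _ ξ hP _ x k e _ _ z hz
  have : ¬ (z = nb x e ∧ nb x e ∈ A) := fun h => hz (h.1 ▸ h.2)
  simp [move, hP z hz, this]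

lemma IsEvol.mono (hT : NoTie ω) (hAB : A ⊆ B) (h : IsEvol A ω ζ) (h' : IsEvol B ω ζ') {t : ℝ}
    (ht : 0 ≤ t) : ∀ x, ζ t x ≤ ζ' t x := by
  refine real_ind (P := fun t => ∀ x, ζ t x ≤ ζ' t x) (a := 0) (b := t) ?_ ?_ ?_ t ⟨ht, le_rfl⟩
  · intro x
    rw [h.1, h'.1]
    by_cases hx : x ∈ A
    · simp [hx, hAB hx]
    · simp [hx]
  · intro s hs hP
    filter_upwards [h.2.1 s hs.1, h'.2.1 s hs.1] with u h1 h2
    rw [h1, h2]; exact hP
  · intro s hs hP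
    obtain ⟨ξ, h1, h2⟩ := h.2.2 s hs.1
    obtain ⟨ξ', h1', h2'⟩ := h'.2.2 s hs.1
    obtain ⟨u, ⟨h3, -⟩, h4, h5⟩ := (hP.and (h1.and h1')).exists
    rw [h4, h5] at h3
    intro z
    have hz := h3 z
    rcases h2 with ⟨h6, h2⟩ | ⟨x, k, e, h6, h7, h2⟩
    · rcases h2' with ⟨-, h2'⟩ | ⟨x', k', e', h6', h7', h2'⟩
      · rw [h2, h2']; exact hz
      · rw [h2, h2']
        have := h6 x' k' e' h6'
        simp only [move]
        by_cases h8 : z = x'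
        · subst h8; simp only [if_true]; omega
        · simp only [h8, if_false]; omega
    · rcases h2' with ⟨h6', -⟩ | ⟨x', k', e', h6', h7', h2'⟩
      · have := h6' x k e h6
        have := h3 x
        omega
      · obtain ⟨rfl, rfl, rfl⟩ := hT _ _ _ _ _ _ _ h6 h6'
        rw [h2, h2']
        simp only [move]
        by_cases h8 : z = nb x e ∧ nb x e ∈ A
        · have h9 : z = nb x e ∧ nb x e ∈ B := ⟨h8.1, hAB h8.2⟩
          rw [if_pos h8, if_pos h9]; omega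
        · rw [if_neg h8]; omega

lemma IsEvol.unique (hT : NoTie ω) (h : IsEvol A ω ζ) (h' : IsEvol A ω ζ') {t : ℝ}
    (ht : 0 ≤ t) : ζ t = ζ' t :=
  funext fun x => le_antisymm (h.mono hT subset_rfl h' ht x) (h'.mono hT subset_rfl h ht x)

/-- Initial mass in `A`. -/
def mass (A : Finset ℤ) (ω : Omega) : ℕ := ∑ x ∈ A, (ω (x, none)).1

lemma sum_move_le {ξ : ℤ → ℕ} {x : ℤ} (hx : x ∈ A) (h : 0 < ξ x) (y : ℤ) :
    ∑ z ∈ A, move A ξ x y z ≤ ∑ z ∈ A, ξ z := by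
  simp only [move, Finset.sum_add_distrib]
  have h1 : ∑ z ∈ A, (if z = y ∧ y ∈ A then 1 else 0) ≤ 1 := by
    calc ∑ z ∈ A, (if z = y ∧ y ∈ A then 1 else 0) ≤ ∑ z ∈ A, (if z = y then 1 else 0) := by
          refine Finset.sum_le_sum fun z _ => ?_
          by_cases h2 : z = y
          · simp only [h2, true_and, if_true]; split_ifs <;> omega
          · simp [h2]
      _ ≤ 1 := by rw [Finset.sum_ite_eq']; split_ifs <;> omega
  have h2 : ∑ z ∈ A, (ξ z - if z = x then 1 else 0) + 1 = ∑ z ∈ A, ξ z := by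
    have h3 : ∑ z ∈ A, (if z = x then 1 else 0) = 1 := by rw [Finset.sum_ite_eq']; simp [hx]
    rw [← h3, ← Finset.sum_add_distrib]
    refine Finset.sum_congr rfl fun z _ => ?_
    by_cases h4 : z = x
    · subst h4; simp only [if_true]; omega
    · simp [h4]
  omega

lemma IsEvol.sum_le (h : IsEvol A ω ζ) {t : ℝ} (ht : 0 ≤ t) : ∑ z ∈ A, ζ t z ≤ mass A ω := by
  refine h.inv (P := fun ξ => ∑ z ∈ A, ξ z ≤ mass A ω) le_rfl ?_ ?_ t ⟨ht, le_rfl⟩
  · refine le_of_eq (Finset.sum_congr rfl fun z hz => by simp [h.1, hz])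
  · intro t _ ξ hP ⟨u, hu, hu'⟩ x k e _ hk
    have hx : x ∈ A := by
      by_contra hx
      have := h.supp hu.1 x hx
      rw [hu'] at this; omega
    exact (sum_move_le hx (by omega) _).trans hP

lemma IsEvol.le_mass (h : IsEvol A ω ζ) {t : ℝ} (ht : 0 ≤ t) (x : ℤ) : ζ t x ≤ mass A ω := by
  by_cases hx : x ∈ A
  · exact (Finset.single_le_sum (f := ζ t) (fun _ _ => Nat.zero_le _) hx).trans (h.sum_le ht)
  · rw [h.supp ht x hx]; exact Nat.zero_le _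

/-- Ring times at `y` of the clocks of level below `H`. -/
def rings (ω : Omega) (y : ℤ) (H : ℕ) : Set ℝ := {t | ∃ k < H, ∃ e, t ∈ pts ω y (some (k, e))}

lemma IsEvol.const (h : IsEvol A ω ζ) {s b : ℝ} (hs : 0 ≤ s) {x : ℤ} {H : ℕ}
    (hH : ∀ v ∈ Ico s b, ∀ y, |y - x| ≤ 1 → ζ v y ≤ H)
    (hr : ∀ v ∈ Ioc s b, ∀ y, |y - x| ≤ 1 → v ∉ rings ω y H) :
    ∀ v ∈ Icc s b, ζ v x = ζ s x := by
  refine h.inv (P := fun ξ => ξ x = ζ s x) hs rfl ?_
  intro t ht ξ hP ⟨u, hu, hu'⟩ y k e h1 hk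
  have h2 : ¬ |y - x| ≤ 1 := fun h2 => by
    have := hH u ⟨hu.1, hu.2.trans_le ht.2⟩ y h2
    rw [hu'] at this
    exact hr t ht y h2 ⟨k, by omega, e, h1⟩
  rw [abs_le] at h2
  have h3 : x ≠ y := by omega
  have h4 : x ≠ nb y e := by rcases nb_cases y e with h | h <;> omega
  simp [move, h3, h4, hP]

lemma IsEvol.env (h : IsEvol A ω ζ) {s b : ℝ} (hs : 0 ≤ s) {h0 H R : ℤ → ℕ}
    (h1 : ∀ y, ζ s y ≤ h0 y) (h2 : ∀ y, (rings ω y (H y) ∩ Ioc s b).encard ≤ R y)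
    (h3 : ∀ y, h0 y + R (y - 1) + R (y + 1) ≤ H y) : ∀ v ∈ Icc s b, ∀ y, ζ v y ≤ H y := by
  set c : ℤ → ℝ → ℕ∞ := fun y v => (rings ω y (H y) ∩ Ioc s v).encard with hc
  have cm : ∀ y u v, u ≤ v → c y u ≤ c y v := fun y u v huv =>
    encard_le_encard (inter_subset_inter_right _ (Ioc_subset_Ioc_right huv))
  have fin : ∀ v, v ≤ b → ∀ ξ : ℤ → ℕ, (∀ y, (ξ y : ℕ∞) ≤ h0 y + c (y - 1) v + c (y + 1) v) →
      ∀ y, ξ y ≤ H y := by
    intro v hv ξ hξ y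
    have h4 : (ξ y : ℕ∞) ≤ h0 y + R (y - 1) + R (y + 1) :=
      (hξ y).trans (add_le_add (add_le_add le_rfl ((cm _ _ _ hv).trans (h2 _)))
        ((cm _ _ _ hv).trans (h2 _)))
    have h5 : ξ y ≤ h0 y + R (y - 1) + R (y + 1) := by exact_mod_cast h4
    exact h5.trans (h3 y)
  have key := h.ind (P := fun v ξ => ∀ y, (ξ y : ℕ∞) ≤ h0 y + c (y - 1) v + c (y + 1) v)
    (s := s) (b := b) hs ?_ ?_ ?_
  · exact fun v hv => fin v hv.2 _ (key v hv)
  · intro y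
    exact le_add_right (le_add_right (by exact_mod_cast h1 y))
  · intro t _ ξ hP
    filter_upwards [self_mem_nhdsWithin] with u hu y
    exact (hP y).trans (add_le_add (add_le_add le_rfl (cm _ _ _ (le_of_lt hu)))
      (cm _ _ _ (le_of_lt hu)))
  · intro t ht ξ h4 h5 y
    obtain ⟨u, h6, -, h7⟩ := h4.exists
    have h8 : (ξ y : ℕ∞) ≤ h0 y + c (y - 1) t + c (y + 1) t :=
      (h6 y).trans (add_le_add (add_le_add le_rfl (cm _ _ _ h7.2.le)) (cm _ _ _ h7.2.le))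
    rcases h5 with ⟨-, h5⟩ | ⟨x, k, e, h9, hk, h5⟩
    · rw [h5]; exact h8
    · rw [h5]
      by_cases h10 : y = nb x e
      · have h11 : t ∈ rings ω x (H x) :=
          ⟨k, hk.trans_le (fin u (h7.2.le.trans ht.2) ξ h6 x), e, h9⟩
        have h12 : c x u + 1 ≤ c x t := by
          have h13 : t ∉ rings ω x (H x) ∩ Ioc s u := fun h => absurd h.2.2 (not_le.2 h7.2)
          simp only [hc]
          rw [← encard_insert_of_notMem h13]
          refine encard_le_encard (insert_subset ⟨h11, ht.1, le_rfl⟩ ?_)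
          exact inter_subset_inter_right _ (Ioc_subset_Ioc_right h7.2.le)
        have h14 : move A ξ x (nb x e) y ≤ ξ y + 1 := by
          simp only [move]; split_ifs <;> omega
        have h15 : ((move A ξ x (nb x e) y : ℕ) : ℕ∞) ≤ (ξ y : ℕ∞) + 1 := by exact_mod_cast h14
        refine h15.trans ((add_le_add (h6 y) le_rfl).trans ?_)
        rcases nb_cases x e with h16 | h16
        · have h17 : y - 1 = x := by omega
          rw [h17, add_right_comm, add_assoc (h0 y : ℕ∞)]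
          exact add_le_add (add_le_add le_rfl h12) (cm _ _ _ h7.2.le)
        · have h17 : y + 1 = x := by omega
          rw [h17, add_assoc]
          exact add_le_add (add_le_add le_rfl (cm _ _ _ h7.2.le)) h12
      · have h14 : move A ξ x (nb x e) y ≤ ξ y := by
          simp only [move, h10, false_and, if_false]; omega
        exact le_trans (by exact_mod_cast h14) h8

lemma ev_right_notMem {T : Set ℝ} (hT : T.Finite) (t : ℝ) : ∀ᶠ u in 𝓝[>] t, ∀ v ∈ Ioc t u, v ∉ T := by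
  have h1 : (T \ {t})ᶜ ∈ 𝓝 t := (hT.subset sdiff_subset).isClosed.isOpen_compl.mem_nhds (by simp)
  obtain ⟨d, hd, hsub⟩ := mem_nhdsGT_iff_exists_Ioo_subset.1 (mem_nhdsWithin_of_mem_nhds h1)
  filter_upwards [Ioo_mem_nhdsGT hd] with u hu v hv hvT
  exact hsub ⟨hv.1, hv.2.trans_lt hu.2⟩ ⟨hvT, hv.1.ne'⟩

lemma ev_left_notMem {T : Set ℝ} (hT : T.Finite) (t : ℝ) : ∀ᶠ u in 𝓝[<] t, ∀ v ∈ Ico u t, v ∉ T := by
  have h1 : (T \ {t})ᶜ ∈ 𝓝 t := (hT.subset sdiff_subset).isClosed.isOpen_compl.mem_nhds (by simp)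
  obtain ⟨d, hd, hsub⟩ := mem_nhdsLT_iff_exists_Ioo_subset.1 (mem_nhdsWithin_of_mem_nhds h1)
  filter_upwards [Ioo_mem_nhdsLT hd] with u hu v hv hvT
  exact hsub ⟨hu.1.trans_le hv.1, hv.2⟩ ⟨hvT, hv.2.ne⟩

lemma IsEvol.sweep (hT : NoTie ω) (h : IsEvol A ω ζ) {s b : ℝ} (hs : 0 ≤ s) (hsb : s ≤ b)
    {a c : ℤ} (hac : a ≤ c) (h0 : ∀ y ∈ Ico a c, ζ s y = 0)
    (hfin : (pts ω c (some (0, true)) ∩ Ioc s b).Finite)
    (h1 : (ζ s c : ℕ∞) ≤ (pts ω c (some (0, true)) ∩ Ioc s b).encard)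
    (h2 : ∀ t ∈ Ioc s b, ∀ u ∈ Ico s t, ∀ x k e, t ∈ pts ω x (some (k, e)) → k < ζ u x →
      x ∈ Icc (a - 1) (c + 1) → x = c ∧ k = 0 ∧ e = true) :
    ∀ y ∈ Icc a c, ζ b y = 0 := by
  set T := pts ω c (some (0, true)) with hTdef
  have key := h.ind (P := fun v ξ => (∀ y ∈ Ico a c, ξ y = 0) ∧ (ξ c : ℕ∞) ≤ (T ∩ Ioc v b).encard)
    (s := s) (b := b) hs ⟨h0, h1⟩ ?_ ?_
  · obtain ⟨h3, h4⟩ := key b ⟨hsb, le_rfl⟩
    intro y hy
    rcases hy.2.eq_or_lt with h5 | h5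
    · rw [h5]; simpa using h4
    · exact h3 y ⟨hy.1, h5⟩
  · intro t ht ξ hP
    filter_upwards [ev_right_notMem hfin t] with u hu
    refine ⟨hP.1, hP.2.trans (encard_le_encard fun v hv => ⟨hv.1, ?_, hv.2.2⟩)⟩
    by_contra h3
    exact hu v ⟨hv.2.1, not_lt.1 h3⟩ ⟨hv.1, ht.1.trans_lt hv.2.1, hv.2.2⟩
  · intro t ht ξ h3 h4
    obtain ⟨u, ⟨⟨h5, h6⟩, h7, h8⟩, h9⟩ := (h3.and (ev_left_notMem hfin t)).exists
    have hsub : T ∩ Ioc u b ⊆ insert t (T ∩ Ioc t b) := by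
      intro v hv
      rcases lt_trichotomy v t with h10 | h10 | h10
      · exact absurd ⟨hv.1, h8.1.trans_lt hv.2.1, hv.2.2⟩ (h9 v ⟨hv.2.1.le, h10⟩)
      · exact Or.inl h10
      · exact Or.inr ⟨hv.1, h10, hv.2.2⟩
    have hsub' : t ∉ T → T ∩ Ioc u b ⊆ T ∩ Ioc t b := fun h10 v hv => by
      rcases hsub hv with h11 | h11
      · exact absurd (h11 ▸ hv.1) h10
      · exact h11
    rcases h4 with ⟨h10, h4⟩ | ⟨x, k, e, h10, hk, h4⟩
    · rw [h4]
      refine ⟨h5, ?_⟩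
      by_cases h11 : t ∈ T
      · have := h10 c 0 true h11
        have h12 : ξ c = 0 := by omega
        simp [h12]
      · exact h6.trans (encard_le_encard (hsub' h11))
    · rw [h4]
      by_cases h11 : x ∈ Icc (a - 1) (c + 1)
      · obtain ⟨rfl, rfl, rfl⟩ := h2 t ht u h8 x k e h10 (by rw [h7]; exact hk) h11
        refine ⟨fun y hy => ?_, ?_⟩
        · have h12 : y ≠ x := hy.2.ne
          have h13 : y ≠ nb x true := by have := hy.2; simp only [nb, if_true]; omega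
          simp [move, h12, h13, h5 y hy]
        · have h12 : x ≠ nb x true := (nb_ne x true).symm
          have h13 : move A ξ x (nb x true) x + 1 = ξ x := by
            simp only [move, h12, false_and, if_false, if_true]; omega
          have h14 : ((move A ξ x (nb x true) x : ℕ) : ℕ∞) + 1 ≤ (T ∩ Ioc t b).encard + 1 := by
            have h15 : ((move A ξ x (nb x true) x : ℕ) : ℕ∞) + 1 = ξ x := by exact_mod_cast h13
            rw [h15]
            exact h6.trans ((encard_le_encard hsub).trans (encard_insert_le _ _))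
          exact (WithTop.add_le_add_iff_right ENat.one_ne_top).1 h14
      · have h12 : ∀ y ∈ Icc a c, move A ξ x (nb x e) y = ξ y := by
          intro y hy
          rw [mem_Icc] at h11 hy
          have h13 : y ≠ x := by omega
          have h14 : y ≠ nb x e := by rcases nb_cases x e with h | h <;> omega
          simp [move, h13, h14]
        have h13 : t ∉ T := fun h13 => by
          have := (hT _ _ _ _ _ _ _ h10 h13).1
          rw [mem_Icc] at h11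
          omega
        refine ⟨fun y hy => ?_, ?_⟩
        · rw [h12 y ⟨hy.1, hy.2.le⟩]; exact h5 y hy
        · rw [h12 c ⟨hac, le_rfl⟩]; exact h6.trans (encard_le_encard (hsub' h13))

end Pool.Agent.Lib.MP_dd0771_pr
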