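import Pool.Agent.Lib.MP_dd0771_pr.Prob2

open MeasureTheory ProbabilityTheory Set Filter Topology
open scoped NNReal ENNReal

namespace Pool.Agent.Lib.MP_dd0771_pr

lemma exists_small {c ε : ℝ≥0∞} (hc : c ≠ ⊤) (hε : 0 < ε) :
    ∃ N : ℕ, ∀ M : ℕ, N ≤ M → c * (M : ℝ≥0∞)⁻¹ < ε := by
  have h := ENNReal.Tendsto.const_mul (a := c) ENNReal.tendsto_inv_nat_nhds_zero (Or.inr hc)
  rw [mul_zero] at h
  exact eventually_atTop.1 (h.eventually (gt_mem_nhds hε))

/-- The favourable event in window `n`. -/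
def Gn (M r : ℕ) (a : ℤ) (n : ℕ) : Set Omega := Vn M n ∩ win n ⁻¹' Zw M r a

lemma measurableSet_gn (M r : ℕ) (a : ℤ) (n : ℕ) : MeasurableSet (Gn M r a n) :=
  (measurableSet_vn M n).inter (measurable_win n (measurableSet_zw M r a))

lemma vn_dep (M n : ℕ) : DepOn (Vn M n) (Past n) := fun _ _ h h1 =>
  mem_iInter.2 fun y h2 => mem_iInter.1 h1 y (ltE_dep (fun i hi => (h i hi).symm) h2)

lemma win_dep (n : ℕ) (Z : Set Win) : DepOn (win n ⁻¹' Z) {i | ∃ c, i.2 = some (c, n)} := by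
  intro ω ω' h h1
  have : win n ω = win n ω' := funext fun q => h _ ⟨_, rfl⟩
  rwa [mem_preimage, ← this]

lemma past_mono {m n : ℕ} (h : m ≤ n) : Past m ⊆ Past n := fun _ hi c k h1 =>
  (hi c k h1).trans_le h

lemma gn_dep (M r : ℕ) (a : ℤ) (n : ℕ) : DepOn (Gn M r a n) (Past (n + 1)) := by
  refine ((vn_dep M n).mono (past_mono n.le_succ)).inter ((win_dep n _).mono ?_)
  rintro i ⟨c, hc⟩ c' k h
  rw [hc] at h
  simp only [Option.some.injEq, Prod.mk.injEq] at h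
  omega

variable (ν : Measure ℕ) [IsProbabilityMeasure ν] {g : ℕ → ℝ} (δ : ℝ≥0∞)

lemma indep_win {n : ℕ} {E : Set Omega} (hE : MeasurableSet E) (dE : DepOn E (Past n))
    {Z : Set Win} (hZ : MeasurableSet Z) :
    law ν g δ (E ∩ win n ⁻¹' Z) = law ν g δ E * wlaw g δ Z := by
  rw [← (mp_win ν g δ n).measure_preimage hZ.nullMeasurableSet]
  refine measure_inter_of_depOn _ hE (measurable_win n hZ) dE (win_dep n Z) ?_
  rw [Set.disjoint_left]
  rintro i h1 ⟨c, hc⟩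
  exact lt_irrefl _ (h1 c n hc)

lemma never_le {M r : ℕ} {a : ℤ} (hZ : wlaw g δ (Zw M r a) ≠ 0) {ε : ℝ}
    (hV : ∀ n, (law ν g δ).real (Vn M n)ᶜ ≤ ε) (s : ℕ) :
    (law ν g δ).real (⋂ k, (Gn M r a (s + k))ᶜ) ≤ ε := by
  set μ := law ν g δ with hμ
  set D : ℕ → Set Omega := fun N => ⋂ k ∈ Finset.range N, (Gn M r a (s + k))ᶜ with hD
  set c := (wlaw g δ).real (Zw M r a) with hc
  have hc0 : 0 < c := ENNReal.toReal_pos hZ (measure_ne_top _ _)
  have hDm : ∀ N, MeasurableSet (D N) := fun N =>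
    Finset.measurableSet_biInter _ fun k _ => (measurableSet_gn M r a _).compl
  have hDd : ∀ N, DepOn (D N) (Past (s + N)) := fun N ω ω' h h1 =>
    mem_iInter₂.2 fun k hk => ((gn_dep M r a (s + k)).compl.mono
      (past_mono (by have := Finset.mem_range.1 hk; omega))) ω ω' h (mem_iInter₂.1 h1 k hk)
  set d := μ.real (⋂ k, (Gn M r a (s + k))ᶜ) with hd
  by_contra hcon
  push Not at hcon
  have step : ∀ N, μ.real (D (N + 1)) ≤ μ.real (D N) - c * (d - ε) := by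
    intro N
    have h1 : D (N + 1) = D N \ Gn M r a (s + N) := by
      simp only [hD, Finset.range_add_one, Finset.set_biInter_insert, inter_comm, sdiff_eq]
    have h2 := measureReal_inter_add_sdiff (μ := μ) (s := D N) (measurableSet_gn M r a (s + N))
    have h3 : μ.real (D N ∩ Gn M r a (s + N)) = μ.real (D N ∩ Vn M (s + N)) * c := by
      rw [Gn, ← inter_assoc, Measure.real, indep_win ν δ ((hDm N).inter (measurableSet_vn _ _))
        ((hDd N).inter (vn_dep _ _)) (measurableSet_zw M r a), ENNReal.toReal_mul]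
      rfl
    have h4 : d ≤ μ.real (D N ∩ Vn M (s + N)) + μ.real (Vn M (s + N))ᶜ := by
      refine le_trans (measureReal_mono fun ω hω => ?_) (measureReal_union_le _ _)
      by_cases h5 : ω ∈ Vn M (s + N)
      · exact Or.inl ⟨mem_iInter₂.2 fun k _ => mem_iInter.1 hω k, h5⟩
      · exact Or.inr h5
    have h5 := hV (s + N)
    rw [h1]
    nlinarith
  have iter : ∀ N : ℕ, μ.real (D N) ≤ 1 - N * (c * (d - ε)) := by
    intro N
    induction N with
    | zero => simp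
    | succ N ih => have := step N; push_cast; linarith
  have h0 : 0 < c * (d - ε) := mul_pos hc0 (by linarith)
  obtain ⟨N, hN⟩ := exists_nat_gt (1 / (c * (d - ε)))
  rw [div_lt_iff₀ h0] at hN
  have := iter N
  have : 0 ≤ μ.real (D N) := measureReal_nonneg
  linarith

variable {Γ : ℝ} (hΓ : ∀ k, g (k + 1) - g k ≤ Γ) (hΓ0 : 0 ≤ Γ) (hg : g 0 < g 1)
  (hν : ∫⁻ n, (n : ℝ≥0∞) ∂ν ≠ ⊤)
include hΓ hΓ0 hν

lemma exists_level {r : ℕ} (hr : 48 * Γ ≤ r) (hr0 : 0 < r) {ε : ℝ≥0∞} (hε : 0 < ε) :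
    ∃ M : ℕ, (∀ n, law ν g δ (Vn M n)ᶜ < ε) ∧ ∀ S, wlaw g δ (Yout M r S)ᶜ < ε := by
  obtain ⟨N1, h1⟩ := exists_small (c := (2 * ∫⁻ n, (n : ℝ≥0∞) ∂ν) * C0)
    (ENNReal.mul_ne_top (ENNReal.mul_ne_top (by simp) hν) C0_ne_top) hε
  obtain ⟨N2, h2⟩ := exists_small (c := (r * 3) * C0)
    (ENNReal.mul_ne_top (ENNReal.mul_ne_top (by simp) (by simp)) C0_ne_top) hε
  exact ⟨N1 + N2 + 1, fun n => (vn_bound ν δ (by omega) n).trans_lt (h1 _ (by omega)),
    fun S => (yout_bound δ hΓ hΓ0 hr hr0 (by omega) S).trans_lt (h2 _ (by omega))⟩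

lemma ae_bdd : ∀ᵐ ω ∂law ν g δ, Good ω ∧ Bdd ω := by
  obtain ⟨r, hr⟩ := exists_nat_gt (48 * Γ)
  have hr0 : 0 < r := by exact_mod_cast (show (0 : ℝ) < r by linarith)
  have key : ∀ᵐ ω ∂law ν g δ, ∀ n : ℕ, ∃ M, ω ∈ Vn M n ∧ win n ω ∈ Yout M r ∅ := by
    rw [ae_all_iff]
    intro n
    rw [ae_iff]
    refine le_antisymm (ENNReal.le_of_forall_pos_le_add fun ε hε _ => ?_) zero_le
    obtain ⟨M, h1, h2⟩ := exists_level ν δ hΓ hΓ0 hν hr.le hr0 (ε := ε / 2)
      (ENNReal.half_pos (by simpa using hε.ne'))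
    have h3 : {ω | ¬ ∃ M, ω ∈ Vn M n ∧ win n ω ∈ Yout M r ∅} ⊆
        (Vn M n)ᶜ ∪ win n ⁻¹' (Yout M r ∅)ᶜ := by
      intro ω hω
      by_contra h4
      simp only [mem_union, mem_compl_iff, mem_preimage, not_or, not_not] at h4
      exact hω ⟨M, h4⟩
    refine (measure_mono h3).trans ((measure_union_le _ _).trans ?_)
    rw [(mp_win ν g δ n).measure_preimage (measurableSet_yout M r ∅).compl.nullMeasurableSet,
      zero_add, ← ENNReal.add_halves (ε : ℝ≥0∞)]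
    exact add_le_add (h1 n).le (h2 ∅).le
  filter_upwards [ae_good ν g δ, key] with ω h1 h2
  refine ⟨h1, bdd_of_windows fun n y => ?_⟩
  obtain ⟨M, h3, h4⟩ := h2 n
  exact h1.bdd_win hr0 h3 h4 y

include hg

lemma ae_empties : ∀ᵐ ω ∂law ν g δ, Empties ω := by
  simp only [Empties, ae_all_iff]
  intro a b N
  obtain ⟨r0, hr0⟩ := exists_nat_gt (48 * Γ)
  set r := r0 + (b - a).toNat + 1 with hr
  have hr1 : 48 * Γ ≤ r := hr0.le.trans (by exact_mod_cast (show r0 ≤ r by omega))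
  rw [ae_iff, ← measureReal_eq_zero_iff]
  refine le_antisymm (le_of_forall_pos_le_add fun ε hε => ?_) measureReal_nonneg
  obtain ⟨M, h1, h2⟩ := exists_level ν δ hΓ hΓ0 hν hr1 (by omega) (ε := min (ENNReal.ofReal ε) 1)
    (lt_min (ENNReal.ofReal_pos.2 hε) one_pos)
  have h3 := never_le ν δ (zw_ne_zero δ hg (a := a) ((h2 _).trans_le (min_le_right _ _))) (ε := ε)
    (fun n => ENNReal.toReal_le_of_le_ofReal hε.le ((h1 n).le.trans (min_le_left _ _))) N
  rw [zero_add]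
  refine le_trans (ENNReal.toReal_mono (measure_ne_top _ _) (measure_mono_ae ?_)) h3
  filter_upwards [ae_good ν g δ] with ω h4 h5
  refine mem_iInter.2 fun k h6 => h5 ⟨N + k + 1, by omega, fun x hx => ?_⟩
  exact special_empty h4 (by omega) h6.1 h6.2.2 h6.2.1 x ⟨hx.1, by have := hx.2; omega⟩

lemma ae_silent : ∀ᵐ ω ∂law ν g δ, Silent ω := by
  simp only [Silent]
  rw [ae_all_iff]
  intro n
  obtain ⟨r, hr⟩ := exists_nat_gt (48 * Γ)
  have hr0 : 0 < r := by exact_mod_cast (show (0 : ℝ) < r by linarith)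
  obtain ⟨M, h1, h2⟩ := exists_level ν δ hΓ hΓ0 hν hr.le hr0 one_pos
  have h3 : law ν g δ (Gn M r 1 n) ≠ 0 := by
    rw [Gn, indep_win ν δ (measurableSet_vn M n) (vn_dep M n) (measurableSet_zw M r 1)]
    refine mul_ne_zero (fun h4 => ?_) (zw_ne_zero δ hg (h2 _))
    have := h1 n
    rw [prob_compl_eq_one_sub (measurableSet_vn M n), h4] at this
    simp at this
  have h4 := recur ν g δ (p := fun ω => ω ∈ Gn M r 1 n) (NM.of_meas (measurableSet_gn M r 1 n))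
    fun h => h3 (measure_eq_zero_iff_ae_notMem.2 h)
  filter_upwards [h4, ae_good_shift ν g δ] with ω h5 h6 z
  obtain ⟨c, hc, h7⟩ := (h5 z).1
  refine ⟨c, hc, fun u hu y h8 => special_silent (h6 c) hr0 h7.1 h7.2.2 h7.2.1 u hu (y - c) ?_⟩
  rw [shift, jump_act (shift_nb c)]
  simpa using h8

theorem main : ∀ᵐ ω ∂law ν g δ, WellPosed ω ∧ (Survives δ ω → LocalSurvival δ ω) := by
  have hB := ae_bdd ν δ hΓ hΓ0 hν
  have hE := ae_empties ν δ hΓ hΓ0 hg hν
  have hS := ae_silent ν δ hΓ hΓ0 hg hν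
  have hrefl := (act_preserving ν g δ (Equiv.neg ℤ) Equiv.boolNot).quasiMeasurePreserving
  have key : ∀ᵐ ω ∂law ν g δ, Survives δ ω → LocalSurvival δ ω := by
    by_cases hU : ∀ᵐ ω ∂law ν g δ, ¬ Up δ ω 0
    · filter_upwards [hE, hU, hrefl.ae hU] with ω h1 h2 h3 h4
      rcases up_or_down h1 (fun n => h4 n (Nat.cast_nonneg n)) with h5 | h5
      · exact absurd h5 h2
      · exact absurd (up_refl h5) h3
    have hR : ∀ᵐ ω ∂law ν g δ, Reached δ ω := by
      filter_upwards [hS, recur ν g δ (nm_up hB 0) hU] with ω h1 h2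
      refine reached_of_up h1 fun N => ?_
      obtain ⟨z, h3, h4⟩ := (h2 N).1
      exact ⟨z, h3, up_shift h4⟩
    have hR' : ∀ᵐ ω ∂law ν g δ, ¬ EvR δ ω 0 := by
      by_contra h1
      have h2 : ¬ ∀ᵐ ω ∂law ν g δ, ¬ EvL δ ω 0 := fun h2 => h1 (by
        filter_upwards [hrefl.ae h2] with ω h3 h4 using h3 (evL_refl h4))
      have h3 : ∀ᵐ ω ∂law ν g δ, False := by
        filter_upwards [hB, hE, recur ν g δ (nm_evR hB 0) h1, recur ν g δ (nm_evL hB 0) h2]
          with ω h4 h5 h6 h7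
        obtain ⟨x, h8, h9⟩ := (h6 0).1
        obtain ⟨y, h10, h11⟩ := (h7 0).2
        exact not_evR_evL h4.1.noTie h5 (h8.trans h10) (evR_shift h9) (evL_shift h11)
      exact h1 (h3.mono fun _ h => h.elim)
    filter_upwards [hB, hR, hR', hrefl.ae hR'] with ω h1 h2 h3 h4 h5
    by_contra h6
    rcases evR_or_evL h1.1.noTie h2 h5 h6 with h7 | h7
    · exact h3 h7
    · exact h4 (evR_refl h7)
  filter_upwards [hB, key] with ω h1 h2 using ⟨wellPosed h1.1 h1.2, h2⟩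

end Pool.Agent.Lib.MP_dd0771_pr
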