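import Pool.Agent.Lib.MP_dd0771_pr.Reg

open MeasureTheory ProbabilityTheory Set Filter Topology
open scoped NNReal ENNReal

namespace Pool.Agent.Lib.MP_dd0771_pr

/-- The infection may sit at `y` at time `u`. -/
def Ok (δ : ℝ≥0∞) (ω : Omega) (u : ℝ) (y : ℤ) : Prop :=
  1 ≤ eta ω u y ∧ (eta ω u y = 1 → u ∉ marks δ ω y)

/-- The ring with label `l` is real and moves a particle. -/
def Eff (ω : Omega) (l : Lab) : Prop :=
  l.2.2.2.2 < (ω (idx l)).1 ∧ ∀ᶠ u in 𝓝[<] tm ω l, (l.2.1 : ℕ∞) < eta ω u l.1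

/-- Connection along a list of labels, latest first. -/
def ConnO (δ : ℝ≥0∞) (ω : Omega) (x : ℤ) : List Lab → ℝ → ℤ → Prop
  | [], t, y => y = x ∧ ∀ u ∈ Ico 0 t, Ok δ ω u y
  | l :: L, t, y => 0 < tm ω l ∧ tm ω l ≤ t ∧ Eff ω l ∧ y = nb l.1 l.2.2.1 ∧
      (∀ u ∈ Ico (tm ω l) t, Ok δ ω u y) ∧ ConnO δ ω x L (tm ω l) l.1

variable {δ : ℝ≥0∞} {ω : Omega}

lemma ConnO.extend {x y : ℤ} {L : List Lab} {s t : ℝ} (h : ConnO δ ω x L s y) (hst : s ≤ t)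
    (hok : ∀ u ∈ Ico s t, Ok δ ω u y) : ConnO δ ω x L t y := by
  cases L with
  | nil =>
    refine ⟨h.1, fun u hu => ?_⟩
    by_cases h1 : u < s
    · exact h.2 u ⟨hu.1, h1⟩
    · exact hok u ⟨not_lt.1 h1, hu.2⟩
  | cons l L =>
    obtain ⟨h1, h2, h3, h4, h5, h6⟩ := h
    refine ⟨h1, h2.trans hst, h3, h4, fun u hu => ?_, h6⟩
    by_cases h1 : u < s
    · exact h5 u ⟨hu.1, h1⟩
    · exact hok u ⟨not_lt.1 h1, hu.2⟩

lemma IsPath.connO {t : ℝ} {γ : ℝ → ℤ} (h : IsPath δ ω t γ) :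
    ∀ s ∈ Icc 0 t, ∃ L, ConnO δ ω (γ 0) L s (γ s) := by
  refine real_ind (P := fun s => ∃ L, ConnO δ ω (γ 0) L s (γ s)) ⟨[], rfl, by simp⟩ ?_ ?_
  · rintro s hs ⟨L, hL⟩
    obtain ⟨d, hd, hsub⟩ := mem_nhdsGT_iff_exists_Ioo_subset.1 (h.1 s hs)
    filter_upwards [Ioo_mem_nhdsGT hd, Ioo_mem_nhdsGT hs.2] with u h1 h2
    have h3 : γ u = γ s := hsub h1
    rw [h3]
    refine ⟨L, hL.extend h1.1.le fun v hv => ?_⟩
    have h4 : γ v = γ s := by
      rcases hv.1.eq_or_lt with h4 | h4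
      · rw [h4]
      · exact hsub ⟨h4, hv.2.trans h1.2⟩
    rw [← h4]
    exact h.2.2 v ⟨hs.1.trans hv.1, hv.2.le.trans h2.2.le⟩
  · intro s hs hP
    obtain ⟨z, hz, hz'⟩ := h.2.1 s hs
    obtain ⟨d, hd, hsub⟩ := mem_nhdsLT_iff_exists_Ioo_subset.1 hz
    obtain ⟨u, ⟨⟨L, hL⟩, h1⟩, h2⟩ := (hP.and (Ioo_mem_nhdsLT hd)).exists
    have h3 : γ u = z := hsub h2
    rw [h3] at hL
    have h4 : ConnO δ ω (γ 0) L s z := by
      refine hL.extend h1.2.le fun v hv => ?_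
      have h4 : γ v = z := hsub ⟨h2.1.trans_le hv.1, hv.2⟩
      rw [← h4]
      exact h.2.2 v ⟨h1.1.trans hv.1, hv.2.le.trans hs.2⟩
    by_cases h5 : γ s = z
    · exact ⟨L, by rw [h5]; exact h4⟩
    · obtain ⟨k, e, h6, h7, h8⟩ := hz' h5
      obtain ⟨n, j, h9, h10⟩ := mem_pts_iff.1 h6
      refine ⟨(z, k, e, n, j) :: L, ?_⟩
      simp only [ConnO, Eff, ← h10]
      exact ⟨hs.1, le_rfl, ⟨h9, h8⟩, h7, by simp, h4⟩

lemma ConnO.path (hT : NoTie ω) {x : ℤ} : ∀ (L : List Lab) (t : ℝ) (y : ℤ), ConnO δ ω x L t y →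
    ∃ γ : ℝ → ℤ, γ 0 = x ∧ γ t = y ∧ (∀ u ∈ Ico 0 t, ∀ᶠ v in 𝓝[>] u, γ v = γ u) ∧
      (∀ u ∈ Ioc 0 t, ∃ z, (∀ᶠ v in 𝓝[<] u, γ v = z) ∧ (γ u ≠ z → Jump ω u z (γ u))) ∧
      ∀ u ∈ Ico 0 t, Ok δ ω u (γ u) := by
  intro L
  induction L with
  | nil =>
    rintro t y ⟨rfl, h⟩
    exact ⟨fun _ => y, rfl, rfl, fun _ _ => Eventually.of_forall fun _ => rfl,
      fun _ _ => ⟨y, Eventually.of_forall fun _ => rfl, fun h => absurd rfl h⟩, h⟩
  | cons l L ih =>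
    rintro t y ⟨h1, h2, h3, h4, h5, h6⟩
    obtain ⟨γ, g0, g1, g2, g3, g4⟩ := ih _ _ h6
    set s := tm ω l with hs
    have hring : s ∈ pts ω l.1 (some (l.2.1, l.2.2.1)) :=
      mem_pts_iff.2 ⟨l.2.2.2.1, l.2.2.2.2, h3.1, rfl⟩
    have hJ : Jump ω s l.1 y := ⟨_, _, hring, h4, h3.2⟩
    refine ⟨fun u => if u < s then γ u else y, by simp [h1, g0], by simp [h2], fun u hu => ?_,
      fun u hu => ?_, fun u hu => ?_⟩
    · by_cases h7 : u < s
      · filter_upwards [g2 u ⟨hu.1, h7⟩, Ioo_mem_nhdsGT h7] with v h8 h9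
        simp [h7, h9.2, h8]
      · filter_upwards [self_mem_nhdsWithin] with v h9
        have h10 : ¬ v < s := fun h5 => h7 (lt_trans h9 h5)
        simp [h7, h10]
    · rcases lt_trichotomy u s with h7 | h7 | h7
      · obtain ⟨z, hz, hz'⟩ := g3 u ⟨hu.1, h7.le⟩
        refine ⟨z, ?_, by simpa only [h7, if_true] using hz'⟩
        filter_upwards [hz, self_mem_nhdsWithin] with v h8 h9
        have h10 : v < s := lt_trans h9 h7
        simp [h10, h8]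
      · obtain ⟨z, hz, hz'⟩ := g3 s ⟨h1, le_rfl⟩
        have h8 : z = l.1 := by
          by_contra h8
          rw [g1] at hz'
          exact h8 ((hz' (Ne.symm h8)).eq hT hJ)
        rw [h7]
        refine ⟨z, ?_, fun _ => by simpa only [lt_irrefl, if_false, h8] using hJ⟩
        filter_upwards [hz, self_mem_nhdsWithin] with v h9 h10
        have h11 : v < s := h10
        simp [h11, h9]
      · refine ⟨y, ?_, fun h8 => absurd (by simp [h7.le]) h8⟩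
        filter_upwards [Ioo_mem_nhdsLT h7] with v h9
        simp [h9.1.le]
    · by_cases h7 : u < s
      · simp only [h7, if_true]; exact g4 u ⟨hu.1, h7⟩
      · simp only [h7, if_false]; exact h5 u ⟨not_lt.1 h7, hu.2⟩

lemma conn_iff (hT : NoTie ω) {x y : ℤ} {t : ℝ} (ht : 0 ≤ t) :
    Conn δ ω x t y ↔ (∃ L, ConnO δ ω x L t y) ∧ Ok δ ω t y := by
  constructor
  · rintro ⟨γ, hγ, rfl, rfl⟩
    exact ⟨hγ.connO t ⟨ht, le_rfl⟩, hγ.2.2 t ⟨ht, le_rfl⟩⟩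
  · rintro ⟨⟨L, hL⟩, h⟩
    obtain ⟨γ, g0, g1, g2, g3, g4⟩ := hL.path hT
    refine ⟨γ, ⟨g2, g3, fun u hu => ?_⟩, g0, g1⟩
    rcases hu.2.eq_or_lt with h1 | h1
    · rw [h1, g1]; exact h
    · exact g4 u ⟨hu.1, h1⟩

/-- Null-measurable predicates. -/
def NM (μ : Measure Omega) (p : Omega → Prop) : Prop := NullMeasurableSet {ω | p ω} μ

section NM

variable {μ : Measure Omega} {p q : Omega → Prop}

lemma NM.of_meas (h : MeasurableSet {ω | p ω}) : NM μ p := h.nullMeasurableSet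
lemma NM.const (a : Prop) : NM μ fun _ => a := .of_meas (MeasurableSet.const a)
lemma NM.and (h1 : NM μ p) (h2 : NM μ q) : NM μ fun ω => p ω ∧ q ω := h1.inter h2
lemma NM.or (h1 : NM μ p) (h2 : NM μ q) : NM μ fun ω => p ω ∨ q ω := h1.union h2
lemma NM.not (h1 : NM μ p) : NM μ fun ω => ¬ p ω := h1.compl
lemma NM.congr (h1 : NM μ p) (h : ∀ᵐ ω ∂μ, p ω ↔ q ω) : NM μ q :=
  NullMeasurableSet.congr h1 (h.mono fun _ h => propext h)
lemma NM.imp (h1 : NM μ p) (h2 : NM μ q) : NM μ fun ω => p ω → q ω :=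
  (h1.not.or h2).congr (Eventually.of_forall fun _ => imp_iff_not_or.symm)
lemma NM.all {ι : Sort*} [Countable ι] {p : ι → Omega → Prop} (h : ∀ i, NM μ (p i)) :
    NM μ fun ω => ∀ i, p i ω := by
  have := NullMeasurableSet.iInter h
  rw [NM, ofPred_forall]; exact this
lemma NM.ex {ι : Sort*} [Countable ι] {p : ι → Omega → Prop} (h : ∀ i, NM μ (p i)) :
    NM μ fun ω => ∃ i, p i ω := by
  have := NullMeasurableSet.iUnion h
  rw [NM, ofPred_exists]; exact this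
lemma NM.lt {f g : Omega → ℝ} (hf : Measurable f) (hg : Measurable g) : NM μ fun ω => f ω < g ω :=
  .of_meas (measurableSet_lt hf hg)
lemma NM.le {f g : Omega → ℝ} (hf : Measurable f) (hg : Measurable g) : NM μ fun ω => f ω ≤ g ω :=
  .of_meas (measurableSet_le hf hg)
lemma NM.ltn {f g : Omega → ℕ} (hf : Measurable f) (hg : Measurable g) : NM μ fun ω => f ω < g ω :=
  .of_meas (measurableSet_lt hf hg)

variable (hμ : ∀ᵐ ω ∂μ, Good ω ∧ Bdd ω)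
include hμ

lemma nm_lt_eta {t : ℝ} (ht : 0 ≤ t) (x : ℤ) (k : ℕ) : NM μ fun ω => (k : ℕ∞) < eta ω t x :=
  (NM.of_meas (measurableSet_ltE t x k)).congr (hμ.mono fun _ h => h.1.ltE_iff ht)

lemma nm_lt_eta' (t : ℝ) (x : ℤ) (k : ℕ) : NM μ fun ω => 0 ≤ t → (k : ℕ∞) < eta ω t x := by
  by_cases ht : 0 ≤ t
  · exact (NM.const _).imp (nm_lt_eta hμ ht x k)
  · exact (NM.const True).congr (Eventually.of_forall fun _ => by simp [ht])

lemma nm_Ioo {a b : Omega → ℝ} (ha : Measurable a) (hb : Measurable b) (x : ℤ) (k : ℕ) :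
    NM μ fun ω => ∀ q : ℚ, a ω < q → q < b ω → 0 ≤ (q : ℝ) → (k : ℕ∞) < eta ω q x :=
  NM.all fun q => (NM.lt ha measurable_const).imp
    ((NM.lt measurable_const hb).imp (nm_lt_eta' hμ q x k))

lemma nm_Ico {a b : Omega → ℝ} (ha : Measurable a) (hb : Measurable b)
    (h0 : ∀ ω, Good ω → 0 ≤ a ω) (x : ℤ) (k : ℕ) :
    NM μ fun ω => ∀ u ∈ Ico (a ω) (b ω), (k : ℕ∞) < eta ω u x := by
  refine (nm_Ioo hμ ha hb x k).congr (hμ.mono fun ω h => ⟨fun h1 u hu => ?_, fun h1 q h2 h3 _ =>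
    h1 q ⟨h2.le, h3⟩⟩)
  have hu0 : 0 ≤ u := (h0 ω h.1).trans hu.1
  obtain ⟨d, hd, hsub⟩ := mem_nhdsGT_iff_exists_Ioo_subset.1
    ((eta_right h.1 h.2 hu0 x).and (Ioo_mem_nhdsGT hu.2))
  obtain ⟨q, h2, h3⟩ := exists_rat_btwn (show u < d from hd)
  obtain ⟨h4, h5⟩ := hsub ⟨h2, h3⟩
  rw [← h4]
  exact h1 q (hu.1.trans_lt h2) h5.2 (hu0.trans h2.le)

lemma nm_at {a : Omega → ℝ} (ha : Measurable a) (h0 : ∀ ω, Good ω → 0 ≤ a ω) (x : ℤ) (k : ℕ) :
    NM μ fun ω => (k : ℕ∞) < eta ω (a ω) x := by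
  have h1 : NM μ fun ω => ∃ q : ℚ, a ω < q ∧ ∀ u ∈ Ico (a ω) q, (k : ℕ∞) < eta ω u x :=
    NM.ex fun q => (NM.lt ha measurable_const).and (nm_Ico hμ ha measurable_const h0 x k)
  refine h1.congr (hμ.mono fun ω h => ⟨fun ⟨q, h2, h3⟩ => h3 _ ⟨le_rfl, h2⟩, fun h2 => ?_⟩)
  obtain ⟨d, hd, hsub⟩ := mem_nhdsGT_iff_exists_Ioo_subset.1 (eta_right h.1 h.2 (h0 ω h.1) x)
  obtain ⟨q, h3, h4⟩ := exists_rat_btwn (show a ω < d from hd)
  refine ⟨q, h3, fun u hu => ?_⟩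
  rcases hu.1.eq_or_lt with h5 | h5
  · rw [← h5]; exact h2
  · have h6 : eta ω u x = eta ω (a ω) x := hsub ⟨h5, hu.2.trans h4⟩
    rw [h6]; exact h2

lemma nm_left {a : Omega → ℝ} (ha : Measurable a) (h0 : ∀ ω, Good ω → 0 < a ω) (x : ℤ) (k : ℕ) :
    NM μ fun ω => ∀ᶠ u in 𝓝[<] a ω, (k : ℕ∞) < eta ω u x := by
  have h1 : NM μ fun ω => ∃ q : ℚ, q < a ω ∧
      ∀ u ∈ Ico (max (q : ℝ) 0) (a ω), (k : ℕ∞) < eta ω u x :=
    NM.ex fun q => (NM.lt measurable_const ha).and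
      (nm_Ico hμ measurable_const ha (fun _ _ => le_max_right _ _) x k)
  refine h1.congr (hμ.mono fun ω h => ⟨fun ⟨q, h2, h3⟩ => ?_, fun h2 => ?_⟩)
  · filter_upwards [Ico_mem_nhdsLT (max_lt h2 (h0 ω h.1))] with u hu using h3 u hu
  · obtain ⟨d, hd, hsub⟩ := mem_nhdsLT_iff_exists_Ioo_subset.1 h2
    obtain ⟨q, h3, h4⟩ := exists_rat_btwn (show d < a ω from hd)
    exact ⟨q, h4, fun u hu => hsub ⟨h3.trans_le ((le_max_left _ _).trans hu.1), hu.2⟩⟩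

omit hμ in
lemma ok_iff {u : ℝ} {y : ℤ} : Ok δ ω u y ↔
    ((0 : ℕ) : ℕ∞) < eta ω u y ∧ (u ∈ marks δ ω y → ((1 : ℕ) : ℕ∞) < eta ω u y) := by
  simp only [Ok, Nat.cast_zero, Nat.cast_one, Order.one_le_iff_pos]
  refine and_congr_right fun h => ⟨fun h1 h2 => ?_, fun h1 h2 h3 => ?_⟩
  · exact lt_of_le_of_ne (Order.one_le_iff_pos.2 h) fun h3 => h1 h3.symm h2
  · exact absurd (h1 h3) (by simp [h2])

lemma nm_okI {a b : Omega → ℝ} (ha : Measurable a) (hb : Measurable b)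
    (h0 : ∀ ω, Good ω → 0 ≤ a ω) (y : ℤ) : NM μ fun ω => ∀ u ∈ Ico (a ω) (b ω), Ok δ ω u y := by
  by_cases hδ : δ = ⊤
  · refine ((nm_Ico hμ ha hb h0 y 0).and (nm_Ico hμ ha hb h0 y 1)).congr
      (Eventually.of_forall fun ω => ?_)
    simp only [ok_iff, marks, hδ, if_true, mem_univ, true_imp_iff]
    exact ⟨fun h u hu => ⟨h.1 u hu, h.2 u hu⟩, fun h => ⟨fun u hu => (h u hu).1,
      fun u hu => (h u hu).2⟩⟩
  · have hm : ∀ n j : ℕ, Measurable fun ω : Omega => (n : ℝ) + (ω (y, some (none, n))).2 j :=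
      fun n j => (measurable_pos _ _).const_add _
    have h1 : NM μ fun ω => ∀ n j : ℕ, j < (ω (y, some (none, n))).1 →
        a ω ≤ (n : ℝ) + (ω (y, some (none, n))).2 j → (n : ℝ) + (ω (y, some (none, n))).2 j < b ω →
        ((1 : ℕ) : ℕ∞) < eta ω ((n : ℝ) + (ω (y, some (none, n))).2 j) y :=
      NM.all fun n => NM.all fun j => (NM.ltn measurable_const (measurable_cnt _)).imp
        ((NM.le ha (hm n j)).imp ((NM.lt (hm n j) hb).imp (nm_at hμ (hm n j)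
          (fun ω h => add_nonneg (Nat.cast_nonneg n) (h.1 _ _).1.le) y 1)))
    refine ((nm_Ico hμ ha hb h0 y 0).and h1).congr (Eventually.of_forall fun ω => ?_)
    simp only [ok_iff, marks, hδ, if_false]
    constructor
    · rintro ⟨h2, h3⟩ u hu
      refine ⟨h2 u hu, ?_⟩
      rintro ⟨n, j, h4, rfl⟩
      exact h3 n j h4 hu.1 hu.2
    · intro h
      exact ⟨fun u hu => (h u hu).1, fun n j h2 h3 h4 => (h _ ⟨h3, h4⟩).2 ⟨n, j, h2, rfl⟩⟩

lemma nm_ok {t : ℝ} (ht : 0 ≤ t) (y : ℤ) : NM μ fun ω => Ok δ ω t y := by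
  simp only [ok_iff]
  refine (nm_lt_eta hμ ht y 0).and (NM.imp ?_ (nm_lt_eta hμ ht y 1))
  by_cases hδ : δ = ⊤
  · simp only [marks, hδ, if_true, mem_univ]; exact NM.const _
  · simp only [marks, hδ, if_false, pts, mem_ofPred_eq]
    refine NM.ex fun n => NM.ex fun j => (NM.ltn measurable_const (measurable_cnt _)).and ?_
    exact NM.of_meas (measurableSet_eq_fun measurable_const ((measurable_pos _ _).const_add _))

lemma nm_connO (x : ℤ) : ∀ (L : List Lab) {a : Omega → ℝ} (_ : Measurable a) (y : ℤ),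
    NM μ fun ω => ConnO δ ω x L (a ω) y := by
  intro L
  induction L with
  | nil =>
    intro a ha y
    exact (NM.const _).and (nm_okI hμ measurable_const ha (fun _ _ => le_rfl) y)
  | cons l L ih =>
    intro a ha y
    have h0 : ∀ ω, Good ω → 0 < tm ω l := fun ω h => (Nat.cast_nonneg _).trans_lt (h.lt_tm l)
    exact (NM.lt measurable_const (measurable_tm l)).and ((NM.le (measurable_tm l) ha).and
      (((NM.ltn measurable_const (measurable_cnt _)).and (nm_left hμ (measurable_tm l) h0 _ _)).and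
      ((NM.const _).and ((nm_okI hμ (measurable_tm l) ha (fun ω h => (h0 ω h).le) y).and
      (ih (measurable_tm l) _)))))

lemma nm_conn (x y : ℤ) {t : ℝ} (ht : 0 ≤ t) : NM μ fun ω => Conn δ ω x t y :=
  ((NM.ex fun L => nm_connO hμ x L measurable_const y).and (nm_ok hμ ht y)).congr
    (hμ.mono fun _ h => (conn_iff h.1.noTie ht).symm)

lemma nm_surv (x : ℤ) : NM μ fun ω => Surv δ ω x :=
  NM.all fun n => NM.ex fun y => nm_conn hμ x y (Nat.cast_nonneg n)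

lemma nm_up (x : ℤ) : NM μ fun ω => Up δ ω x :=
  NM.all fun _ => NM.ex fun n => NM.ex fun y => (NM.const _).and (nm_conn hμ x y (Nat.cast_nonneg n))

lemma nm_evR (x : ℤ) : NM μ fun ω => EvR δ ω x :=
  (nm_surv hμ x).and (NM.ex fun _ => NM.all fun n => (NM.const _).imp (NM.all fun y =>
    (nm_conn hμ x y (Nat.cast_nonneg n)).imp (NM.const _)))

lemma nm_evL (x : ℤ) : NM μ fun ω => EvL δ ω x :=
  (nm_surv hμ x).and (NM.ex fun _ => NM.all fun n => (NM.const _).imp (NM.all fun y =>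
    (nm_conn hμ x y (Nat.cast_nonneg n)).imp (NM.const _)))

end NM

end Pool.Agent.Lib.MP_dd0771_pr
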