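import Pool.Agent.Lib.MP_dd0771_pr.Defs

open MeasureTheory ProbabilityTheory Set Filter Topology
open scoped NNReal ENNReal

namespace Pool.Agent.Lib.MP_dd0771_pr

lemma real_ind {P : ℝ → Prop} {a b : ℝ} (h0 : P a)
    (hr : ∀ t ∈ Ico a b, P t → ∀ᶠ u in 𝓝[>] t, P u)
    (hl : ∀ t ∈ Ioc a b, (∀ᶠ u in 𝓝[<] t, P u ∧ u ∈ Ico a t) → P t) : ∀ t ∈ Icc a b, P t := by
  by_contra hc
  push Not at hc
  obtain ⟨t0, ht0, hP0⟩ := hc
  set S : Set ℝ := {t | t ∈ Icc a b ∧ ¬ P t} with hS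
  have hne : S.Nonempty := ⟨t0, ht0, hP0⟩
  have hbd : BddBelow S := ⟨a, fun t ht => ht.1.1⟩
  set c := sInf S with hcdef
  have hac : a ≤ c := le_csInf hne fun t ht => ht.1.1
  have hcb : c ≤ b := (csInf_le hbd ⟨ht0, hP0⟩).trans ht0.2
  have hlt : ∀ s, a ≤ s → s < c → P s := by
    intro s h1 h2
    by_contra h3
    exact absurd (csInf_le hbd (show s ∈ S from ⟨⟨h1, h2.le.trans hcb⟩, h3⟩)) (not_le.2 h2)
  have hPc : P c := by
    rcases hac.eq_or_lt with h | h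
    · rw [← h]; exact h0
    · refine hl c ⟨h, hcb⟩ ?_
      filter_upwards [Ico_mem_nhdsLT h] with u hu
      exact ⟨hlt u hu.1 hu.2, hu⟩
  rcases hcb.eq_or_lt with h | h
  · rcases ht0.2.eq_or_lt with h2 | h2
    · exact hP0 (by rw [h2, ← h]; exact hPc)
    · exact hP0 (hlt t0 ht0.1 (by rw [h]; exact h2))
  · have h1 := hr c ⟨hac, h⟩ hPc
    obtain ⟨d, hd, hsub⟩ := mem_nhdsGT_iff_exists_Ioo_subset.1 h1
    have : d ≤ c := by
      refine le_csInf hne fun t ht => ?_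
      by_contra h3
      push Not at h3
      have h4 : c ≤ t := csInf_le hbd ht
      rcases h4.eq_or_lt with h5 | h5
      · exact ht.2 (by rw [← h5]; exact hPc)
      · exact ht.2 (hsub ⟨h5, h3⟩)
    exact absurd hd (not_lt.2 this)

/-- No two different jump clocks ring at the same time. -/
def NoTie (ω : Omega) : Prop :=
  ∀ x k e x' k' e' t, t ∈ pts ω x (some (k, e)) → t ∈ pts ω x' (some (k', e')) →
    x = x' ∧ k = k' ∧ e = e'

/-- There is a genealogical path from `(x, 0)` to `(y, t)`. -/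
def Conn (δ : ℝ≥0∞) (ω : Omega) (x : ℤ) (t : ℝ) (y : ℤ) : Prop :=
  ∃ γ, IsPath δ ω t γ ∧ γ 0 = x ∧ γ t = y

variable {δ : ℝ≥0∞} {ω : Omega}

lemma nb_cases (x : ℤ) (e : Bool) : nb x e = x + 1 ∨ nb x e = x - 1 := by
  cases e <;> simp [nb]

lemma Jump.nn {t : ℝ} {x y : ℤ} (h : Jump ω t x y) : y = x + 1 ∨ y = x - 1 := by
  obtain ⟨k, e, -, rfl, -⟩ := h
  exact nb_cases x e

lemma Jump.eq (hT : NoTie ω) {t : ℝ} {x y x' y' : ℤ} (h : Jump ω t x y) (h' : Jump ω t x' y') :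
    x = x' := by
  obtain ⟨k, e, h1, -, -⟩ := h
  obtain ⟨k', e', h1', -, -⟩ := h'
  exact (hT _ _ _ _ _ _ _ h1 h1').1

lemma IsPath.mono {s t : ℝ} {γ : ℝ → ℤ} (h : IsPath δ ω t γ) (hst : s ≤ t) : IsPath δ ω s γ :=
  ⟨fun u hu => h.1 u ⟨hu.1, hu.2.trans_le hst⟩, fun u hu => h.2.1 u ⟨hu.1, hu.2.trans hst⟩,
    fun u hu => h.2.2 u ⟨hu.1, hu.2.trans hst⟩⟩

lemma Conn.occ {x y : ℤ} {t : ℝ} (ht : 0 ≤ t) (h : Conn δ ω x t y) : 1 ≤ eta ω t y := by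
  obtain ⟨γ, hγ, -, rfl⟩ := h
  exact (hγ.2.2 t ⟨ht, le_rfl⟩).1

lemma IsPath.cross (hT : NoTie ω) {t : ℝ} {α β : ℝ → ℤ} (hα : IsPath δ ω t α)
    (hβ : IsPath δ ω t β) (ht : 0 ≤ t) (h0 : α 0 ≤ β 0) (h1 : β t ≤ α t) :
    ∃ s ∈ Icc 0 t, α s = β s := by
  by_contra hc
  push Not at hc
  have key : ∀ s ∈ Icc 0 t, α s < β s := by
    refine real_ind (P := fun s => α s < β s) (lt_of_le_of_ne h0 (hc 0 ⟨le_rfl, ht⟩)) ?_ ?_
    · intro s hs hP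
      filter_upwards [hα.1 s hs, hβ.1 s hs] with u h2 h3
      rw [h2, h3]; exact hP
    · intro s hs hP
      obtain ⟨z, hz, hz'⟩ := hα.2.1 s hs
      obtain ⟨w, hw, hw'⟩ := hβ.2.1 s hs
      obtain ⟨u, ⟨h2, -⟩, h3, h4⟩ := (hP.and (hz.and hw)).exists
      rw [h3, h4] at h2
      have h5 := hc s ⟨hs.1.le, hs.2⟩
      by_cases ha : α s = z
      · by_cases hb : β s = w
        · omega
        · have := (hw' hb).nn
          omega
      · by_cases hb : β s = w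
        · have := (hz' ha).nn
          omega
        · have := (hz' ha).eq hT (hw' hb)
          omega
  exact absurd (key t ⟨ht, le_rfl⟩) (not_lt.2 h1)

lemma IsPath.ivt_up {s t : ℝ} {α : ℝ → ℤ} (hα : IsPath δ ω t α) (hs : 0 ≤ s) (hst : s ≤ t)
    {c : ℤ} (h0 : α s ≤ c) (h1 : c ≤ α t) : ∃ u ∈ Icc s t, α u = c := by
  by_contra hc
  push Not at hc
  have key : ∀ u ∈ Icc s t, α u < c := by
    refine real_ind (P := fun u => α u < c) (lt_of_le_of_ne h0 (hc s ⟨le_rfl, hst⟩)) ?_ ?_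
    · intro u hu hP
      filter_upwards [hα.1 u ⟨hs.trans hu.1, hu.2⟩] with v h2
      rw [h2]; exact hP
    · intro u hu hP
      obtain ⟨z, hz, hz'⟩ := hα.2.1 u ⟨hs.trans_lt hu.1, hu.2⟩
      obtain ⟨v, ⟨h2, -⟩, h3⟩ := (hP.and hz).exists
      rw [h3] at h2
      have h5 := hc u ⟨hu.1.le, hu.2⟩
      by_cases ha : α u = z
      · omega
      · have := (hz' ha).nn
        omega
  exact absurd (key t ⟨hst, le_rfl⟩) (not_lt.2 h1)

lemma IsPath.ivt_down {s t : ℝ} {α : ℝ → ℤ} (hα : IsPath δ ω t α) (hs : 0 ≤ s) (hst : s ≤ t)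
    {c : ℤ} (h0 : c ≤ α s) (h1 : α t ≤ c) : ∃ u ∈ Icc s t, α u = c := by
  by_contra hc
  push Not at hc
  have key : ∀ u ∈ Icc s t, c < α u := by
    refine real_ind (P := fun u => c < α u) (lt_of_le_of_ne h0 (hc s ⟨le_rfl, hst⟩).symm) ?_ ?_
    · intro u hu hP
      filter_upwards [hα.1 u ⟨hs.trans hu.1, hu.2⟩] with v h2
      rw [h2]; exact hP
    · intro u hu hP
      obtain ⟨z, hz, hz'⟩ := hα.2.1 u ⟨hs.trans_lt hu.1, hu.2⟩
      obtain ⟨v, ⟨h2, -⟩, h3⟩ := (hP.and hz).exists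
      rw [h3] at h2
      have h5 := hc u ⟨hu.1.le, hu.2⟩
      by_cases ha : α u = z
      · omega
      · have := (hz' ha).nn
        omega
  exact absurd (key t ⟨hst, le_rfl⟩) (not_lt.2 h1)

lemma IsPath.barrier {s t : ℝ} {α : ℝ → ℤ} (hα : IsPath δ ω t α) (hs : 0 ≤ s) (hst : s ≤ t)
    {c : ℤ} (hc : ∀ u ∈ Ioc s t, ∀ y, ¬ Jump ω u c y) (h0 : α s ≤ c) : α t ≤ c := by
  refine real_ind (P := fun u => α u ≤ c) h0 ?_ ?_ t ⟨hst, le_rfl⟩
  · intro u hu hP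
    filter_upwards [hα.1 u ⟨hs.trans hu.1, hu.2⟩] with v h2
    rw [h2]; exact hP
  · intro u hu hP
    obtain ⟨z, hz, hz'⟩ := hα.2.1 u ⟨hs.trans_lt hu.1, hu.2⟩
    obtain ⟨v, ⟨h2, -⟩, h3⟩ := (hP.and hz).exists
    rw [h3] at h2
    by_cases ha : α u = z
    · omega
    · have h4 := hz' ha
      have h5 := h4.nn
      by_cases h6 : z = c
      · rw [h6] at h4; exact absurd h4 (hc u hu _)
      · omega

lemma IsPath.glue {s t : ℝ} {α β : ℝ → ℤ} (hα : IsPath δ ω t α) (hβ : IsPath δ ω t β)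
    (h : α s = β s) : IsPath δ ω t (fun u => if u < s then α u else β u) := by
  refine ⟨fun u hu => ?_, fun u hu => ?_, fun u hu => ?_⟩
  · by_cases h1 : u < s
    · filter_upwards [hα.1 u hu, Ioo_mem_nhdsGT h1] with v h2 h3
      simp [h1, h3.2, h2]
    · filter_upwards [hβ.1 u hu, self_mem_nhdsWithin] with v h2 h3
      have h4 : ¬ v < s := fun h5 => h1 (lt_trans h3 h5)
      simp [h1, h4, h2]
  · by_cases h1 : u ≤ s
    · obtain ⟨z, hz, hz'⟩ := hα.2.1 u hu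
      have h2 : (if u < s then α u else β u) = α u := by
        rcases h1.eq_or_lt with h3 | h3
        · simp [h3, h]
        · simp [h3]
      refine ⟨z, ?_, ?_⟩
      · filter_upwards [hz, self_mem_nhdsWithin] with v h3 h4
        have h5 : v < s := lt_of_lt_of_le h4 h1
        simp [h5, h3]
      · simp only [h2]; exact hz'
    · obtain ⟨z, hz, hz'⟩ := hβ.2.1 u hu
      push Not at h1
      have h2 : (if u < s then α u else β u) = β u := by simp [h1.le]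
      refine ⟨z, ?_, ?_⟩
      · filter_upwards [hz, Ioo_mem_nhdsLT h1] with v h3 h4
        simp [h4.1.le, h3]
      · simp only [h2]; exact hz'
  · by_cases h1 : u < s
    · simp only [h1, if_true]; exact hα.2.2 u hu
    · simp only [h1, if_false]; exact hβ.2.2 u hu

lemma Conn.swap (hT : NoTie ω) {t : ℝ} (ht : 0 ≤ t) {x y a b : ℤ} (h1 : Conn δ ω x t a)
    (h2 : Conn δ ω y t b) (h : (x ≤ y ∧ b ≤ a) ∨ (y ≤ x ∧ a ≤ b)) : Conn δ ω x t b := by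
  obtain ⟨α, hα, rfl, rfl⟩ := h1
  obtain ⟨β, hβ, rfl, rfl⟩ := h2
  have : ∃ s ∈ Icc 0 t, α s = β s := by
    rcases h with h | h
    · exact hα.cross hT hβ ht h.1 h.2
    · obtain ⟨s, hs, h3⟩ := hβ.cross hT hα ht h.1 h.2
      exact ⟨s, hs, h3.symm⟩
  obtain ⟨s, hs, h3⟩ := this
  refine ⟨_, hα.glue hβ h3, ?_, ?_⟩
  · rcases hs.1.eq_or_lt with h4 | h4
    · simp [← h4, ← h4 ▸ h3]
    · simp [h4]
  · simp [hs.2]

/-- Survival along integer times. -/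
def Surv (δ : ℝ≥0∞) (ω : Omega) (x : ℤ) : Prop := ∀ n : ℕ, ∃ y, Conn δ ω x n y
/-- Unbounded to the right. -/
def Up (δ : ℝ≥0∞) (ω : Omega) (x : ℤ) : Prop := ∀ N : ℤ, ∃ n : ℕ, ∃ y, N ≤ y ∧ Conn δ ω x n y
/-- Unbounded to the left. -/
def Down (δ : ℝ≥0∞) (ω : Omega) (x : ℤ) : Prop := ∀ N : ℤ, ∃ n : ℕ, ∃ y, y ≤ N ∧ Conn δ ω x n y
/-- Eventually to the right. -/
def EvR (δ : ℝ≥0∞) (ω : Omega) (x : ℤ) : Prop :=
  Surv δ ω x ∧ ∃ N : ℕ, ∀ n : ℕ, N ≤ n → ∀ y, Conn δ ω x n y → x < y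
/-- Eventually to the left. -/
def EvL (δ : ℝ≥0∞) (ω : Omega) (x : ℤ) : Prop :=
  Surv δ ω x ∧ ∃ N : ℕ, ∀ n : ℕ, N ≤ n → ∀ y, Conn δ ω x n y → y < x
/-- Every finite interval is empty at infinitely many integer times. -/
def Empties (ω : Omega) : Prop :=
  ∀ a b : ℤ, ∀ N : ℕ, ∃ n : ℕ, N ≤ n ∧ ∀ x ∈ Icc a b, eta ω n x = 0
/-- Silent sites in each window. -/
def Silent (ω : Omega) : Prop :=
  ∀ n : ℕ, ∀ z : ℤ, ∃ c ≤ z, ∀ u ∈ Ioc (n : ℝ) (n + 1), ∀ y, ¬ Jump ω u c y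
/-- The origin is reached from time zero at unbounded times. -/
def Reached (δ : ℝ≥0∞) (ω : Omega) : Prop := ∀ T : ℝ, ∃ t, T < t ∧ 0 ≤ t ∧ ∃ x, Conn δ ω x t 0

lemma up_or_down (hE : Empties ω) (h : Surv δ ω 0) : Up δ ω 0 ∨ Down δ ω 0 := by
  by_contra hc
  simp only [Up, Down, not_or, not_forall, not_exists, not_and] at hc
  obtain ⟨⟨b, hb⟩, ⟨a, ha⟩⟩ := hc
  obtain ⟨n, -, hn⟩ := hE a b 0
  obtain ⟨y, hy⟩ := h n
  have h1 : ¬ b ≤ y := fun h1 => hb n y h1 hy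
  have h2 : ¬ y ≤ a := fun h2 => ha n y h2 hy
  have h3 := hy.occ (Nat.cast_nonneg n)
  rw [hn y ⟨by omega, by omega⟩] at h3
  exact absurd h3 (by simp)

lemma start_bounded (hS : Silent ω) (n : ℕ) : ∀ z : ℤ, ∃ w : ℤ, ∀ (t : ℝ) (γ : ℝ → ℤ), 0 ≤ t → t ≤ n →
    IsPath δ ω t γ → z ≤ γ t → w ≤ γ 0 := by
  induction n with
  | zero =>
    intro z
    refine ⟨z, fun t γ h1 h2 _ h3 => ?_⟩
    have : t = 0 := le_antisymm (by simpa using h2) h1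
    rw [← this]; exact h3
  | succ n ih =>
    intro z
    obtain ⟨c, hc, hc'⟩ := hS n (z - 1)
    obtain ⟨w, hw⟩ := ih (c + 1)
    refine ⟨w, fun t γ h1 h2 hγ h3 => ?_⟩
    by_cases h4 : t ≤ n
    · exact hw t γ h1 h4 hγ (by omega)
    · push Not at h4
      refine hw n γ (Nat.cast_nonneg n) le_rfl (hγ.mono h4.le) ?_
      by_contra h5
      have := hγ.barrier (Nat.cast_nonneg n) h4.le (c := c)
        (fun u hu y => hc' u ⟨hu.1, hu.2.trans (by exact_mod_cast h2)⟩ y) (by omega)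
      omega

lemma reached_of_up (hS : Silent ω) (hU : ∀ N : ℤ, ∃ x ≤ N, Up δ ω x) : Reached δ ω := by
  intro T
  obtain ⟨n, hn⟩ := exists_nat_gt T
  obtain ⟨w, hw⟩ := start_bounded (δ := δ) hS n 0
  obtain ⟨x, hx, hx'⟩ := hU (min (w - 1) 0)
  obtain ⟨m, y, hy, γ, hγ, h0, h1⟩ := hx' 0
  have hx1 : x ≤ w - 1 := hx.trans (min_le_left _ _)
  have hx2 : x ≤ 0 := hx.trans (min_le_right _ _)
  obtain ⟨u, hu, hu'⟩ := hγ.ivt_up le_rfl (Nat.cast_nonneg m) (c := 0) (by omega) (by omega)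
  refine ⟨u, ?_, hu.1, x, γ, hγ.mono hu.2, h0, hu'⟩
  by_contra h2
  push Not at h2
  have := hw u γ hu.1 (h2.trans hn.le) (hγ.mono hu.2) hu'.ge
  omega

lemma evR_or_evL (hT : NoTie ω) (hR : Reached δ ω) (hS : Survives δ ω)
    (hL : ¬ LocalSurvival δ ω) : EvR δ ω 0 ∨ EvL δ ω 0 := by
  have hS' : Surv δ ω 0 := fun n => hS n (Nat.cast_nonneg n)
  simp only [LocalSurvival, not_not] at hL
  obtain ⟨T, hT'⟩ := hL
  have hno : ∀ t, T < t → 0 ≤ t → ¬ Conn δ ω 0 t 0 := fun t h1 h2 h3 =>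
    absurd (hT' (show t ∈ {t | 0 ≤ t ∧ Infected δ ω t 0} from ⟨h2, h3⟩)) (not_le.2 h1)
  obtain ⟨t, ht, ht0, x, hx⟩ := hR T
  obtain ⟨N, hN⟩ := exists_nat_gt t
  have key : (∀ y, Conn δ ω 0 t y → 0 < y) ∨ (∀ y, Conn δ ω 0 t y → y < 0) := by
    by_contra hc
    push Not at hc
    obtain ⟨⟨a, ha, ha'⟩, ⟨b, hb, hb'⟩⟩ := hc
    rcases le_total 0 x with h | h
    · exact hno t ht ht0 (hb.swap hT ht0 hx (Or.inl ⟨h, hb'⟩))
    · exact hno t ht ht0 (ha.swap hT ht0 hx (Or.inr ⟨h, ha'⟩))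
  rcases key with key | key
  · refine Or.inl ⟨hS', N, fun n hn y hy => ?_⟩
    obtain ⟨γ, hγ, h0, h1⟩ := hy
    have h2 : t ≤ n := hN.le.trans (by exact_mod_cast hn)
    have h3 := key _ ⟨γ, hγ.mono h2, h0, rfl⟩
    by_contra h4
    obtain ⟨u, hu, hu'⟩ := hγ.ivt_down ht0 h2 (c := 0) h3.le (by omega)
    exact hno u (ht.trans_le hu.1) (ht0.trans hu.1) ⟨γ, hγ.mono hu.2, h0, hu'⟩
  · refine Or.inr ⟨hS', N, fun n hn y hy => ?_⟩
    obtain ⟨γ, hγ, h0, h1⟩ := hy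
    have h2 : t ≤ n := hN.le.trans (by exact_mod_cast hn)
    have h3 := key _ ⟨γ, hγ.mono h2, h0, rfl⟩
    by_contra h4
    obtain ⟨u, hu, hu'⟩ := hγ.ivt_up ht0 h2 (c := 0) h3.le (by omega)
    exact hno u (ht.trans_le hu.1) (ht0.trans hu.1) ⟨γ, hγ.mono hu.2, h0, hu'⟩

lemma not_evR_evL (hT : NoTie ω) (hE : Empties ω) {x y : ℤ} (hxy : x ≤ y) (h1 : EvR δ ω x)
    (h2 : EvL δ ω y) : False := by
  obtain ⟨s1, N1, h1⟩ := h1
  obtain ⟨s2, N2, h2⟩ := h2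
  obtain ⟨n, hn, hn'⟩ := hE x y (max N1 N2)
  obtain ⟨a, ha⟩ := s1 n
  obtain ⟨b, hb⟩ := s2 n
  have h3 := h1 n ((le_max_left _ _).trans hn)
  have h4 := h2 n ((le_max_right _ _).trans hn) b hb
  have hn0 : (0 : ℝ) ≤ n := Nat.cast_nonneg n
  rcases le_total a b with h | h
  · have h5 := h3 a ha
    have h6 := ha.occ hn0
    rw [hn' a ⟨by omega, by omega⟩] at h6
    exact absurd h6 (by simp)
  · have h5 := h3 b (ha.swap hT hn0 hb (Or.inl ⟨hxy, h⟩))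
    have h6 := hb.occ hn0
    rw [hn' b ⟨by omega, by omega⟩] at h6
    exact absurd h6 (by simp)

end Pool.Agent.Lib.MP_dd0771_pr
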