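import Pool.Agent.Lib.MP_dd0771_pr.Sym

open MeasureTheory ProbabilityTheory Set Filter Topology
open scoped NNReal ENNReal

namespace Pool.Agent.Lib.MP_dd0771_pr

/-- Uniform law on `(0,1]`. -/
noncomputable abbrev unif : Measure ℝ := (volume : Measure ℝ).restrict (Ioc 0 1)

lemma mp_cell_snd (m : Measure ℕ) [IsProbabilityMeasure m] :
    MeasurePreserving Prod.snd (cell m) (Measure.infinitePi fun _ : ℕ => unif) :=
  measurePreserving_snd

lemma mp_cell_pos (m : Measure ℕ) [IsProbabilityMeasure m] (j : ℕ) :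
    MeasurePreserving (fun c : ℕ × (ℕ → ℝ) => c.2 j) (cell m) unif :=
  (measurePreserving_eval_infinitePi (fun _ : ℕ => unif) j).comp (mp_cell_snd m)

variable (ν : Measure ℕ) [IsProbabilityMeasure ν] (g : ℕ → ℝ) (δ : ℝ≥0∞)

lemma mp_eval (i : Idx) :
    MeasurePreserving (fun ω : Omega => ω i) (law ν g δ) (cell (countLaw ν g δ i.2)) :=
  measurePreserving_eval_infinitePi (fun i : Idx => cell (countLaw ν g δ i.2)) i

lemma mp_pair {l l' : Lab} (h : l ≠ l') : MeasurePreserving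
    (fun ω : Omega => ((ω (idx l)).2 l.2.2.2.2, (ω (idx l')).2 l'.2.2.2.2)) (law ν g δ)
    (unif.prod unif) := by
  by_cases h1 : idx l = idx l'
  · have h2 : l.2.2.2.2 ≠ l'.2.2.2.2 := by
      intro h2
      obtain ⟨x, k, e, n, j⟩ := l
      obtain ⟨x', k', e', n', j'⟩ := l'
      simp only [idx, Prod.mk.injEq, Option.some.injEq] at h1 h2
      obtain ⟨rfl, ⟨rfl, rfl⟩, rfl⟩ := h1
      exact h (by rw [h2])
    have h3 : MeasurePreserving (fun u : ℕ → ℝ => (u l.2.2.2.2, u l'.2.2.2.2))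
        (Measure.infinitePi fun _ : ℕ => unif) (unif.prod unif) :=
      ⟨by fun_prop, Measure.infinitePi_map_eval_prod (P := fun _ : ℕ => unif) h2⟩
    rw [← h1]
    exact h3.comp ((mp_cell_snd _).comp (mp_eval ν g δ (idx l)))
  · have h3 : MeasurePreserving (fun ω : Omega => (ω (idx l), ω (idx l'))) (law ν g δ)
        ((cell (countLaw ν g δ (idx l).2)).prod (cell (countLaw ν g δ (idx l').2))) :=
      ⟨by fun_prop, Measure.infinitePi_map_eval_prod
        (P := fun i : Idx => cell (countLaw ν g δ i.2)) h1⟩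
    exact ((mp_cell_pos _ _).prod (mp_cell_pos _ _)).comp h3

lemma ae_good : ∀ᵐ ω ∂law ν g δ, Good ω := by
  have h1 : ∀ᵐ ω ∂law ν g δ, ∀ i j, (ω i).2 j ∈ Ioc (0 : ℝ) 1 := by
    rw [ae_all_iff]; intro i
    rw [ae_all_iff]; intro j
    exact ((mp_cell_pos _ j).comp (mp_eval ν g δ i)).quasiMeasurePreserving.ae
      (ae_restrict_mem measurableSet_Ioc)
  have h2 : ∀ᵐ ω ∂law ν g δ, ∀ l l' : Lab, tm ω l = tm ω l' → l = l' := by
    rw [ae_all_iff]; intro l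
    rw [ae_all_iff]; intro l'
    by_cases h : l = l'
    · exact Eventually.of_forall fun _ _ => h
    have h3 : ∀ᵐ p ∂(unif.prod unif), ¬ ((l.2.2.2.1 : ℝ) + p.1 = l'.2.2.2.1 + p.2) := by
      have hm : MeasurableSet {p : ℝ × ℝ | (l.2.2.2.1 : ℝ) + p.1 = l'.2.2.2.1 + p.2} :=
        measurableSet_eq_fun (by fun_prop) (by fun_prop)
      refine (Measure.ae_prod_iff_ae_ae hm.compl).2 (Eventually.of_forall fun u => ?_)
      have : ∀ᵐ v ∂unif, v ≠ (l.2.2.2.1 : ℝ) + u - l'.2.2.2.1 := Measure.ae_ne _ _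
      filter_upwards [this] with v hv h4
      exact hv (by linarith)
    filter_upwards [(mp_pair ν g δ h).quasiMeasurePreserving.ae h3] with ω h4 h5
    exact absurd h5 h4
  filter_upwards [h1, h2] with ω h3 h4 using ⟨h3, h4⟩

lemma ae_good_shift : ∀ᵐ ω ∂law ν g δ, ∀ z, Good (shift z ω) := by
  rw [ae_all_iff]; intro z
  exact (act_preserving ν g δ _ _).quasiMeasurePreserving.ae (ae_good ν g δ)

lemma lintegral_mass (A : Finset ℤ) :
    ∫⁻ ω, (mass A ω : ℝ≥0∞) ∂law ν g δ = A.card * ∫⁻ n, (n : ℝ≥0∞) ∂ν := by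
  simp only [mass, Nat.cast_sum]
  rw [lintegral_finsetSum (f := fun x (ω : Omega) => ((ω (x, none)).1 : ℝ≥0∞)) _ fun x _ =>
    (measurable_of_countable (fun n : ℕ => (n : ℝ≥0∞))).comp (measurable_cnt _)]
  have : ∀ x : ℤ, ∫⁻ ω, ((ω (x, none)).1 : ℝ≥0∞) ∂law ν g δ = ∫⁻ n, (n : ℝ≥0∞) ∂ν := by
    intro x
    have h : MeasurePreserving (fun ω : Omega => (ω (x, none)).1) (law ν g δ) ν :=
      measurePreserving_fst.comp (mp_eval ν g δ (x, none))
    exact h.lintegral_comp (measurable_of_countable (fun n : ℕ => (n : ℝ≥0∞)))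
  simp [this]

lemma ltA_bound {t : ℝ} (ht : 0 ≤ t) (h k : ℕ) :
    (h + 1 : ℕ) * law ν g δ (LtA (Finset.Icc (-(k : ℤ)) k) t 0 h) ≤ 2 * ∫⁻ n, (n : ℝ≥0∞) ∂ν := by
  set μ := law ν g δ with hμ
  set ρ := ∫⁻ n, (n : ℝ≥0∞) ∂ν
  set A := Finset.Icc (-(k : ℤ)) k with hA
  set B := Finset.Icc (-(2 * k : ℤ)) (2 * k) with hB
  have h1 : ∀ x ∈ A, μ (LtA A t 0 h) ≤ μ (LtA B t x h) := by
    intro x hx
    rw [← (act_preserving ν g δ (Equiv.addRight x) (Equiv.refl _)).measure_preimage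
      (measurableSet_ltA A t 0 h).nullMeasurableSet]
    refine measure_mono_ae ?_
    filter_upwards [ae_good ν g δ, ae_good_shift ν g δ] with ω h2 h3 h4
    obtain ⟨ζ, h5, h6⟩ := ((h3 x).ltA_iff ht).1 h4
    obtain ⟨ζ', h7⟩ := h2.exists_evol B
    refine (h2.ltA_iff ht).2 ⟨ζ', h7, h6.trans_le ?_⟩
    have h8 : A.map (Equiv.addRight x).toEmbedding ⊆ B := by
      intro y hy
      rw [Finset.mem_map_equiv] at hy
      simp only [hA, hB, Finset.mem_Icc, Equiv.addRight_symm, Equiv.coe_addRight] at hx hy ⊢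
      omega
    simpa using (h5.act (shift_nb x)).mono h2.noTie h8 h7 ht x
  have h2 : ∑ x ∈ A, ((h + 1 : ℕ) : ℝ≥0∞) * μ (LtA B t x h) ≤ B.card * ρ := by
    rw [← lintegral_mass ν g δ B]
    have h3 : ∀ x, ((h + 1 : ℕ) : ℝ≥0∞) * μ (LtA B t x h) =
        ∫⁻ ω, (LtA B t x h).indicator (fun _ => ((h + 1 : ℕ) : ℝ≥0∞)) ω ∂μ := fun x => by
      rw [lintegral_indicator_const (measurableSet_ltA B t x h)]
    simp only [h3]
    rw [← lintegral_finsetSum _ fun x _ => measurable_const.indicator (measurableSet_ltA B t x h)]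
    refine lintegral_mono_ae ?_
    filter_upwards [ae_good ν g δ] with ω h4
    obtain ⟨ζ, h5⟩ := h4.exists_evol B
    have h6 : A ⊆ B := by
      intro y hy
      simp only [hA, hB, Finset.mem_Icc] at hy ⊢
      omega
    calc ∑ x ∈ A, (LtA B t x h).indicator (fun _ => ((h + 1 : ℕ) : ℝ≥0∞)) ω
        ≤ ∑ x ∈ A, (ζ t x : ℝ≥0∞) := by
          refine Finset.sum_le_sum fun x _ => ?_
          by_cases h7 : ω ∈ LtA B t x h
          · rw [indicator_of_mem h7]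
            obtain ⟨ζ', h8, h9⟩ := (h4.ltA_iff ht).1 h7
            rw [h8.unique h4.noTie h5 ht] at h9
            exact_mod_cast h9
          · rw [indicator_of_notMem h7]; exact zero_le
      _ ≤ ∑ x ∈ B, (ζ t x : ℝ≥0∞) := Finset.sum_le_sum_of_subset h6
      _ ≤ mass B ω := by exact_mod_cast h5.sum_le ht
  have h3 : (A.card : ℝ≥0∞) * (((h + 1 : ℕ) : ℝ≥0∞) * μ (LtA A t 0 h)) ≤ A.card * (2 * ρ) := by
    calc (A.card : ℝ≥0∞) * (((h + 1 : ℕ) : ℝ≥0∞) * μ (LtA A t 0 h))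
        = ∑ x ∈ A, ((h + 1 : ℕ) : ℝ≥0∞) * μ (LtA A t 0 h) := by simp
      _ ≤ ∑ x ∈ A, ((h + 1 : ℕ) : ℝ≥0∞) * μ (LtA B t x h) :=
          Finset.sum_le_sum fun x hx => mul_le_mul_right (h1 x hx) _
      _ ≤ B.card * ρ := h2
      _ ≤ A.card * (2 * ρ) := by
          rw [← mul_assoc]
          gcongr
          have : B.card ≤ A.card * 2 := by simp only [hA, hB, Int.card_Icc]; omega
          exact_mod_cast this
  have h4 : (A.card : ℝ≥0∞) ≠ 0 := by
    have : A.card ≠ 0 := by simp only [hA, Int.card_Icc]; omega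
    exact_mod_cast this
  exact (ENNReal.mul_le_mul_iff_right h4 (ENNReal.natCast_ne_top _)).1 h3

lemma ltE_bound {t : ℝ} (ht : 0 ≤ t) (x : ℤ) (h : ℕ) :
    (h + 1 : ℕ) * law ν g δ (LtE t x h) ≤ 2 * ∫⁻ n, (n : ℝ≥0∞) ∂ν := by
  set μ := law ν g δ with hμ
  have h0 : μ (LtE t x h) ≤ μ (LtE t 0 h) := by
    rw [← (act_preserving ν g δ (Equiv.addRight x) (Equiv.refl _)).measure_preimage
      (measurableSet_ltE t 0 h).nullMeasurableSet]
    refine measure_mono_ae ?_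
    filter_upwards [ae_good ν g δ, ae_good_shift ν g δ] with ω h2 h3 h4
    refine ((h3 x).ltE_iff ht).2 ?_
    rw [shift, eta_act (shift_nb x)]
    simpa using (h2.ltE_iff ht).1 h4
  set S : ℕ → Set Omega := fun k => {ω | Good ω ∧ ω ∈ LtA (Finset.Icc (-(k : ℤ)) k) t 0 h} with hS
  have h1 : Monotone S := by
    intro k k' hk ω ⟨h2, h3⟩
    obtain ⟨ζ, h4, h5⟩ := (h2.ltA_iff ht).1 h3
    obtain ⟨ζ', h6⟩ := h2.exists_evol (Finset.Icc (-(k' : ℤ)) k')
    refine ⟨h2, (h2.ltA_iff ht).2 ⟨ζ', h6, h5.trans_le (h4.mono h2.noTie ?_ h6 ht 0)⟩⟩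
    exact Finset.Icc_subset_Icc (by omega) (by omega)
  have h2 : μ (LtE t 0 h) ≤ μ (⋃ k, S k) := by
    refine measure_mono_ae ?_
    filter_upwards [ae_good ν g δ] with ω h2 h3
    obtain ⟨A, hA⟩ := mem_iUnion.1 h3
    obtain ⟨ζ, h4, h5⟩ := (h2.ltA_iff ht).1 hA
    obtain ⟨k, hk⟩ : ∃ k : ℕ, ∀ y ∈ A, y.natAbs ≤ k :=
      ⟨A.sup Int.natAbs, fun y hy => Finset.le_sup (f := Int.natAbs) hy⟩
    obtain ⟨ζ', h6⟩ := h2.exists_evol (Finset.Icc (-(k : ℤ)) k)
    refine mem_iUnion.2 ⟨k, h2, (h2.ltA_iff ht).2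
      ⟨ζ', h6, h5.trans_le (h4.mono h2.noTie (fun y hy => ?_) h6 ht 0)⟩⟩
    have := hk y hy
    rw [Finset.mem_Icc]; omega
  rw [h1.measure_iUnion] at h2
  refine (mul_le_mul_right (h0.trans h2) _).trans ?_
  rw [ENNReal.mul_iSup]
  refine iSup_le fun k => le_trans ?_ (ltA_bound ν g δ ht h k)
  gcongr
  exact fun ω hω => hω.2

end Pool.Agent.Lib.MP_dd0771_pr
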