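import Pool.Agent.Lib.MP_dd0771_pr.Win

open MeasureTheory ProbabilityTheory Set Filter Topology
open scoped NNReal ENNReal

namespace Pool.Agent.Lib.MP_dd0771_pr

lemma measurableSet_sub (r i : ℕ) : MeasurableSet (sub r i) := measurableSet_Ioc

lemma measurable_cntc {J : Set ℝ} (hJ : MeasurableSet J) : Measurable (cntc J) := by
  classical
  refine measurable_from_prod_countable_right fun K => ?_
  simp only [cntc, Finset.card_filter]
  refine Finset.measurable_sum _ fun j _ => Measurable.ite ?_ measurable_const measurable_const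
  exact (measurable_pi_apply j) hJ

lemma measurable_cnt' (y : ℤ) (H : ℕ) {J : Set ℝ} (hJ : MeasurableSet J) :
    Measurable (cnt y H J) :=
  Finset.measurable_sum _ fun _ _ => (measurable_cntc hJ).comp (measurable_pi_apply _)

lemma cell_pgf (lam : ℝ≥0) {J : Set ℝ} (hJ : MeasurableSet J) {p : ℝ} (hp0 : 0 ≤ p)
    (hp : unif J ≤ ENNReal.ofReal p) :
    ∫⁻ c, (2 : ℝ≥0∞) ^ cntc J c ∂cell (poissonMeasure lam) ≤
      ENNReal.ofReal (Real.exp (lam * p)) := by
  classical
  have hm : Measurable fun c => (2 : ℝ≥0∞) ^ cntc J c :=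
    (measurable_of_countable (fun n : ℕ => (2 : ℝ≥0∞) ^ n)).comp (measurable_cntc hJ)
  rw [cell, lintegral_prod _ hm.aemeasurable]
  have hf : Measurable fun u : ℝ => 1 + J.indicator (fun _ => (1 : ℝ≥0∞)) u :=
    (measurable_const.indicator hJ).const_add _
  have h1 : ∀ K : ℕ, ∫⁻ u, (2 : ℝ≥0∞) ^ cntc J (K, u) ∂(Measure.infinitePi fun _ : ℕ => unif) ≤
      ENNReal.ofReal ((1 + p) ^ K) := by
    intro K
    have h2 : ∀ u : ℕ → ℝ, (2 : ℝ≥0∞) ^ cntc J (K, u) =
        ∏ j ∈ Finset.range K, (1 + J.indicator (fun _ => (1 : ℝ≥0∞)) (u j)) := by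
      intro u
      rw [cntc, ← Finset.prod_const, Finset.prod_filter]
      refine Finset.prod_congr rfl fun j _ => ?_
      by_cases h : u j ∈ J
      · simp [h, one_add_one_eq_two]
      · simp [h]
    simp only [h2]
    rw [lintegral_prod_eq_prod_lintegral_of_indepFun _ _
      (iIndepFun_infinitePi (P := fun _ : ℕ => unif)
        (X := fun _ u => 1 + J.indicator (fun _ => (1 : ℝ≥0∞)) u) fun _ => hf)
      fun j => hf.comp (measurable_pi_apply j)]
    have h3 : ∀ j : ℕ, ∫⁻ u : ℕ → ℝ, 1 + J.indicator (fun _ => (1 : ℝ≥0∞)) (u j)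
        ∂(Measure.infinitePi fun _ : ℕ => unif) ≤ ENNReal.ofReal (1 + p) := by
      intro j
      rw [(measurePreserving_eval_infinitePi (fun _ : ℕ => unif) j).lintegral_comp hf,
        lintegral_add_left measurable_const, lintegral_indicator_const hJ,
        ENNReal.ofReal_add zero_le_one hp0]
      simpa using add_le_add_right hp 1
    refine (Finset.prod_le_prod' fun j _ => h3 j).trans ?_
    rw [Finset.prod_const, Finset.card_range, ENNReal.ofReal_pow (by linarith)]
  refine (lintegral_mono h1).trans (le_of_eq ?_)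
  rw [lintegral_countable']
  have h2 : ∀ n : ℕ, ENNReal.ofReal ((1 + p) ^ n) * poissonMeasure lam {n} =
      ENNReal.ofReal (Real.exp (-lam) * ((lam * (1 + p)) ^ n / n.factorial)) := by
    intro n
    rw [poissonMeasure_singleton, ← ENNReal.ofReal_mul (by positivity)]
    congr 1
    rw [mul_pow]; ring
  simp_rw [h2]
  have h3 : HasSum (fun n : ℕ => Real.exp (-lam) * ((lam * (1 + p)) ^ n / n.factorial))
      (Real.exp (lam * p)) := by
    have := (NormedSpace.expSeries_div_hasSum_exp ((lam : ℝ) * (1 + p))).mul_left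
      (Real.exp (-lam))
    rw [← Real.exp_eq_exp_ℝ, ← Real.exp_add] at this
    have e : (lam : ℝ) * p = -lam + lam * (1 + p) := by ring
    rw [e]
    exact this
  rw [← h3.tsum_eq, ENNReal.ofReal_tsum_of_nonneg (fun n => by positivity) h3.summable]

/-- Law of one window. -/
noncomputable def wlaw (g : ℕ → ℝ) (δ : ℝ≥0∞) : Measure Win :=
  Measure.infinitePi fun q => cell (poissonMeasure (rate g δ (some q.2)))

variable (ν : Measure ℕ) [IsProbabilityMeasure ν] (g : ℕ → ℝ) (δ : ℝ≥0∞)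

instance : IsProbabilityMeasure (wlaw g δ) := by unfold wlaw; infer_instance

lemma measurable_win (n : ℕ) : Measurable (win n) :=
  measurable_pi_lambda _ fun _ => measurable_pi_apply _

lemma mp_win (n : ℕ) : MeasurePreserving (win n) (law ν g δ) (wlaw g δ) := by
  refine ⟨measurable_win n, ?_⟩
  exact Measure.map_infinitePi_infinitePi_of_inj
    (P := fun i : Idx => cell (countLaw ν g δ i.2))
    (f := fun q : ℤ × ℕ × Bool => (q.1, some (some q.2, n))) fun q q' h => by
      simp only [Prod.mk.injEq, Option.some.injEq, and_true] at h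
      exact Prod.ext h.1 h.2

lemma unif_sub (r i : ℕ) : unif (sub r i) ≤ ENNReal.ofReal (1 / r) := by
  refine (Measure.restrict_apply_le _ _).trans (le_of_eq ?_)
  rw [sub, Real.volume_Ioc]
  congr 1
  push_cast; ring

lemma unif_sub_pos {r i : ℕ} (hi : i < r) : unif (sub r i) ≠ 0 := by
  have hr : (0 : ℝ) < r := by exact_mod_cast (Nat.zero_le i).trans_lt hi
  have h1 : sub r i ⊆ Ioc 0 1 := by
    refine Ioc_subset_Ioc (by positivity) ?_
    rw [div_le_one hr]; exact_mod_cast hi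
  rw [Measure.restrict_apply (measurableSet_sub r i), inter_eq_left.2 h1, sub, Real.volume_Ioc]
  simp only [ne_eq, ENNReal.ofReal_eq_zero, not_le, sub_pos]
  gcongr
  omega

variable {g} {Γ : ℝ} (hΓ : ∀ k, g (k + 1) - g k ≤ Γ) (hΓ0 : 0 ≤ Γ)
include hΓ hΓ0

lemma cnt_pgf (y : ℤ) (H : ℕ) {J : Set ℝ} (hJ : MeasurableSet J) {p : ℝ} (hp0 : 0 ≤ p)
    (hp : unif J ≤ ENNReal.ofReal p) :
    ∫⁻ w, (2 : ℝ≥0∞) ^ cnt y H J w ∂wlaw g δ ≤ ENNReal.ofReal (Real.exp (H * Γ * p)) := by
  have hm : Measurable fun c => (2 : ℝ≥0∞) ^ cntc J c :=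
    (measurable_of_countable (fun n : ℕ => (2 : ℝ≥0∞) ^ n)).comp (measurable_cntc hJ)
  simp only [cnt, ← Finset.prod_pow_eq_pow_sum]
  have h1 : iIndepFun (fun (q : ℕ × Bool) (w : Win) => (2 : ℝ≥0∞) ^ cntc J (w (y, q)))
      (wlaw g δ) :=
    (iIndepFun_infinitePi (P := fun q : ℤ × ℕ × Bool => cell (poissonMeasure (rate g δ (some q.2))))
      (X := fun _ c => (2 : ℝ≥0∞) ^ cntc J c) fun _ => hm).precomp
      (g := fun q : ℕ × Bool => (y, q)) (Prod.mk_right_injective y)
  rw [lintegral_prod_eq_prod_lintegral_of_indepFun _ _ h1 fun q => hm.comp (measurable_pi_apply _)]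
  have h2 : ∀ q : ℕ × Bool, ∫⁻ w, (2 : ℝ≥0∞) ^ cntc J (w (y, q)) ∂wlaw g δ ≤
      ENNReal.ofReal (Real.exp (Γ / 2 * p)) := by
    intro q
    rw [wlaw, (measurePreserving_eval_infinitePi
      (fun q : ℤ × ℕ × Bool => cell (poissonMeasure (rate g δ (some q.2)))) (y, q)).lintegral_comp hm]
    refine (cell_pgf _ hJ hp0 hp).trans (ENNReal.ofReal_le_ofReal ?_)
    gcongr
    simp only [rate, Real.coe_toNNReal']
    exact max_le (by linarith [hΓ q.1]) (by linarith)
  refine (Finset.prod_le_prod' fun q _ => h2 q).trans (le_of_eq ?_)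
  rw [Finset.prod_const, ← ENNReal.ofReal_pow (Real.exp_nonneg _), ← Real.exp_nat_mul]
  congr 2
  simp; ring

lemma cnt_tail {r : ℕ} (hr : 48 * Γ ≤ r) (hr0 : 0 < r) (y : ℤ) (i : ℕ) {R : ℕ} (hR : 0 < R) :
    wlaw g δ {w | ¬ cnt y (16 * R) (sub r i) w ≤ R} ≤ 3 * (R : ℝ≥0∞)⁻¹ := by
  have hr' : (0 : ℝ) < r := by exact_mod_cast hr0
  have hm : Measurable fun w => (2 : ℝ≥0∞) ^ cnt y (16 * R) (sub r i) w :=
    (measurable_of_countable (fun n : ℕ => (2 : ℝ≥0∞) ^ n)).comp
      (measurable_cnt' y _ measurableSet_Ioc)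
  have h1 := (mul_meas_ge_le_lintegral hm (2 ^ R)).trans
    (cnt_pgf δ hΓ hΓ0 y (16 * R) measurableSet_Ioc (by positivity) (unif_sub r i))
  have h2 : Real.exp ((16 * R : ℕ) * Γ * (1 / r)) ≤ 2 ^ R * (3 / R) := by
    have h3 : ((16 * R : ℕ) : ℝ) * Γ * (1 / r) ≤ R * (1 / 3) := by
      have : Γ * (1 / r) ≤ 1 / 48 := by rw [mul_one_div, div_le_iff₀ hr']; linarith
      push_cast
      nlinarith [Nat.cast_nonneg (α := ℝ) R]
    have h4 : Real.exp (1 / 3) ≤ 3 / 2 :=
      (Real.exp_bound_div_one_sub_of_interval (by norm_num) (by norm_num)).trans (by norm_num)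
    have h5 : (1 : ℝ) + R * (1 / 3) ≤ (1 + 1 / 3) ^ R := one_add_mul_le_pow (by norm_num) R
    have hR' : (0 : ℝ) < R := by exact_mod_cast hR
    calc Real.exp ((16 * R : ℕ) * Γ * (1 / r)) ≤ Real.exp (1 / 3) ^ R := by
          rw [← Real.exp_nat_mul]; gcongr
      _ ≤ (3 / 2) ^ R := by gcongr
      _ ≤ 2 ^ R * (3 / R) := by
          rw [← mul_div_assoc, le_div_iff₀ hR']
          have h6 : (2 : ℝ) ^ R = (3 / 2) ^ R * (1 + 1 / 3) ^ R := by rw [← mul_pow]; norm_num
          rw [h6, mul_assoc]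
          gcongr
          linarith
  have h3 : ENNReal.ofReal (2 ^ R * (3 / R)) = 2 ^ R * (3 * (R : ℝ≥0∞)⁻¹) := by
    rw [ENNReal.ofReal_mul (by positivity), ENNReal.ofReal_pow (by norm_num),
      ENNReal.ofReal_div_of_pos (by exact_mod_cast hR)]
    simp [div_eq_mul_inv]
  have h4 := h1.trans ((ENNReal.ofReal_le_ofReal h2).trans h3.le)
  rw [ENNReal.mul_le_mul_iff_right (by simp) (by simp)] at h4
  refine le_trans (measure_mono fun w hw => ?_) h4
  exact pow_le_pow_right₀ (by norm_num : (1 : ℝ≥0∞) ≤ 2) (not_le.1 hw).le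

omit hΓ hΓ0

/-- A finite constant. -/
noncomputable def C0 : ℝ≥0∞ := ∑' y : ℤ, (2⁻¹ : ℝ≥0∞) ^ y.natAbs

lemma C0_ne_top : C0 ≠ ⊤ := by
  rw [C0, tsum_of_nat_of_neg_add_one ENNReal.summable ENNReal.summable]
  have h2 : ∀ n : ℕ, (-((n : ℤ) + 1)).natAbs = n + 1 := fun n => by omega
  simp only [Int.natAbs_natCast, h2, ENNReal.tsum_geometric_add_one, ENNReal.tsum_geometric]
  simp [ENNReal.mul_eq_top]

lemma inv_bA {M : ℕ} (hM : 0 < M) (y : ℤ) {R : ℕ} (hR : bA M y ≤ R) :
    (R : ℝ≥0∞)⁻¹ ≤ (2⁻¹ : ℝ≥0∞) ^ y.natAbs * (M : ℝ≥0∞)⁻¹ := by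
  have h1 : ((bA M y : ℕ) : ℝ≥0∞) ≤ R := by exact_mod_cast hR
  refine (ENNReal.inv_le_inv.2 h1).trans (le_of_eq ?_)
  simp only [bA, Nat.cast_mul, Nat.cast_pow, Nat.cast_ofNat]
  rw [ENNReal.mul_inv (Or.inl (by exact_mod_cast hM.ne')) (Or.inl (by simp)), ENNReal.inv_pow,
    mul_comm]

lemma measurableSet_yout (M r : ℕ) (S : Set ℤ) : MeasurableSet (Yout M r S) := by
  rw [Yout, measurableSet_setOfPred]
  refine Measurable.forall fun y => Measurable.imp measurable_const (Measurable.forall fun i =>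
    Measurable.imp measurable_const ?_)
  exact measurableSet_setOfPred.1
    (measurableSet_le (measurable_cnt' y _ measurableSet_Ioc) measurable_const)

lemma measurableSet_vn (M n : ℕ) : MeasurableSet (Vn M n) :=
  MeasurableSet.iInter fun _ => (measurableSet_ltE _ _ _).compl

lemma vn_bound {M : ℕ} (hM : 0 < M) (n : ℕ) :
    law ν g δ (Vn M n)ᶜ ≤ (2 * ∫⁻ n, (n : ℝ≥0∞) ∂ν) * C0 * (M : ℝ≥0∞)⁻¹ := by
  rw [Vn, compl_iInter]
  refine (measure_iUnion_le _).trans ?_
  rw [C0, mul_assoc, ← ENNReal.tsum_mul_right, ← ENNReal.tsum_mul_left]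
  refine ENNReal.tsum_le_tsum fun y => ?_
  rw [compl_compl]
  have h1 := ltE_bound ν g δ (Nat.cast_nonneg n) y (8 * bA M y)
  rw [mul_comm, ← ENNReal.le_div_iff_mul_le (Or.inl (by simp))
    (Or.inl (ENNReal.natCast_ne_top _)), div_eq_mul_inv] at h1
  exact h1.trans (mul_le_mul_right (inv_bA hM y (by omega)) _)

include hΓ hΓ0 in
lemma yout_bound {r : ℕ} (hr : 48 * Γ ≤ r) (hr0 : 0 < r) {M : ℕ} (hM : 0 < M) (S : Set ℤ) :
    wlaw g δ (Yout M r S)ᶜ ≤ (r * 3) * C0 * (M : ℝ≥0∞)⁻¹ := by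
  have h1 : (Yout M r S)ᶜ ⊆ ⋃ y, ⋃ i ∈ Finset.range r,
      {w | ¬ cnt y (16 * (2 ^ i * bA M y)) (sub r i) w ≤ 2 ^ i * bA M y} := by
    intro w hw
    by_contra h
    simp only [mem_iUnion, not_exists, mem_ofPred_eq, not_not, Finset.mem_range] at h
    exact hw fun y _ i hi => h y i hi
  refine (measure_mono h1).trans ((measure_iUnion_le _).trans ?_)
  rw [C0, mul_assoc, ← ENNReal.tsum_mul_right, ← ENNReal.tsum_mul_left]
  refine ENNReal.tsum_le_tsum fun y => (measure_biUnion_finset_le _ _).trans ?_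
  have h2 : 0 < bA M y := by simp only [bA]; positivity
  refine (Finset.sum_le_sum fun i _ => (cnt_tail δ hΓ hΓ0 hr hr0 y i (by positivity)).trans
    (mul_le_mul_right (inv_bA hM y (Nat.le_mul_of_pos_left _ (by positivity))) 3)).trans ?_
  simp [mul_assoc]

lemma measurableSet_celSet (M r : ℕ) (a : ℤ) (q : ℤ × ℕ × Bool) :
    MeasurableSet (celSet M r a q) := by
  rw [celSet]
  split_ifs
  · rw [measurableSet_setOfPred]
    refine Measurable.and ?_ (Measurable.forall fun j => Measurable.imp ?_ ?_)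
    · exact measurableSet_setOfPred.1 (measurableSet_eq_fun measurable_fst measurable_const)
    · exact measurableSet_setOfPred.1 (measurableSet_lt measurable_const measurable_fst)
    · exact measurableSet_setOfPred.1
        (((measurable_pi_apply j).comp measurable_snd) measurableSet_Ioc)
  · exact measurableSet_eq_fun measurable_fst measurable_const

lemma measurableSet_zin (M r : ℕ) (a : ℤ) : MeasurableSet (Zin M r a) :=
  MeasurableSet.pi (to_countable _) fun q _ => measurableSet_celSet M r a q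

lemma zin_ne_zero (hg : g 0 < g 1) (M r : ℕ) (a : ℤ) : wlaw g δ (Zin M r a) ≠ 0 := by
  rw [wlaw, Zin, Measure.infinitePi_pi _ fun q _ => measurableSet_celSet M r a q,
    Finset.prod_ne_zero_iff]
  intro q _
  rw [celSet]
  split_ifs with h
  · set S := 3 ^ (q.1 - a).toNat * bS M r a
    have h1 : {c : Cel | c.1 = S ∧ ∀ j < c.1, c.2 j ∈ sub r (q.1 - a).toNat} =
        {S} ×ˢ Set.pi (Finset.range S : Set ℕ) (fun _ => sub r (q.1 - a).toNat) := by
      ext c
      simp only [mem_ofPred_eq, mem_prod, mem_singleton_iff, Set.mem_pi, Finset.mem_coe,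
        Finset.mem_range]
      exact and_congr_right fun h => by rw [h]
    rw [h1, cell, Measure.prod_prod, Measure.infinitePi_pi _ fun _ _ => measurableSet_sub _ _]
    refine mul_ne_zero ?_ (Finset.prod_ne_zero_iff.2 fun _ _ => unif_sub_pos ?_)
    · have h2 : 0 < rate g δ (some q.2) := by
        rw [h.2]; simp only [rate, Real.toNNReal_pos]; linarith
      have := poissonMeasure_real_singleton_pos S h2
      exact fun h3 => by simp [Measure.real, h3] at this
    · have := h.1.1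
      have := h.1.2
      omega
  · have h1 : {c : Cel | c.1 = 0} = {0} ×ˢ univ := by ext c; simp
    rw [h1, cell, Measure.prod_prod, measure_univ, mul_one, poissonMeasure_singleton]
    simp [Real.exp_pos]

/-- The favourable event in one window. -/
def Zw (M r : ℕ) (a : ℤ) : Set Win := Zin M r a ∩ Yout M r (Icc (a - 1) (a + r))

lemma measurableSet_zw (M r : ℕ) (a : ℤ) : MeasurableSet (Zw M r a) :=
  (measurableSet_zin M r a).inter (measurableSet_yout M r _)

lemma zw_ne_zero (hg : g 0 < g 1) {M r : ℕ} {a : ℤ}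
    (h : wlaw g δ (Yout M r (Icc (a - 1) (a + r)))ᶜ < 1) : wlaw g δ (Zw M r a) ≠ 0 := by
  have h1 := measure_inter_of_depOn
    (fun q : ℤ × ℕ × Bool => cell (poissonMeasure (rate g δ (some q.2))))
    (measurableSet_zin M r a) (measurableSet_yout M r (Icc (a - 1) (a + r)))
    (S := {q | q.1 ∈ Icc (a - 1) (a + r)}) (T := {q | q.1 ∈ Icc (a - 1) (a + r)}ᶜ) ?_ ?_
    disjoint_compl_right
  · rw [Zw, wlaw, h1]
    refine mul_ne_zero (zin_ne_zero δ hg M r a) fun h2 => ?_
    rw [prob_compl_eq_one_sub (measurableSet_yout M r _), wlaw, h2] at h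
    simp at h
  · intro w w' h2 h3 q hq
    rw [← h2 q (Finset.mem_Icc.1 (Finset.mem_product.1 (Finset.mem_coe.1 hq)).1)]
    exact h3 q hq
  · intro w w' h2 h3 y hy i hi
    have h4 : ∀ q, w (y, q) = w' (y, q) := fun q => h2 (y, q) hy
    have := h3 y hy i hi
    simpa only [cnt, h4] using this

end Pool.Agent.Lib.MP_dd0771_pr
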