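import Pool.Agent.Lib.MP_dd0771_pr.Enum

open MeasureTheory ProbabilityTheory Set Filter Topology
open scoped NNReal ENNReal

namespace Pool.Agent.Lib.MP_dd0771_pr

/-- The process is locally bounded. -/
def Bdd (ω : Omega) : Prop := ∀ (T : ℝ) (y : ℤ), ∃ H : ℕ, ∀ v ∈ Icc 0 T, eta ω v y ≤ H

variable {ω : Omega}

lemma bdd_of_windows (h : ∀ (n : ℕ) (y : ℤ), ∃ H : ℕ, ∀ v ∈ Icc (n : ℝ) (n + 1), eta ω v y ≤ H) :
    Bdd ω := by
  intro T y
  choose H hH using fun n => h n y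
  obtain ⟨N, hN⟩ := exists_nat_gt T
  refine ⟨(Finset.range N).sup H, fun v hv => ?_⟩
  have h1 : ⌊v⌋₊ < N := by rw [Nat.floor_lt hv.1]; exact hv.2.trans_lt hN
  refine (hH ⌊v⌋₊ v ⟨Nat.floor_le hv.1, (Nat.lt_floor_add_one v).le⟩).trans ?_
  exact_mod_cast Finset.le_sup (f := H) (Finset.mem_range.2 h1)

lemma IsEvol.le_eta {A : Finset ℤ} {ζ : ℝ → ℤ → ℕ} (h : IsEvol A ω ζ) (t : ℝ) (x : ℤ) :
    (ζ t x : ℕ∞) ≤ eta ω t x :=
  le_iSup_of_le A (le_iSup₂_of_le (f := fun ζ (_ : IsEvol A ω ζ) => (ζ t x : ℕ∞)) ζ h le_rfl)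

lemma eta_congr {s t : ℝ} {x : ℤ} (h : ∀ A ζ, IsEvol A ω ζ → ζ s x = ζ t x) :
    eta ω s x = eta ω t x :=
  iSup_congr fun A => iSup_congr fun ζ => iSup_congr fun hζ => by rw [h A ζ hζ]

lemma Bdd.three (h : Bdd ω) (T : ℝ) (x : ℤ) : ∃ H : ℕ, ∀ A ζ, IsEvol A ω ζ → ∀ v ∈ Icc 0 T,
    ∀ y, |y - x| ≤ 1 → ζ v y ≤ H := by
  obtain ⟨H1, h1⟩ := h T (x - 1)
  obtain ⟨H2, h2⟩ := h T x
  obtain ⟨H3, h3⟩ := h T (x + 1)
  refine ⟨H1 + H2 + H3, fun A ζ hζ v hv y hy => ?_⟩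
  have h4 := eta_le_iff.1 (h1 v hv) A ζ hζ
  have h5 := eta_le_iff.1 (h2 v hv) A ζ hζ
  have h6 := eta_le_iff.1 (h3 v hv) A ζ hζ
  rw [abs_le] at hy
  have : y = x - 1 ∨ y = x ∨ y = x + 1 := by omega
  rcases this with rfl | rfl | rfl <;> omega

lemma Good.three_finite (h : Good ω) (x : ℤ) (H : ℕ) (T : ℝ) :
    {v | v ≤ T ∧ ∃ y, |y - x| ≤ 1 ∧ v ∈ rings ω y H}.Finite := by
  refine (((h.rings_finite (x - 1) H T).union (h.rings_finite x H T)).union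
    (h.rings_finite (x + 1) H T)).subset ?_
  rintro v ⟨h1, y, hy, h2⟩
  rw [abs_le] at hy
  have : y = x - 1 ∨ y = x ∨ y = x + 1 := by omega
  rcases this with rfl | rfl | rfl
  · exact Or.inl (Or.inl ⟨h2, h1⟩)
  · exact Or.inl (Or.inr ⟨h2, h1⟩)
  · exact Or.inr ⟨h2, h1⟩

lemma evol_right (hG : Good ω) (hB : Bdd ω) {t : ℝ} (ht : 0 ≤ t) (x : ℤ) :
    ∀ᶠ u in 𝓝[>] t, ∀ A ζ, IsEvol A ω ζ → ζ u x = ζ t x := by
  obtain ⟨H, hH⟩ := hB.three (t + 1) x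
  filter_upwards [ev_right_notMem (hG.three_finite x H (t + 1)) t,
    Ioo_mem_nhdsGT (lt_add_one t)] with u h1 h2 A ζ hζ
  refine hζ.const ht (b := u) (H := H) (fun v hv => hH A ζ hζ v ⟨ht.trans hv.1, ?_⟩)
    (fun v hv y hy h3 => h1 v hv ⟨hv.2.trans h2.2.le, y, hy, h3⟩) u ⟨h2.1.le, le_rfl⟩
  exact hv.2.le.trans h2.2.le

lemma eta_right (hG : Good ω) (hB : Bdd ω) {t : ℝ} (ht : 0 ≤ t) (x : ℤ) :
    ∀ᶠ u in 𝓝[>] t, eta ω u x = eta ω t x :=
  (evol_right hG hB ht x).mono fun _ h => eta_congr h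

lemma evol_left (hG : Good ω) (hB : Bdd ω) {t : ℝ} (ht : 0 < t) (x : ℤ) :
    ∀ᶠ s in 𝓝[<] t, ∀ u ∈ Ico s t, ∀ A ζ, IsEvol A ω ζ → ζ u x = ζ s x := by
  obtain ⟨H, hH⟩ := hB.three t x
  filter_upwards [ev_left_notMem (hG.three_finite x H t) t, Ioo_mem_nhdsLT ht]
    with s h1 h2 u hu A ζ hζ
  refine hζ.const h2.1.le (b := u) (H := H) (fun v hv => hH A ζ hζ v ⟨h2.1.le.trans hv.1, ?_⟩)
    (fun v hv y hy h3 => h1 v ⟨hv.1.le, hv.2.trans_lt hu.2⟩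
      ⟨hv.2.trans hu.2.le, y, hy, h3⟩) u ⟨hu.1, le_rfl⟩
  exact hv.2.le.trans hu.2.le

lemma eta_attained (hG : Good ω) (hB : Bdd ω) {t : ℝ} (ht : 0 ≤ t) (x : ℤ) :
    ∃ A0 : Finset ℤ, ∀ A ζ, A0 ⊆ A → IsEvol A ω ζ → (ζ t x : ℕ∞) = eta ω t x := by
  obtain ⟨H, hH⟩ := hB t x
  have h1 : eta ω t x ≠ ⊤ := ne_top_of_le_ne_top (ENat.natCast_ne_top H) (hH t ⟨ht, le_rfl⟩)
  obtain ⟨m, hm⟩ := ENat.ne_top_iff_exists.1 h1
  rcases m with _ | m
  · refine ⟨∅, fun A ζ _ hζ => le_antisymm (hζ.le_eta t x) ?_⟩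
    rw [← hm]; simp
  · obtain ⟨A0, ζ0, h2, h3⟩ := (lt_eta_iff (ω := ω) (t := t) (x := x) (k := m)).1
      (by rw [← hm]; exact_mod_cast Nat.lt_succ_self m)
    refine ⟨A0, fun A ζ hA hζ => le_antisymm (hζ.le_eta t x) ?_⟩
    have := h2.mono hG.noTie hA hζ ht x
    rw [← hm]
    exact_mod_cast (show m + 1 ≤ ζ t x by omega)

lemma wellPosed (hG : Good ω) (hB : Bdd ω) : WellPosed ω := by
  classical
  have hfin : ∀ t, 0 ≤ t → ∀ x, eta ω t x = ((eta ω t x).toNat : ℕ) := by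
    intro t ht x
    obtain ⟨H, hH⟩ := hB t x
    exact (ENat.natCast_toNat (ne_top_of_le_ne_top (ENat.natCast_ne_top H) (hH t ⟨ht, le_rfl⟩))).symm
  refine ⟨fun A => ?_, fun t x => (eta ω t x).toNat, hfin, fun x => ?_, fun t ht x => ?_,
    fun t ht x => ?_⟩
  · obtain ⟨ζ, hζ⟩ := hG.exists_evol A
    exact ⟨ζ, hζ, fun ζ' hζ' t ht => hζ'.unique hG.noTie hζ ht⟩
  · obtain ⟨A0, hA⟩ := eta_attained hG hB le_rfl x
    obtain ⟨ζ, hζ⟩ := hG.exists_evol (insert x A0)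
    simp only [← hA _ ζ (Finset.subset_insert _ _) hζ, hζ.1]
    simp
  · filter_upwards [eta_right hG hB ht x] with u hu
    rw [hu]
  · obtain ⟨s, ⟨⟨h1, h2⟩, h3⟩, h4⟩ := ((((evol_left hG hB ht (x - 1)).and
      (evol_left hG hB ht x)).and (evol_left hG hB ht (x + 1))).and (Ioo_mem_nhdsLT ht)).exists
    have h5 : ∀ y, |y - x| ≤ 1 → ∀ u ∈ Ico s t, ∀ A ζ, IsEvol A ω ζ → ζ u y = ζ s y := by
      intro y hy
      rw [abs_le] at hy
      have : y = x - 1 ∨ y = x ∨ y = x + 1 := by omega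
      rcases this with rfl | rfl | rfl <;> assumption
    have h6 : ∀ y, |y - x| ≤ 1 → ∀ᶠ u in 𝓝[<] t, eta ω u y = eta ω s y := by
      intro y hy
      filter_upwards [Ico_mem_nhdsLT h4.2] with u hu
      exact eta_congr (h5 y hy u hu)
    obtain ⟨A1, hA1⟩ := eta_attained hG hB h4.1.le (x - 1)
    obtain ⟨A2, hA2⟩ := eta_attained hG hB h4.1.le x
    obtain ⟨A3, hA3⟩ := eta_attained hG hB h4.1.le (x + 1)
    obtain ⟨A4, hA4⟩ := eta_attained hG hB ht.le x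
    obtain ⟨ζ, hζ⟩ := hG.exists_evol (insert x (A1 ∪ A2 ∪ A3 ∪ A4))
    have hx : x ∈ insert x (A1 ∪ A2 ∪ A3 ∪ A4) := Finset.mem_insert_self _ _
    have h7 : ∀ y, |y - x| ≤ 1 → (ζ s y : ℕ∞) = eta ω s y := by
      intro y hy
      rw [abs_le] at hy
      have : y = x - 1 ∨ y = x ∨ y = x + 1 := by omega
      rcases this with rfl | rfl | rfl
      · exact hA1 _ ζ (fun z hz => by simp [hz]) hζ
      · exact hA2 _ ζ (fun z hz => by simp [hz]) hζ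
      · exact hA3 _ ζ (fun z hz => by simp [hz]) hζ
    have h8 : (eta ω t x).toNat = ζ t x := by
      rw [← hA4 _ ζ (fun z hz => by simp [hz]) hζ]; simp
    obtain ⟨ξ, h9, h10⟩ := hζ.2.2 t ht
    have h11 : ∀ y, |y - x| ≤ 1 → ∀ᶠ u in 𝓝[<] t, eta ω u y = ξ y := by
      intro y hy
      obtain ⟨u, h11, h12⟩ := (h9.and (Ico_mem_nhdsLT h4.2)).exists
      rw [← h11, h5 y hy u h12 _ ζ hζ, h7 y hy]
      exact h6 y hy
    have h12 : ∀ y, |y - x| ≤ 1 → ∀ k : ℕ,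
        (∀ᶠ u in 𝓝[<] t, (k : ℕ∞) < eta ω u y) ↔ k < ξ y := by
      intro y hy k
      constructor
      · intro h12
        obtain ⟨u, h13, h14⟩ := (h12.and (h11 y hy)).exists
        rw [h14] at h13
        exact_mod_cast h13
      · intro h12
        filter_upwards [h11 y hy] with u hu
        rw [hu]; exact_mod_cast h12
    have hxx : |x - x| ≤ 1 := by simp
    have hnb : ∀ y e, x = nb y e → |y - x| ≤ 1 := by
      intro y e h
      rw [abs_le]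
      rcases nb_cases y e with h' | h' <;> omega
    refine ⟨ξ x, ?_, ?_⟩
    · filter_upwards [h11 x hxx] with u hu
      rw [hu]; simp
    simp only [h8]
    rcases h10 with ⟨h13, h10⟩ | ⟨y, k, e, h13, hk, h10⟩
    · have h14 : ¬ ∃ y, Jump ω t x y := by
        rintro ⟨y, k, e, h14, -, h15⟩
        exact absurd ((h12 x hxx k).1 h15) (not_lt.2 (h13 x k e h14))
      have h15 : ¬ ∃ y, Jump ω t y x := by
        rintro ⟨y, k, e, h14, h16, h15⟩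
        exact absurd ((h12 y (hnb y e h16) k).1 h15) (not_lt.2 (h13 y k e h14))
      rw [if_neg h14, if_neg h15, h10]
    · rw [h10]
      by_cases h14 : y = x
      · subst h14
        have h15 : ∃ z, Jump ω t y z := ⟨_, k, e, h13, rfl, (h12 y hxx k).2 hk⟩
        have h16 : ¬ ∃ z, Jump ω t z y := by
          rintro ⟨z, k', e', h16, h17, -⟩
          obtain ⟨rfl, -, -⟩ := hG.noTie _ _ _ _ _ _ _ h13 h16
          exact nb_ne _ _ h17.symm
        rw [if_pos h15, if_neg h16]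
        simp only [move, (nb_ne y e).symm, false_and, if_true, if_false]
        omega
      · have h15 : ¬ ∃ z, Jump ω t x z := by
          rintro ⟨z, k', e', h16, -, -⟩
          exact h14 (hG.noTie _ _ _ _ _ _ _ h13 h16).1
        rw [if_neg h15]
        by_cases h16 : x = nb y e
        · have h17 : ∃ z, Jump ω t z x := ⟨y, k, e, h13, h16, (h12 y (hnb y e h16) k).2 hk⟩
          rw [if_pos h17]
          simp only [move, ← h16, Ne.symm h14, hx, and_self, if_true, if_false]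
          omega
        · have h17 : ¬ ∃ z, Jump ω t z x := by
            rintro ⟨z, k', e', h17, h18, -⟩
            obtain ⟨rfl, -, rfl⟩ := hG.noTie _ _ _ _ _ _ _ h13 h17
            exact h16 h18
          rw [if_neg h17]
          simp [move, h16, Ne.symm h14]

end Pool.Agent.Lib.MP_dd0771_pr
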