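import Pool.Agent.Lib.MP_dd0771_pr.Meas

open MeasureTheory ProbabilityTheory Set Filter Topology
open scoped NNReal ENNReal symmDiff

namespace Pool.Agent.Lib.MP_dd0771_pr

/-- Action of a symmetry on the cells. -/
def imap (σ : ℤ ≃ ℤ) (f : Bool ≃ Bool) (i : Idx) : Idx :=
  (σ i.1, i.2.map (Prod.map (Option.map (Prod.map id f)) id))

/-- Action of a symmetry on sample points. -/
def act (σ : ℤ ≃ ℤ) (f : Bool ≃ Bool) (ω : Omega) : Omega := fun i => ω (imap σ f i)

lemma imap_imap (σ : ℤ ≃ ℤ) (f : Bool ≃ Bool) (i : Idx) : imap σ f (imap σ.symm f.symm i) = i := by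
  obtain ⟨x, _ | ⟨_ | ⟨k, e⟩, n⟩⟩ := i <;> simp [imap]

lemma imap_inj (σ : ℤ ≃ ℤ) (f : Bool ≃ Bool) : Function.Injective (imap σ f) :=
  Function.LeftInverse.injective (g := imap σ.symm f.symm) fun i => imap_imap σ.symm f.symm i

lemma act_act (σ : ℤ ≃ ℤ) (f : Bool ≃ Bool) (ω : Omega) : act σ.symm f.symm (act σ f ω) = ω := by
  ext1 i; simp only [act, imap_imap]

section Cov

variable {σ : ℤ ≃ ℤ} {f : Bool ≃ Bool} {ω : Omega} {δ : ℝ≥0∞}

lemma pts_act (x : ℤ) (k : ℕ) (e : Bool) :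
    pts (act σ f ω) x (some (k, e)) = pts ω (σ x) (some (k, f e)) := rfl

lemma marks_act (x : ℤ) : marks δ (act σ f ω) x = marks δ ω (σ x) := rfl

variable (h : ∀ x e, σ (nb x e) = nb (σ x) (f e))
include h

lemma symm_nb (x : ℤ) (e : Bool) : σ.symm (nb x e) = nb (σ.symm x) (f.symm e) := by
  apply σ.injective; simp [h]

lemma IsEvol.act {A : Finset ℤ} {ζ : ℝ → ℤ → ℕ} (hζ : IsEvol A (act σ f ω) ζ) :
    IsEvol (A.map σ.toEmbedding) ω (fun t y => ζ t (σ.symm y)) := by
  refine ⟨fun x => ?_, fun t ht => ?_, fun t ht => ?_⟩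
  · simp only [hζ.1, Finset.mem_map_equiv, MP_dd0771_pr.act, imap]
    simp
  · filter_upwards [hζ.2.1 t ht] with u hu
    rw [hu]
  · obtain ⟨ξ, h1, h2⟩ := hζ.2.2 t ht
    refine ⟨fun y => ξ (σ.symm y), ?_, ?_⟩
    · filter_upwards [h1] with u hu
      rw [hu]
    · rcases h2 with ⟨h3, h2⟩ | ⟨x, k, e, h3, h4, h2⟩
      · refine Or.inl ⟨fun x k e h4 => h3 _ k (f.symm e) ?_, by simp only [h2]⟩
        rw [pts_act]; simpa using h4
      · refine Or.inr ⟨σ x, k, f e, h3, by simpa using h4, ?_⟩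
        ext z
        simp only [h2, move, ← h, Finset.mem_map_equiv, Equiv.symm_apply_apply, Equiv.symm_apply_eq]

lemma eta_act_le (t : ℝ) (x : ℤ) : eta (act σ f ω) t x ≤ eta ω t (σ x) := by
  refine iSup_le fun A => iSup_le fun ζ => iSup_le fun hζ => ?_
  simpa using (hζ.act h).le_eta t (σ x)

lemma eta_act (t : ℝ) (x : ℤ) : eta (act σ f ω) t x = eta ω t (σ x) := by
  refine le_antisymm (eta_act_le h t x) ?_
  have := eta_act_le (ω := act σ f ω) (symm_nb h) t (σ x)
  simpa only [act_act, Equiv.symm_apply_apply] using this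

lemma jump_act (t : ℝ) (x y : ℤ) : Jump (act σ f ω) t x y ↔ Jump ω t (σ x) (σ y) := by
  simp only [Jump, pts_act, eta_act h]
  constructor
  · rintro ⟨k, e, h1, rfl, h2⟩
    exact ⟨k, f e, h1, h x e, h2⟩
  · rintro ⟨k, e, h1, h2, h3⟩
    refine ⟨k, f.symm e, by simpa using h1, ?_, h3⟩
    apply σ.injective; simp [h, h2]

lemma isPath_act (t : ℝ) (γ : ℝ → ℤ) :
    IsPath δ (act σ f ω) t γ ↔ IsPath δ ω t (fun u => σ (γ u)) := by
  simp only [IsPath, jump_act h, eta_act h, marks_act, σ.injective.eq_iff]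
  refine and_congr Iff.rfl (and_congr (forall₂_congr fun u _ => ?_) Iff.rfl)
  constructor
  · rintro ⟨z, h1, h2⟩
    exact ⟨σ z, h1.mono fun v hv => by rw [hv], fun h3 => h2 fun h4 => h3 (by rw [h4])⟩
  · rintro ⟨z, h1, h2⟩
    refine ⟨σ.symm z, h1.mono fun v hv => by rw [← hv]; simp, fun h3 => ?_⟩
    simpa using h2 fun h4 => h3 (by rw [← h4]; simp)

lemma conn_act (x : ℤ) (t : ℝ) (y : ℤ) : Conn δ (act σ f ω) x t y ↔ Conn δ ω (σ x) t (σ y) := by
  constructor
  · rintro ⟨γ, h1, rfl, rfl⟩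
    exact ⟨_, (isPath_act h t γ).1 h1, rfl, rfl⟩
  · rintro ⟨γ, h1, h2, h3⟩
    refine ⟨fun u => σ.symm (γ u), (isPath_act h t _).2 (by simpa using h1), ?_, ?_⟩
    · simp [h2]
    · simp [h3]

end Cov

/-- Translation. -/
def shift (z : ℤ) : Omega → Omega := act (Equiv.addRight z) (Equiv.refl _)
/-- Reflection. -/
def refl : Omega → Omega := act (Equiv.neg ℤ) Equiv.boolNot

lemma shift_nb (z x : ℤ) (e : Bool) :
    Equiv.addRight z (nb x e) = nb (Equiv.addRight z x) (Equiv.refl _ e) := by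
  cases e <;> simp [nb] <;> ring

lemma refl_nb (x : ℤ) (e : Bool) : Equiv.neg ℤ (nb x e) = nb (Equiv.neg ℤ x) (Equiv.boolNot e) := by
  cases e <;> simp [nb] <;> ring

variable {ω : Omega} {δ : ℝ≥0∞}

lemma conn_shift (z x : ℤ) (t : ℝ) (y : ℤ) :
    Conn δ (shift z ω) x t y ↔ Conn δ ω (x + z) t (y + z) := conn_act (shift_nb z) x t y

lemma conn_refl (x : ℤ) (t : ℝ) (y : ℤ) :
    Conn δ (refl ω) x t y ↔ Conn δ ω (-x) t (-y) := conn_act refl_nb x t y

lemma up_shift {z : ℤ} (h : Up δ (shift z ω) 0) : Up δ ω z := by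
  intro N
  obtain ⟨n, y, h1, h2⟩ := h (N - z)
  rw [conn_shift, zero_add] at h2
  exact ⟨n, y + z, by omega, h2⟩

lemma surv_shift {z : ℤ} (h : Surv δ (shift z ω) 0) : Surv δ ω z := by
  intro n
  obtain ⟨y, h2⟩ := h n
  rw [conn_shift, zero_add] at h2
  exact ⟨_, h2⟩

lemma evR_shift {z : ℤ} (h : EvR δ (shift z ω) 0) : EvR δ ω z := by
  obtain ⟨h1, N, h2⟩ := h
  refine ⟨surv_shift h1, N, fun n hn y hy => ?_⟩
  have := h2 n hn (y - z) (by rw [conn_shift]; simpa using hy)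
  omega

lemma evL_shift {z : ℤ} (h : EvL δ (shift z ω) 0) : EvL δ ω z := by
  obtain ⟨h1, N, h2⟩ := h
  refine ⟨surv_shift h1, N, fun n hn y hy => ?_⟩
  have := h2 n hn (y - z) (by rw [conn_shift]; simpa using hy)
  omega

lemma surv_refl (h : Surv δ ω 0) : Surv δ (refl ω) 0 := by
  intro n
  obtain ⟨y, h2⟩ := h n
  exact ⟨-y, by rw [conn_refl]; simpa using h2⟩

lemma up_refl (h : Down δ ω 0) : Up δ (refl ω) 0 := by
  intro N
  obtain ⟨n, y, h1, h2⟩ := h (-N)
  exact ⟨n, -y, by omega, by rw [conn_refl]; simpa using h2⟩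

lemma evR_refl (h : EvL δ ω 0) : EvR δ (refl ω) 0 := by
  obtain ⟨h1, N, h2⟩ := h
  refine ⟨surv_refl h1, N, fun n hn y hy => ?_⟩
  have := h2 n hn (-y) (by rw [conn_refl] at hy; simpa using hy)
  omega

lemma evL_refl (h : EvR δ ω 0) : EvL δ (refl ω) 0 := by
  obtain ⟨h1, N, h2⟩ := h
  refine ⟨surv_refl h1, N, fun n hn y hy => ?_⟩
  have := h2 n hn (-y) (by rw [conn_refl] at hy; simpa using hy)
  omega

instance : IsProbabilityMeasure ((volume : Measure ℝ).restrict (Ioc 0 1)) := ⟨by simp⟩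

instance (m : Measure ℕ) [IsProbabilityMeasure m] : IsProbabilityMeasure (cell m) := by
  unfold cell; infer_instance

variable (ν : Measure ℕ) [IsProbabilityMeasure ν] (g : ℕ → ℝ) (δ : ℝ≥0∞)

instance (s : Option (Option (ℕ × Bool) × ℕ)) : IsProbabilityMeasure (countLaw ν g δ s) := by
  cases s <;> simp only [countLaw] <;> infer_instance

instance : IsProbabilityMeasure (law ν g δ) := by
  unfold law; infer_instance

lemma measurable_act (σ : ℤ ≃ ℤ) (f : Bool ≃ Bool) : Measurable (act σ f) :=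
  measurable_pi_lambda _ fun _ => measurable_pi_apply _

lemma act_preserving (σ : ℤ ≃ ℤ) (f : Bool ≃ Bool) :
    MeasurePreserving (act σ f) (law ν g δ) (law ν g δ) := by
  refine ⟨measurable_act σ f, ?_⟩
  have := Measure.map_infinitePi_infinitePi_of_inj
    (P := fun i : Idx => cell (countLaw ν g δ i.2)) (imap_inj σ f)
  refine this.trans ?_
  unfold law
  congr 1
  ext1 i
  obtain ⟨x, _ | ⟨_ | ⟨k, e⟩, n⟩⟩ := i <;> rfl

/-- The event depends only on the cells in `T`. -/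
def DepOn {ι X : Type} (E : Set (ι → X)) (T : Set ι) : Prop :=
  ∀ ω ω' : ι → X, (∀ x ∈ T, ω x = ω' x) → ω ∈ E → ω' ∈ E

section Dep

variable {ι X : Type}

lemma DepOn.mono {E : Set (ι → X)} {T T' : Set ι} (h : DepOn E T) (hT : T ⊆ T') : DepOn E T' :=
  fun ω ω' hω => h ω ω' fun x hx => hω x (hT hx)

lemma DepOn.compl {E : Set (ι → X)} {T : Set ι} (h : DepOn E T) : DepOn Eᶜ T :=
  fun ω ω' hω h1 h2 => h1 (h ω' ω (fun x hx => (hω x hx).symm) h2)

lemma DepOn.inter {E F : Set (ι → X)} {T : Set ι} (h : DepOn E T) (h' : DepOn F T) :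
    DepOn (E ∩ F) T := fun ω ω' hω h1 => ⟨h ω ω' hω h1.1, h' ω ω' hω h1.2⟩

variable [mX : MeasurableSpace X]

lemma measurableSet_of_depOn [Nonempty X] {E : Set (ι → X)} {T : Set ι}
    (hE : MeasurableSet E) (hd : DepOn E T) (m : MeasurableSpace (ι → X))
    (hm : ∀ x ∈ T, MeasurableSpace.comap (fun ω : ι → X => ω x) mX ≤ m) :
    MeasurableSet[m] E := by
  classical
  obtain ⟨x0⟩ := ‹Nonempty X›
  let f : (ι → X) → (ι → X) := fun ω x => if x ∈ T then ω x else x0
  have hf : @Measurable _ _ m MeasurableSpace.pi f := by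
    refine @measurable_pi_lambda _ _ _ m _ f fun x => ?_
    by_cases hx : x ∈ T
    · simp only [f, hx, if_true]
      exact measurable_iff_comap_le.2 (hm x hx)
    · simp only [f, hx, if_false]
      exact measurable_const
  have : E = f ⁻¹' E := by
    ext ω
    constructor
    · intro h
      exact hd ω (f ω) (fun x hx => by simp [f, hx]) h
    · intro h
      exact hd (f ω) ω (fun x hx => by simp [f, hx]) h
  rw [this]
  exact hf hE

lemma measure_inter_of_depOn [Nonempty X] (π : ι → Measure X) [∀ i, IsProbabilityMeasure (π i)]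
    {E F : Set (ι → X)} {S T : Set ι}
    (hE : MeasurableSet E) (hF : MeasurableSet F) (dE : DepOn E S) (dF : DepOn F T)
    (hST : Disjoint S T) :
    Measure.infinitePi π (E ∩ F) = Measure.infinitePi π E * Measure.infinitePi π F := by
  have h := indep_iSup_of_disjoint
    (fun x : ι => measurable_iff_comap_le.1 (measurable_pi_apply (X := fun _ : ι => X) x))
    (iIndepFun_infinitePi (P := π) (X := fun _ a => a) (fun _ => measurable_id)).iIndep hST
  rw [Indep_iff] at h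
  refine h E F ?_ ?_
  · exact measurableSet_of_depOn hE dE _ fun x hx => le_iSup₂_of_le x hx le_rfl
  · exact measurableSet_of_depOn hF dF _ fun x hx => le_iSup₂_of_le x hx le_rfl

lemma exists_approx (μ : Measure (ι → X)) [IsProbabilityMeasure μ] {E : Set (ι → X)}
    (hE : MeasurableSet E) {ε : ℝ≥0∞} (hε : 0 < ε) :
    ∃ (C : Set (ι → X)) (s : Finset ι), MeasurableSet C ∧ DepOn C s ∧ μ (C ∆ E) < ε := by
  obtain ⟨C, hC, h⟩ := exists_measure_symmDiff_lt_of_generateFrom_isSetRing (μ := μ)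
    (isSetRing_measurableCylinders (α := fun _ : ι => X))
    ⟨{univ}, countable_singleton _, singleton_subset_iff.2 (univ_mem_measurableCylinders (fun _ : ι => X)), by simp⟩
    generateFrom_measurableCylinders.symm hE hε
  obtain ⟨s, S, hS, rfl⟩ := (mem_measurableCylinders _).1 hC
  refine ⟨_, s, hS.cylinder, fun ω ω' h1 h2 => ?_, h⟩
  have : s.restrict ω = s.restrict ω' := funext fun i => h1 i i.2
  rw [mem_cylinder] at h2 ⊢
  rwa [← this]

end Dep

lemma measureReal_le_symm {μ : Measure Omega} [IsProbabilityMeasure μ] (E C : Set Omega) :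
    μ.real E ≤ μ.real C + μ.real (C ∆ E) := by
  refine le_trans (measureReal_mono ?_) (measureReal_union_le _ _)
  intro ω h
  by_cases h1 : ω ∈ C
  · exact Or.inl h1
  · exact Or.inr (Or.inr ⟨h, h1⟩)

lemma recur_aux {E : Set Omega} (hE : MeasurableSet E) (h0 : law ν g δ E ≠ 0) (Z : Set ℤ)
    (hZ : ∀ N : ℕ, ∃ z ∈ Z, (N : ℤ) < |z|) : ∀ᵐ ω ∂law ν g δ, ∃ z ∈ Z, shift z ω ∈ E := by
  set μ := law ν g δ with hμ
  have hp : ∀ z, MeasurePreserving (shift z) μ μ := fun z => act_preserving ν g δ _ _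
  set B : Set Omega := ⋂ z ∈ Z, (shift z ⁻¹' E)ᶜ with hB
  have hBm : MeasurableSet B :=
    MeasurableSet.biInter (to_countable Z) fun z _ => ((hp z).measurable hE).compl
  have ha : 0 < μ.real E := ENNReal.toReal_pos h0 (measure_ne_top _ _)
  have key : ∀ ε : ℝ, 0 < ε → μ.real E * μ.real B ≤ 4 * ε := by
    intro ε hε
    obtain ⟨C, s, hC, dC, hCE⟩ := exists_approx μ hE (ENNReal.ofReal_pos.2 hε)
    obtain ⟨D, t, hD, dD, hDB⟩ := exists_approx μ hBm (ENNReal.ofReal_pos.2 hε)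
    have hCE' : μ.real (C ∆ E) ≤ ε := ENNReal.toReal_le_of_le_ofReal hε.le hCE.le
    have hDB' : μ.real (D ∆ B) ≤ ε := ENNReal.toReal_le_of_le_ofReal hε.le hDB.le
    obtain ⟨M1, hM1⟩ : ∃ M : ℕ, ∀ i ∈ s, i.1.natAbs ≤ M :=
      ⟨s.sup (fun i => i.1.natAbs), fun i hi => Finset.le_sup (f := fun i : Idx => i.1.natAbs) hi⟩
    obtain ⟨M2, hM2⟩ : ∃ M : ℕ, ∀ i ∈ t, i.1.natAbs ≤ M :=
      ⟨t.sup (fun i => i.1.natAbs), fun i hi => Finset.le_sup (f := fun i : Idx => i.1.natAbs) hi⟩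
    obtain ⟨z, hz, hz'⟩ := hZ (M1 + M2)
    have d2 : DepOn (shift z ⁻¹' C) (imap (Equiv.addRight z) (Equiv.refl _) '' s) :=
      fun ω ω' h1 h2 => dC _ _ (fun i hi => h1 _ ⟨i, hi, rfl⟩) h2
    have hdis : Disjoint (t : Set Idx) (imap (Equiv.addRight z) (Equiv.refl _) '' s) := by
      rw [Set.disjoint_left]
      rintro _ h1 ⟨i, hi, rfl⟩
      have h2 := hM2 _ (Finset.mem_coe.1 h1)
      have h3 := hM1 _ (Finset.mem_coe.1 hi)
      simp only [imap, Equiv.coe_addRight] at h2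
      push_cast at hz'
      rw [lt_abs] at hz'
      omega
    have h1 : μ.real (D ∩ shift z ⁻¹' C) = μ.real D * μ.real C := by
      have := measure_inter_of_depOn (fun i : Idx => cell (countLaw ν g δ i.2)) hD
        ((hp z).measurable hC) dD d2 hdis
      rw [Measure.real, Measure.real, Measure.real, ← ENNReal.toReal_mul,
        ← (hp z).measure_preimage hC.nullMeasurableSet]
      exact congrArg ENNReal.toReal this
    have h2 : μ.real (D ∩ shift z ⁻¹' C) ≤ μ.real (D ∆ B) + μ.real (shift z ⁻¹' (C ∆ E)) := by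
      refine le_trans (measureReal_mono ?_) (measureReal_union_le _ _)
      rintro ω ⟨h3, h4⟩
      by_cases h5 : ω ∈ B
      · exact Or.inr (Or.inl ⟨h4, mem_iInter₂.1 h5 z hz⟩)
      · exact Or.inl (Or.inl ⟨h3, h5⟩)
    have h3 : μ.real (shift z ⁻¹' (C ∆ E)) = μ.real (C ∆ E) :=
      congrArg ENNReal.toReal ((hp z).measure_preimage (hC.symmDiff hE).nullMeasurableSet)
    have h4 := measureReal_le_symm (μ := μ) E C
    have h5 := measureReal_le_symm (μ := μ) B D
    have h6 : μ.real D ≤ 1 := measureReal_le_one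
    have h7 : μ.real E ≤ 1 := measureReal_le_one
    have h8 : 0 ≤ μ.real D := measureReal_nonneg
    have h9 : 0 ≤ μ.real B := measureReal_nonneg
    calc μ.real E * μ.real B ≤ μ.real E * (μ.real D + ε) := by gcongr; linarith
      _ = μ.real E * μ.real D + μ.real E * ε := by ring
      _ ≤ (μ.real C + ε) * μ.real D + 1 * ε := by gcongr; linarith
      _ = μ.real D * μ.real C + ε * μ.real D + ε := by ring
      _ ≤ 2 * ε + ε * 1 + ε := by
          have h10 : μ.real D * μ.real C ≤ 2 * ε := by linarith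
          gcongr
      _ = 4 * ε := by ring
  have hB0 : μ.real B = 0 := by
    have h1 : μ.real E * μ.real B ≤ 0 :=
      le_of_forall_pos_le_add fun ε hε => by have := key (ε / 4) (by positivity); linarith
    have h9 : 0 ≤ μ.real B := measureReal_nonneg
    nlinarith
  rw [measureReal_eq_zero_iff] at hB0
  filter_upwards [measure_eq_zero_iff_ae_notMem.1 hB0] with ω h
  simpa [hB] using h

lemma recur {p : Omega → Prop} (hp : NM (law ν g δ) p) (h0 : ¬ ∀ᵐ ω ∂law ν g δ, ¬ p ω) :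
    ∀ᵐ ω ∂law ν g δ, ∀ N : ℤ, (∃ z ≤ N, p (shift z ω)) ∧ ∃ z, N ≤ z ∧ p (shift z ω) := by
  obtain ⟨E, hE1, hE2, hE3⟩ := hp.exists_measurable_subset_ae_eq
  have h1 : law ν g δ E ≠ 0 := by
    rw [measure_congr hE3]
    intro h
    exact h0 (measure_eq_zero_iff_ae_notMem.1 h)
  rw [ae_all_iff]
  intro N
  filter_upwards [recur_aux ν g δ hE2 h1 (Iic N) (fun M => ⟨min N (-M - 1), mem_Iic.2 (min_le_left _ _), by
      have := min_le_right N (-M - 1); rw [lt_abs]; omega⟩),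
    recur_aux ν g δ hE2 h1 (Ici N) (fun M => ⟨max N (M + 1), mem_Ici.2 (le_max_left _ _), by
      have := le_max_right N (M + 1); rw [lt_abs]; omega⟩)] with ω ⟨z, h2, h3⟩ ⟨w, h4, h5⟩
  exact ⟨⟨z, h2, hE1 h3⟩, w, h4, hE1 h5⟩

end Pool.Agent.Lib.MP_dd0771_pr
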