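import Pool.Agent.Lib.MP_dd0771_pr.Prob1

open MeasureTheory ProbabilityTheory Set Filter Topology
open scoped NNReal ENNReal

namespace Pool.Agent.Lib.MP_dd0771_pr

/-- Content of a cell. -/
abbrev Cel : Type := ℕ × (ℕ → ℝ)
/-- The jump clocks in one window. -/
abbrev Win : Type := ℤ × ℕ × Bool → Cel
/-- Restriction to window `n`. -/
def win (n : ℕ) (ω : Omega) : Win := fun q => ω (q.1, some (some q.2, n))
open Classical in
/-- Number of points of a cell in `J`. -/
noncomputable def cntc (J : Set ℝ) (c : Cel) : ℕ :=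
  ((Finset.range c.1).filter (fun j => c.2 j ∈ J)).card
/-- Number of points in `J` of the clocks at `y` of level below `H`. -/
noncomputable def cnt (y : ℤ) (H : ℕ) (J : Set ℝ) (w : Win) : ℕ :=
  ∑ q ∈ Finset.range H ×ˢ (Finset.univ : Finset Bool), cntc J (w (y, q))
/-- Subwindows. -/
def sub (r i : ℕ) : Set ℝ := Ioc ((i : ℝ) / r) (((i + 1 : ℕ) : ℝ) / r)

variable {ω : Omega}

lemma Good.window (h : Good ω) {n : ℕ} {t : ℝ} (ht : t ∈ Ioc (n : ℝ) (n + 1)) {y : ℤ} {k : ℕ}
    {e : Bool} (h1 : t ∈ pts ω y (some (k, e))) :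
    ∃ j, j < (win n ω (y, k, e)).1 ∧ t = n + (win n ω (y, k, e)).2 j := by
  obtain ⟨m, j, h2, h3⟩ := h1
  have h4 := h.1 (y, some (some (k, e), m)) j
  have h5 : (m : ℝ) < n + 1 := by linarith [ht.2, h4.1]
  have h6 : (n : ℝ) < m + 1 := by linarith [ht.1, h4.2]
  have h7 : m < n + 1 := by exact_mod_cast h5
  have h8 : n < m + 1 := by exact_mod_cast h6
  obtain rfl : m = n := by omega
  exact ⟨j, h2, h3⟩

lemma sub_window {r i n : ℕ} (hi : i < r) {t : ℝ}
    (ht : t ∈ Ioc ((n : ℝ) + i / r) (n + (i + 1 : ℕ) / r)) : t ∈ Ioc (n : ℝ) (n + 1) := by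
  have hr : (0 : ℝ) < r := by exact_mod_cast (Nat.zero_le i).trans_lt hi
  have h1 : (0 : ℝ) ≤ i / r := by positivity
  have h2 : ((i + 1 : ℕ) : ℝ) / r ≤ 1 := by
    rw [div_le_one hr]; exact_mod_cast hi
  exact ⟨by linarith [ht.1], by linarith [ht.2]⟩

lemma sub_unique {r i i' : ℕ} (hr : 0 < r) {u : ℝ} (h : u ∈ sub r i) (h' : u ∈ sub r i') :
    i = i' := by
  have hr' : (0 : ℝ) < r := by exact_mod_cast hr
  have h1 := (div_lt_div_iff_of_pos_right hr').1 (h.1.trans_le h'.2)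
  have h2 := (div_lt_div_iff_of_pos_right hr').1 (h'.1.trans_le h.2)
  have h3 : i < i' + 1 := by exact_mod_cast h1
  have h4 : i' < i + 1 := by exact_mod_cast h2
  omega

lemma Good.rings_le (h : Good ω) {r i : ℕ} (hi : i < r) (n : ℕ) (y : ℤ) (H : ℕ) :
    (rings ω y H ∩ Ioc ((n : ℝ) + i / r) (n + (i + 1 : ℕ) / r)).encard ≤
      cnt y H (sub r i) (win n ω) := by
  classical
  set F : Finset ℝ := (Finset.range H ×ˢ (Finset.univ : Finset Bool)).biUnion fun q =>
    ((Finset.range (win n ω (y, q)).1).filter (fun j => (win n ω (y, q)).2 j ∈ sub r i)).image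
      fun j => (n : ℝ) + (win n ω (y, q)).2 j with hF
  have h1 : rings ω y H ∩ Ioc ((n : ℝ) + i / r) (n + (i + 1 : ℕ) / r) ⊆ F := by
    rintro t ⟨⟨k, hk, e, h2⟩, h3⟩
    obtain ⟨j, h4, h5⟩ := h.window (sub_window hi h3) h2
    simp only [hF, Finset.coe_biUnion, mem_iUnion, Finset.mem_coe, Finset.mem_image,
      Finset.mem_filter, Finset.mem_range]
    refine ⟨(k, e), by simpa using hk, j, ⟨h4, ?_, ?_⟩, h5.symm⟩
    · linarith [h3.1]
    · linarith [h3.2]
  refine (encard_le_encard h1).trans ?_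
  rw [encard_coe_eq_coe_finsetCard, Nat.cast_le]
  refine Finset.card_biUnion_le.trans (Finset.sum_le_sum fun q _ => Finset.card_image_le.trans ?_)
  simp only [cntc]
  convert le_rfl

variable {A : Finset ℤ} {ζ : ℝ → ℤ → ℕ}

lemma IsEvol.env_win (hζ : IsEvol A ω ζ) (h : Good ω) {r n : ℕ} {H R : ℕ → ℤ → ℕ}
    (h0 : ∀ y, ζ n y ≤ H 0 y)
    (h1 : ∀ i < r, ∀ y, cnt y (H (i + 1) y) (sub r i) (win n ω) ≤ R i y)
    (h2 : ∀ i y, H i y + R i (y - 1) + R i (y + 1) ≤ H (i + 1) y) :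
    ∀ i ≤ r, ∀ v ∈ Icc (n : ℝ) (n + i / r), ∀ y, ζ v y ≤ H i y := by
  intro i
  induction i with
  | zero =>
    intro _ v hv y
    have : v = n := le_antisymm (by simpa using hv.2) hv.1
    rw [this]; exact h0 y
  | succ i ih =>
    intro hi v hv y
    have h3 := ih (by omega)
    have h4 : (n : ℝ) ≤ n + i / r := by have : (0 : ℝ) ≤ i / r := by positivity
                                        linarith
    by_cases h5 : v ≤ n + i / r
    · have := h3 v ⟨hv.1, h5⟩ y
      have := h2 i y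
      omega
    · refine hζ.env ((Nat.cast_nonneg n).trans h4) (h0 := H i) (H := H (i + 1)) (R := R i)
        (h3 _ ⟨h4, le_rfl⟩) (fun z => (h.rings_le hi n z _).trans ?_) (h2 i) v
        ⟨(not_le.1 h5).le, hv.2⟩ y
      exact_mod_cast h1 i hi z

/-- Basic envelope. -/
def bA (M : ℕ) (y : ℤ) : ℕ := M * 2 ^ y.natAbs

lemma bA_le (M : ℕ) {y z : ℤ} (h : z.natAbs ≤ y.natAbs + 1) : bA M z ≤ 2 * bA M y := by
  simp only [bA]
  calc M * 2 ^ z.natAbs ≤ M * 2 ^ (y.natAbs + 1) := by gcongr; norm_num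
    _ = _ := by ring

/-- The clocks outside `S` do not ring too often. -/
def Yout (M r : ℕ) (S : Set ℤ) : Set Win :=
  {w | ∀ y, y ∉ S → ∀ i < r, cnt y (16 * (2 ^ i * bA M y)) (sub r i) w ≤ 2 ^ i * bA M y}

/-- The configuration at time `n` is below the envelope. -/
def Vn (M n : ℕ) : Set Omega := ⋂ y, (LtE n y (8 * bA M y))ᶜ

lemma Good.le_of_vn (h : Good ω) {M n : ℕ} (hV : ω ∈ Vn M n) (hζ : IsEvol A ω ζ) (y : ℤ) :
    ζ n y ≤ 8 * bA M y := by
  have := mem_iInter.1 hV y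
  rw [mem_compl_iff, h.ltE_iff (Nat.cast_nonneg n), not_lt] at this
  exact eta_le_iff.1 this A ζ hζ

lemma Good.bdd_win (h : Good ω) {M r n : ℕ} (hr : 0 < r) (hV : ω ∈ Vn M n)
    (hY : win n ω ∈ Yout M r ∅) (y : ℤ) :
    ∃ H : ℕ, ∀ v ∈ Icc (n : ℝ) (n + 1), eta ω v y ≤ H := by
  refine ⟨8 * (2 ^ r * bA M y), fun v hv => eta_le_iff.2 fun A ζ hζ => ?_⟩
  refine hζ.env_win h (r := r) (n := n) (H := fun i y => 8 * (2 ^ i * bA M y))
    (R := fun i y => 2 ^ i * bA M y) (fun y => by simpa using h.le_of_vn hV hζ y)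
    (fun i hi y => ?_) (fun i y => ?_) r le_rfl v ?_ y
  · have := hY y (by simp) i hi
    rwa [show 8 * (2 ^ (i + 1) * bA M y) = 16 * (2 ^ i * bA M y) by ring]
  · have h1 := Nat.mul_le_mul_left (2 ^ i) (bA_le M (y := y) (z := y - 1) (by omega))
    have h2 := Nat.mul_le_mul_left (2 ^ i) (bA_le M (y := y) (z := y + 1) (by omega))
    have h3 : 2 ^ i * (2 * bA M y) = 2 * (2 ^ i * bA M y) := by ring
    have h4 : 2 ^ (i + 1) * bA M y = 2 * (2 ^ i * bA M y) := by ring
    omega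
  · rwa [div_self (by exact_mod_cast hr.ne')]

/-- Bound used near the special interval. -/
def bS (M r : ℕ) (a : ℤ) : ℕ := 8 * (M * 2 ^ (a.natAbs + r + 2))

lemma le_bS (M r : ℕ) {a y : ℤ} (h : y ∈ Icc (a - 2) (a + r + 1)) : 8 * bA M y ≤ bS M r a := by
  simp only [bA, bS]
  rw [mem_Icc] at h
  gcongr
  · norm_num
  · omega

/-- Prescribed content of the cells near the special interval. -/
def celSet (M r : ℕ) (a : ℤ) (q : ℤ × ℕ × Bool) : Set Cel :=
  if q.1 ∈ Ico a (a + r) ∧ q.2 = (0, true) then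
    {c | c.1 = 3 ^ (q.1 - a).toNat * bS M r a ∧ ∀ j < c.1, c.2 j ∈ sub r (q.1 - a).toNat}
  else {c | c.1 = 0}

/-- The sweeping pattern. -/
def Zin (M r : ℕ) (a : ℤ) : Set Win :=
  Set.pi (↑(Finset.Icc (a - 1) (a + r) ×ˢ Finset.range (3 ^ r * bS M r a) ×ˢ
    (Finset.univ : Finset Bool))) (celSet M r a)

lemma zin_mem {M r : ℕ} {a : ℤ} {w : Win} (hw : w ∈ Zin M r a) {y : ℤ} {k : ℕ} (e : Bool)
    (hy : y ∈ Icc (a - 1) (a + r)) (hk : k < 3 ^ r * bS M r a) :
    w (y, k, e) ∈ celSet M r a (y, k, e) :=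
  hw _ (Finset.mem_coe.2 (Finset.mem_product.2 ⟨Finset.mem_Icc.2 hy,
    Finset.mem_product.2 ⟨Finset.mem_range.2 hk, Finset.mem_univ _⟩⟩))

lemma zin_pos {M r : ℕ} {a : ℤ} {w : Win} (hw : w ∈ Zin M r a) {y : ℤ} {k : ℕ} {e : Bool}
    (hy : y ∈ Icc (a - 1) (a + r)) (hk : k < 3 ^ r * bS M r a) {j : ℕ} (hj : j < (w (y, k, e)).1) :
    y ∈ Ico a (a + r) ∧ k = 0 ∧ e = true ∧ (w (y, k, e)).2 j ∈ sub r (y - a).toNat := by
  have := zin_mem hw e hy hk
  rw [celSet] at this
  split_ifs at this with h1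
  · simp only [Prod.mk.injEq] at h1
    exact ⟨h1.1, h1.2.1, h1.2.2, this.2 j hj⟩
  · have h2 : (w (y, k, e)).1 = 0 := this
    omega

lemma cntc_le (J : Set ℝ) (c : Cel) : cntc J c ≤ c.1 := by
  classical
  unfold cntc
  exact (Finset.card_filter_le _ _).trans (Finset.card_range _).le

lemma cntc_eq_zero {J : Set ℝ} {c : Cel} (h : ∀ j < c.1, c.2 j ∉ J) : cntc J c = 0 := by
  simpa [cntc] using h

lemma zin_cnt {M r : ℕ} {a : ℤ} {w : Win} (hw : w ∈ Zin M r a) {y : ℤ} {i : ℕ} (hi : i < r)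
    (hy : y ∈ Icc (a - 1) (a + r)) : cnt y (3 ^ (i + 1) * bS M r a) (sub r i) w ≤
      if y ∈ Ico a (a + r) then 3 ^ i * bS M r a else 0 := by
  have hk : ∀ k < 3 ^ (i + 1) * bS M r a, k < 3 ^ r * bS M r a := fun k hk =>
    hk.trans_le (by gcongr; norm_num; omega)
  have h0 : ∀ q ∈ Finset.range (3 ^ (i + 1) * bS M r a) ×ˢ (Finset.univ : Finset Bool),
      cntc (sub r i) (w (y, q)) ≤
        if q = (0, true) then (if y ∈ Ico a (a + r) then 3 ^ i * bS M r a else 0) else 0 := by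
    rintro ⟨k, e⟩ hq
    have hk' := hk k (by simpa using hq)
    by_cases h1 : ∃ j < (w (y, k, e)).1, (w (y, k, e)).2 j ∈ sub r i
    · obtain ⟨j, h1, h2⟩ := h1
      obtain ⟨h3, rfl, rfl, h4⟩ := zin_pos hw hy hk' h1
      have h5 := sub_unique (by omega) h2 h4
      have h6 := zin_mem hw true hy hk'
      rw [celSet, if_pos ⟨h3, rfl⟩] at h6
      rw [if_pos rfl, if_pos h3, h5]
      exact (cntc_le _ _).trans h6.1.le
    · push Not at h1
      rw [cntc_eq_zero h1]; exact Nat.zero_le _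
  refine (Finset.sum_le_sum h0).trans ?_
  rw [Finset.sum_ite_eq']
  split_ifs <;> simp

section Special

variable {M r n : ℕ} {a : ℤ} (h : Good ω) (hr : 0 < r) (hV : ω ∈ Vn M n)
  (hY : win n ω ∈ Yout M r (Icc (a - 1) (a + r))) (hZ : win n ω ∈ Zin M r a)
include h hV hY hZ

lemma special_env (hζ : IsEvol A ω ζ) : ∀ i ≤ r, ∀ v ∈ Icc (n : ℝ) (n + i / r),
    ∀ y ∈ Icc (a - 1) (a + r), ζ v y ≤ 3 ^ i * bS M r a := by
  intro i hi v hv y hy
  have key := hζ.env_win h (r := r) (n := n)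
    (H := fun i y => if y ∈ Icc (a - 1) (a + r) then 3 ^ i * bS M r a else 8 * (2 ^ i * bA M y))
    (R := fun i y => if y ∈ Icc (a - 1) (a + r) then
      (if y ∈ Ico a (a + r) then 3 ^ i * bS M r a else 0) else 2 ^ i * bA M y) ?_ ?_ ?_ i hi v hv y
  · simpa only [hy, if_true] using key
  · intro y
    have := h.le_of_vn hV hζ y
    split_ifs with h1
    · rw [mem_Icc] at h1
      simpa using this.trans (le_bS M r ⟨by omega, by omega⟩)
    · simpa using this
  · intro i hi y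
    split_ifs with h1 h2
    · simpa only [h2, if_true] using zin_cnt hZ hi h1
    · simpa only [h2, if_false] using zin_cnt hZ hi h1
    · have := hY y h1 i hi
      rwa [show 8 * (2 ^ (i + 1) * bA M y) = 16 * (2 ^ i * bA M y) by ring]
  · intro i y
    by_cases h1 : y ∈ Icc (a - 1) (a + r)
    · have h2 : ∀ z ∈ Icc (a - 2) (a + r + 1), (if z ∈ Icc (a - 1) (a + r) then
          (if z ∈ Ico a (a + r) then 3 ^ i * bS M r a else 0) else 2 ^ i * bA M z) ≤
          3 ^ i * bS M r a := by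
        intro z hz
        split_ifs
        · exact le_rfl
        · exact Nat.zero_le _
        · have := le_bS M r hz
          exact Nat.mul_le_mul (by gcongr; norm_num) (by omega)
      have h3 := h2 (y - 1) ⟨by have := h1.1; omega, by have := h1.2; omega⟩
      have h4 := h2 (y + 1) ⟨by have := h1.1; omega, by have := h1.2; omega⟩
      simp only [h1, if_true]
      rw [pow_succ]
      nlinarith
    · have h2 : ∀ z, z ∉ Ico a (a + r) → z.natAbs ≤ y.natAbs + 1 → (if z ∈ Icc (a - 1) (a + r) then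
          (if z ∈ Ico a (a + r) then 3 ^ i * bS M r a else 0) else 2 ^ i * bA M z) ≤
          2 ^ i * (2 * bA M y) := by
        intro z hz hz'
        rw [if_neg hz]
        split_ifs
        · exact Nat.zero_le _
        · exact Nat.mul_le_mul_left _ (bA_le M hz')
      rw [mem_Icc] at h1
      have h3 := h2 (y - 1) (by rw [mem_Ico]; omega) (by omega)
      have h4 := h2 (y + 1) (by rw [mem_Ico]; omega) (by omega)
      have h5 : 2 ^ i * (2 * bA M y) = 2 * (2 ^ i * bA M y) := by ring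
      have h6 : 2 ^ (i + 1) * bA M y = 2 * (2 ^ i * bA M y) := by ring
      have h7 : y ∉ Icc (a - 1) (a + r) := h1
      simp only [h7, if_false]
      omega

include hr

lemma special_silent : ∀ u ∈ Ioc (n : ℝ) (n + 1), ∀ y, ¬ Jump ω u (a - 1) y := by
  rintro u hu y ⟨k, e, h1, -, h2⟩
  obtain ⟨v, h3, h4⟩ := (h2.and (Ico_mem_nhdsLT hu.1)).exists
  obtain ⟨A, ζ, hζ, h5⟩ := lt_eta_iff.1 h3
  have ha : a - 1 ∈ Icc (a - 1) (a + r) := ⟨le_rfl, by omega⟩
  have h6 := special_env h hV hY hZ hζ r le_rfl v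
    (by rw [div_self (by exact_mod_cast hr.ne')]; exact ⟨h4.1, h4.2.le.trans hu.2⟩) _ ha
  obtain ⟨j, h7, -⟩ := h.window hu h1
  have := (zin_pos hZ ha (h5.trans_le h6) h7).1.1
  omega

lemma special_empty : ∀ x ∈ Ico a (a + r), eta ω ((n + 1 : ℕ) : ℝ) x = 0 := by
  have key : ∀ A ζ, IsEvol A ω ζ → ∀ i ≤ r, ∀ x ∈ Ico a (a + i), ζ (n + (i : ℕ) / r) x = 0 := by
    intro A ζ hζ i
    induction i with
    | zero => intro _ x hx; simp at hx
    | succ i ih =>
      intro hi x hx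
      have hr' : (0 : ℝ) < r := by exact_mod_cast hr
      have h0 : (n : ℝ) ≤ n + i / r := by have : (0 : ℝ) ≤ i / r := by positivity
                                          linarith
      have h1 : (n : ℝ) + i / r ≤ n + (i + 1 : ℕ) / r := by gcongr; omega
      have hc : a + i ∈ Icc (a - 1) (a + r) := ⟨by omega, by omega⟩
      have hc' : a + i ∈ Ico a (a + r) := ⟨by omega, by omega⟩
      have hi' : (a + i - a).toNat = i := by omega
      refine hζ.sweep h.noTie ((Nat.cast_nonneg n).trans h0) h1 (a := a) (c := a + i) (by omega)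
        (ih (by omega)) ((h.pts_finite _ _ _).subset fun t ht => ⟨ht.1, ht.2.2⟩) ?_ ?_ x
        ⟨hx.1, by have := hx.2; push_cast at this; omega⟩
      · have h2 := special_env h hV hY hZ hζ i (by omega) _ ⟨h0, le_rfl⟩ _ hc
        rcases Nat.eq_zero_or_pos (bS M r a) with h3 | h3
        · rw [h3] at h2
          have : ζ (n + i / r) (a + i) = 0 := by omega
          simp [this]
        have h4 := zin_mem hZ true hc (k := 0) (by positivity)
        rw [celSet, if_pos ⟨hc', rfl⟩] at h4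
        simp only [hi'] at h4
        obtain ⟨h4, h5⟩ := h4
        have h6 : (fun j => tm ω (a + i, 0, true, n, j)) '' (Finset.range (3 ^ i * bS M r a)) ⊆
            pts ω (a + i) (some (0, true)) ∩ Ioc ((n : ℝ) + i / r) (n + (i + 1 : ℕ) / r) := by
          rintro _ ⟨j, hj, rfl⟩
          have h7 : j < (win n ω (a + i, 0, true)).1 := by rw [h4]; simpa using hj
          refine ⟨mem_pts_iff.2 ⟨n, j, h7, rfl⟩, ?_, ?_⟩
          · exact add_lt_add_right (h5 j h7).1 _
          · exact add_le_add_right (h5 j h7).2 _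
        refine le_trans ?_ (encard_le_encard h6)
        rw [InjOn.encard_image (fun j _ j' _ h7 => by simpa using h.2 h7),
          encard_coe_eq_coe_finsetCard, Finset.card_range]
        exact_mod_cast h2
      · intro t ht u hu y k e h2 h3 h4
        have h5 : y ∈ Icc (a - 1) (a + r) := ⟨h4.1, by have := h4.2; omega⟩
        have h6 := special_env h hV hY hZ hζ (i + 1) hi u
          ⟨h0.trans hu.1, hu.2.le.trans ht.2⟩ y h5
        have h7 : k < 3 ^ r * bS M r a := (h3.trans_le h6).trans_le (by gcongr; norm_num)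
        obtain ⟨j, h8, h9⟩ := h.window (sub_window hi ht) h2
        obtain ⟨h10, h11, h12, h13⟩ := zin_pos hZ h5 h7 h8
        have h14 : (win n ω (y, k, e)).2 j ∈ sub r i := ⟨by linarith [ht.1], by linarith [ht.2]⟩
        have h15 := sub_unique hr h13 h14
        have := h10.1
        exact ⟨by omega, h11, h12⟩
  intro x hx
  refine nonpos_iff_eq_zero.1 ((eta_le_iff (k := 0)).2 fun A ζ hζ => le_of_eq ?_)
  have := key A ζ hζ r le_rfl x hx
  rwa [div_self (by exact_mod_cast hr.ne'), ← Nat.cast_add_one] at this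

end Special

end Pool.Agent.Lib.MP_dd0771_pr
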